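import Pool.Agent.D0H56.MD.Defs4
import Pool.Agent.H225R3.Marg4

/-! # General consequences of large eigenvalues -/

set_option autoImplicit false

open Module Polynomial NumberField Pool.Agent.H225R3.Marg

namespace Pool.Agent.D0H56.MD

universe u

theorem charpoly_conj {G : Type u} [Group G] {M : ℕ} (ρ : G →* Matrix (Fin M) (Fin M) ℂ)
    (g u : G) : (ρ (g * u * g⁻¹)).charpoly = (ρ u).charpoly := by
  rw [map_mul, map_mul]
  have h4 : ρ g⁻¹ * ρ g = 1 := by rw [← map_mul, inv_mul_cancel, map_one]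
  rw [Matrix.charpoly_mul_comm, ← mul_assoc, h4, one_mul]

/-- uniform discreteness from eigenvalues away from the unit circle -/
theorem disc_of_large {G : Type u} [Group G] [TopologicalSpace G] {M : ℕ}
    (ρ : G →* Matrix (Fin M) (Fin M) ℂ) (hρ : Continuous ρ) (c : ℝ) (hc : 0 < c)
    (F : Set (Subgroup G))
    (hF : ∀ Γ ∈ F, ∀ γ ∈ Γ, γ ≠ 1 → ∃ l : ℂ, IsEig (ρ γ) l ∧ c ≤ Real.log ‖l‖) :
    UniformlyDiscrete F := by
  have hε : 0 < Real.exp c - 1 := by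
    have := Real.add_one_lt_exp hc.ne'
    linarith
  refine ⟨_, nhd ρ hρ (Real.exp c - 1) hε, ?_⟩
  intro Γ hΓF g v hv hΓ
  by_contra hne
  obtain ⟨l, hl, hl2⟩ := hF Γ hΓF _ hΓ hne
  rw [IsEig, charpoly_conj] at hl
  have h1 := close_eig (ρ v) (Real.exp c - 1) hε hv l hl
  have hl0 : 0 < ‖l‖ := by
    rw [norm_pos_iff]
    rintro rfl
    rw [norm_zero, Real.log_zero] at hl2
    linarith
  have h2 : Real.exp c ≤ ‖l‖ := (Real.le_log_iff_exp_le hl0).mp hl2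
  have h3 : ‖l‖ ≤ ‖l - 1‖ + 1 := by
    have := norm_add_le (l - 1) 1
    rwa [sub_add_cancel, norm_one] at this
  linarith

/-- elements conjugate into a compact set have bounded eigenvalues -/
theorem escape_of_large {G : Type u} [Group G] [TopologicalSpace G] {M : ℕ}
    (ρ : G →* Matrix (Fin M) (Fin M) ℂ) (hρ : Continuous ρ) (c a : ℝ) (hc : 0 < c) (ha : 0 < a)
    (F : ℕ → Set (Subgroup G))
    (hF : ∀ m : ℕ, ∀ Γ ∈ F m, ∀ γ ∈ Γ, γ ≠ 1 → ∃ l : ℂ, IsEig (ρ γ) l ∧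
      c * (m : ℝ) ^ a ≤ Real.log ‖l‖) (C : Set G) (hC : IsCompact C) :
    ∃ m₀ : ℕ, ∀ m : ℕ, m₀ ≤ m → ∀ Γ ∈ F m, ∀ g : G, ∀ v ∈ C, g * v * g⁻¹ ∈ Γ →
      g * v * g⁻¹ = 1 := by
  obtain ⟨B, hB⟩ : ∃ B : ℝ, ∀ v ∈ C, ∀ i j, ‖ρ v i j‖ ≤ B := by
    have h1 : ∀ i j, ∃ B : ℝ, ∀ v ∈ C, ‖ρ v i j‖ ≤ B := by
      intro i j
      have hc' : Continuous fun g : G => ρ g i j := (continuous_apply_apply i j).comp hρ
      obtain ⟨B, hB⟩ := hC.exists_bound_of_continuousOn hc'.continuousOn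
      exact ⟨B, hB⟩
    choose B hB using h1
    refine ⟨∑ i, ∑ j, |B i j|, fun v hv i j => ?_⟩
    calc ‖ρ v i j‖ ≤ B i j := hB i j v hv
      _ ≤ |B i j| := le_abs_self _
      _ ≤ ∑ j, |B i j| := Finset.single_le_sum (f := fun j => |B i j|)
          (fun _ _ => abs_nonneg _) (Finset.mem_univ j)
      _ ≤ ∑ i, ∑ j, |B i j| := Finset.single_le_sum (f := fun i => ∑ j, |B i j|)
          (fun _ _ => Finset.sum_nonneg fun _ _ => abs_nonneg _) (Finset.mem_univ i)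
  have ht : Filter.Tendsto (fun m : ℕ => c * (m : ℝ) ^ a) Filter.atTop Filter.atTop :=
    Filter.Tendsto.const_mul_atTop hc ((tendsto_rpow_atTop ha).comp tendsto_natCast_atTop_atTop)
  obtain ⟨m₀, hm₀⟩ := Filter.eventually_atTop.mp
    (ht.eventually_gt_atTop (Real.log (M * B + 1)))
  refine ⟨m₀, fun m hm Γ hΓF g v hv hΓ => ?_⟩
  by_contra hne
  obtain ⟨l, hl, hl2⟩ := hF m Γ hΓF _ hΓ hne
  rw [IsEig, charpoly_conj] at hl
  obtain ⟨w, hw, hAw⟩ := exists_eigvec (ρ v) l hl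
  have h1 : ‖l‖ ≤ M * B := eig_le (ρ v) l B w hw hAw (hB v hv)
  have h2 := hm₀ m hm
  have h3 : 0 ≤ M * B := (norm_nonneg l).trans h1
  have h4 : Real.log ‖l‖ ≤ Real.log (M * B + 1) := by
    rcases (norm_nonneg l).eq_or_lt with h0 | h0
    · rw [← h0, Real.log_zero]
      exact Real.log_nonneg (by linarith)
    · exact Real.log_le_log h0 (by linarith)
  linarith

end Pool.Agent.D0H56.MD
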