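import Pool.Agent.D0H56.MD.Defs3

/-!
# Project MD: the version with ranks instead of linear independence (threshold `1/3`)
-/

set_option autoImplicit false

open Module Polynomial NumberField Pool.Agent.H225R3.Marg

namespace Pool.Agent.D0H56.MD

/-- **RANK.** The monomials `x^(bi) y^(bj)`, `i, j < U`, have rank at least `U² / 2`. From
`Pool.Agent.H196R3.LI.monomials`. -/
def S_RANK : Prop := ∃ c : ℝ, 0 < c ∧ ∀ f : ℤ[X], Irreducible f → f.Monic → |f.coeff 0| = 1 →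
  ∀ x y : ℂ, aeval x f = 0 → aeval y f = 0 → MI x y → ∀ b U : ℕ, 1 ≤ b → 2 ≤ U →
  (b : ℝ) * (U : ℝ) ^ 3 * (Real.log (2 * (U : ℝ) ^ 2)) ^ 4 * Real.log (MM f) ≤
    c * f.natDegree →
  U ^ 2 ≤ 2 * finrank ℚ (Submodule.span ℚ (Set.range
    (fun k : Fin U × Fin U => x ^ (b * (k.1 : ℕ)) * y ^ (b * (k.2 : ℕ)))))

/-- **SPN3.** From `Pool.Agent.Y642.ND.top_of_growth` with `s = U - 1`. -/
def S_SPN3 : Prop := ∀ (K : Type) [Field K] [NumberField K] (x y : K),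
  IntermediateField.adjoin ℚ {x, y} = ⊤ → ∀ U L : ℕ, 2 ≤ U → 4 * finrank ℚ K / U < L →
  U ^ 2 ≤ 2 * finrank ℚ (Submodule.span ℚ (Set.range
    (fun k : Fin U × Fin U => x ^ (k.1 : ℕ) * y ^ (k.2 : ℕ)))) →
  Submodule.span ℚ {z : K | ∃ m n : ℕ, m < L ∧ n < L ∧ z = x ^ m * y ^ n} = ⊤

/-- **PARAM3.** Choice of the parameters: `a < a'`, `a + a' < (1 - 3 δ) / 4`, `X = ⌊d^a'⌋`,
`U = ⌊d^u⌋` with `u < (1 - a - a')/3`, `a + δ + a' - u < 0`; `T` a constant (large in terms of `a'`),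
`P` a set of `K` primes between `√X` and `X`, `K` a constant (large in terms of `T`, `a'`).
There are enough primes: `π(X) ≥ c X / log X`, `|B₁| ≤ log₂ D` and
`|B₂| ≤ 16 (log d + d^a) / log 2 = o(X / log X)`.
Main terms, divided by `log d`: the left side is at most `(T² + K) · 1.2 + T³ · 1.3` and the right
side is at least `T K a' / 5`. The term with `d^a` tends to `0`. -/
def S_PARAM3 : Prop := ∀ δ a c : ℝ, 0 ≤ δ → 0 ≤ a → a < (1 - 3 * δ) / 8 → 0 < c →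
  ∃ d₀ : ℕ, 2 ≤ d₀ ∧ ∀ d D : ℕ, d₀ ≤ d → d ≤ D → (D : ℝ) ≤ (d : ℝ) ^ (1 + δ) →
  ∃ U T X : ℕ, 2 ≤ U ∧ 1 ≤ T ∧ 1 ≤ X ∧
  (X : ℝ) * (U : ℝ) ^ 3 * (Real.log (2 * (U : ℝ) ^ 2)) ^ 4 * (d : ℝ) ^ a ≤ c * d ∧
  ∀ B₁ B₂ : Finset ℕ, 2 ^ B₁.card ≤ D → (∀ p ∈ B₂, p.Prime) →
    ∑ p ∈ B₂, Real.log p ≤ 16 * (Real.log d + (d : ℝ) ^ a) →
    ∃ P : Finset ℕ, (∀ p ∈ P, p.Prime ∧ p ≤ X ∧ p ∉ B₁ ∧ p ∉ B₂) ∧
      ∀ N : ℕ, N = (4 * D / U + 2) * (4 * T + 2 * P.card + 1) →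
      ((T : ℝ) ^ 2 + P.card) * Real.log (D * ((T : ℝ) ^ 2 + P.card)) + (T : ℝ) ^ 3 * Real.log N +
          2 * (d : ℝ) ^ a * ((N : ℝ) / d) * ((T : ℝ) ^ 2 + ∑ p ∈ P, (p : ℝ)) <
        T * ((∑ p ∈ P, Real.log p) / 2)

/-- **E3.** The engine with growth, threshold `1/3`. -/
def S_E3 : Prop := ∀ δ a : ℝ, 0 ≤ δ → 0 ≤ a → a < (1 - 3 * δ) / 8 → ∃ d₀ : ℕ, ∀ f : ℤ[X],
  Irreducible f → f.Monic → |f.coeff 0| = 1 → d₀ ≤ f.natDegree →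
  ∀ x y : ℂ, aeval x f = 0 → aeval y f = 0 → MI x y →
  (finrank ℚ (IntermediateField.adjoin ℚ {x, y}) : ℝ) ≤ (f.natDegree : ℝ) ^ (1 + δ) →
  (f.natDegree : ℝ) ^ a ≤ Real.log (MM f)

/-- **ELT3.** The gap for pairs of conjugate multiplicatively independent eigenvalues, with growth;
from `S_E3`, `S_MEAS2`, `S_DEG`, `S_SMALL`. -/
def S_ELT3 : Prop := ∀ (n s : ℕ) (δ a : ℝ), 0 ≤ δ → 0 ≤ a → a < (1 - 3 * δ) / 8 → ∃ c : ℝ, 0 < c ∧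
  ∀ (k : Type) [Field k] [NumberField k] (S : Finset (k →+* ℂ)) (A : Matrix (Fin n) (Fin n) (𝓞 k)),
  S.card ≤ s → IsUnit A →
  (∀ σ : k →+* ℂ, σ ∉ S → ∀ l : ℂ, ((emb σ).mapMatrix A).charpoly.IsRoot l → ‖l‖ ≤ 1) →
  ∀ (σ₁ σ₂ : k →+* ℂ) (x y : ℂ), (cdeg σ₁ σ₂ : ℝ) ≤ (finrank ℚ k : ℝ) ^ (1 + δ) →
  ((emb σ₁).mapMatrix A).charpoly.IsRoot x → ((emb σ₂).mapMatrix A).charpoly.IsRoot y →
  minpoly ℚ x = minpoly ℚ y → MI x y →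
  ∃ σ ∈ S, ∃ l : ℂ, ((emb σ).mapMatrix A).charpoly.IsRoot l ∧ 1 < ‖l‖ ∧
    c * (finrank ℚ k : ℝ) ^ a ≤ Real.log ‖l‖

end Pool.Agent.D0H56.MD
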