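import Pool.Agent.D0H56.MD.EngC
import Pool.Agent.D0H56.MD.Defs4

/-! # Assembly of the engine with ranks -/

set_option autoImplicit false

open Module Polynomial

namespace Pool.Agent.D0H56.MD

theorem rank_aux {K : Type} [Field K] [CharZero K] {ι : Type} (φ : K →+* ℂ) (v : ι → K) :
    finrank ℚ (Submodule.span ℚ (Set.range fun i => φ (v i))) =
      finrank ℚ (Submodule.span ℚ (Set.range v)) := by
  have h1 : Submodule.span ℚ (Set.range fun i => φ (v i)) =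
      (Submodule.span ℚ (Set.range v)).map φ.toRatAlgHom.toLinearMap := by
    rw [Submodule.map_span, ← Set.range_comp]
    rfl
  rw [h1]
  exact (LinearEquiv.finrank_eq (Submodule.equivMapOfInjective φ.toRatAlgHom.toLinearMap
    φ.injective _)).symm

/-- the contradiction -/
theorem core3 (hFr : S_FROB) (hN : S_NEWT) (hRo : S_ROWS) (hF : S_FIB) (hD : S_DET) (hAr : S_ARCH)
    (hI : S_INTERP) (hSp : S_SPN3) (hG : S_GOOD) (hAu : S_AUT) (hB : S_BAD) (hV : S_VAL)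
    {K : Type} [Field K] [NumberField K] (x y : K) (f : ℤ[X]) (hm : f.Monic) (hi : Irreducible f)
    (hx : aeval x f = 0) (hy : aeval y f = 0)
    (hgen : IntermediateField.adjoin ℚ {x, y} = ⊤) (hMI : MI x y) (a : ℝ)
    (hsmall : Real.log (MM f) < (f.natDegree : ℝ) ^ a) (U T X : ℕ) (hU : 2 ≤ U) (hT : 1 ≤ T)
    (hX : 1 ≤ X)
    (hlin : ∀ b : ℕ, 1 ≤ b → b ≤ X → U ^ 2 ≤ 2 * finrank ℚ (Submodule.span ℚ (Set.range
      (fun k : Fin U × Fin U => (x ^ b) ^ (k.1 : ℕ) * (y ^ b) ^ (k.2 : ℕ)))))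
    (hpar : ∀ B₁ B₂ : Finset ℕ, 2 ^ B₁.card ≤ finrank ℚ K → (∀ p ∈ B₂, p.Prime) →
      ∑ p ∈ B₂, Real.log p ≤ 16 * (Real.log f.natDegree + (f.natDegree : ℝ) ^ a) →
      ∃ P : Finset ℕ, (∀ p ∈ P, p.Prime ∧ p ≤ X ∧ p ∉ B₁ ∧ p ∉ B₂) ∧
      ∀ N : ℕ, N = (4 * finrank ℚ K / U + 2) * (4 * T + 2 * P.card + 1) →
      ((T : ℝ) ^ 2 + P.card) * Real.log (finrank ℚ K * ((T : ℝ) ^ 2 + P.card)) +
          (T : ℝ) ^ 3 * Real.log N +
          2 * (f.natDegree : ℝ) ^ a * ((N : ℝ) / f.natDegree) *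
            ((T : ℝ) ^ 2 + ∑ p ∈ P, (p : ℝ)) <
        T * ((∑ p ∈ P, Real.log p) / 2)) : False := by
  classical
  obtain ⟨d, hd⟩ : ∃ d : ℕ, d = f.natDegree := ⟨_, rfl⟩
  obtain ⟨D, hDD⟩ : ∃ D : ℕ, D = finrank ℚ K := ⟨_, rfl⟩
  have hDpos : 0 < D := by rw [hDD]; exact finrank_pos
  have hdpos : 0 < d := by
    rw [hd, Nat.pos_iff_ne_zero]
    intro h
    exact hi.not_isUnit ((hm.natDegree_eq_zero.mp h) ▸ isUnit_one)
  have hDR : (0 : ℝ) < D := by exact_mod_cast hDpos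
  have hdR : (0 : ℝ) < d := by exact_mod_cast hdpos
  have hxi : IsIntegral ℤ x := ⟨f, hm, by rw [← Polynomial.aeval_def]; exact hx⟩
  have hyi : IsIntegral ℤ y := ⟨f, hm, by rw [← Polynomial.aeval_def]; exact hy⟩
  have hxtor : ∀ n : ℕ, 0 < n → x ^ n ≠ 1 := by
    intro n hn h
    have h1 := (hMI.2.2 n 0 (by simpa using h)).1
    omega
  -- valuation rings
  have hV' : ∀ p : ℕ, ∃ O : ValuationSubring ℂ, p.Prime → O.valuation (p : ℂ) < 1 := by
    intro p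
    by_cases hp : p.Prime
    · obtain ⟨O, hO⟩ := hV p hp
      exact ⟨O, fun _ => hO⟩
    · exact ⟨⊤, fun h => absurd h hp⟩
  choose O hO using hV'
  obtain ⟨Af, hAf0, hAfb, hAfd⟩ := hB f hm hi
  obtain ⟨β, hβ⟩ : ∃ β : ℕ → ℕ, ∀ p, β p = Set.ncard {r : ℂ | aeval r f = 0 ∧
    (O p).valuation (aeval r (derivative f)) < 1} := ⟨_, fun _ => rfl⟩
  set B₁ : Finset ℕ := (Finset.Icc 1 X).filter
    (fun p => p.Prime ∧ IntermediateField.adjoin ℚ {x ^ p, y ^ p} ≠ ⊤) with hB₁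
  set B₂ : Finset ℕ := (Finset.Icc 1 X).filter (fun p => p.Prime ∧ ¬ 4 * β p ≤ d) with hB₂
  have h1 : 2 ^ B₁.card ≤ finrank ℚ K :=
    hG K x y hMI.1 hMI.2.1 hgen B₁ (fun p hp => (Finset.mem_filter.mp hp).2)
  have hB₂p : ∀ p ∈ B₂, p.Prime := fun p hp => (Finset.mem_filter.mp hp).2.1
  have hMM1 := one_le_MM hm
  have hlM : 0 ≤ Real.log (MM f) := Real.log_nonneg hMM1
  have h2 : ∑ p ∈ B₂, Real.log p ≤ 16 * (Real.log f.natDegree + (f.natDegree : ℝ) ^ a) := by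
    have h3 := logdvd B₂ β (Af ^ 2) (pow_ne_zero 2 hAf0) hB₂p (fun p hp => by
      rw [hβ]
      exact hAfd p (O p) (hB₂p p hp) (hO p (hB₂p p hp)))
    have h4 : Real.log |((Af ^ 2 : ℤ) : ℝ)| = 2 * Real.log |(Af : ℝ)| := by
      push_cast
      rw [abs_pow, Real.log_pow]
      norm_num
    have hAfpos : (0 : ℝ) < |(Af : ℝ)| := abs_pos.mpr (by exact_mod_cast hAf0)
    have h5 : Real.log |(Af : ℝ)| ≤ 2 * d * Real.log d + 2 * d * Real.log (MM f) := by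
      have h6 := Real.log_le_log hAfpos hAfb
      rw [Real.log_mul (by rw [← hd]; positivity) (by positivity), Real.log_pow, Real.log_pow,
        ← hd] at h6
      push_cast at h6
      exact h6
    rw [h4] at h3
    have h7 : (d : ℝ) / 4 * ∑ p ∈ B₂, Real.log p ≤ ∑ p ∈ B₂, (β p : ℝ) * Real.log p := by
      rw [Finset.mul_sum]
      refine Finset.sum_le_sum fun p hp => ?_
      have h8 := (Finset.mem_filter.mp hp).2.2
      have h9 : (d : ℝ) ≤ 4 * β p := by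
        have : d ≤ 4 * β p := by omega
        exact_mod_cast this
      have h10 : 0 ≤ Real.log (p : ℝ) :=
        Real.log_natCast_nonneg p
      exact mul_le_mul_of_nonneg_right (by linarith) h10
    have h11 : (d : ℝ) / 4 * ∑ p ∈ B₂, Real.log p ≤
        (d : ℝ) / 4 * (16 * (Real.log d + (d : ℝ) ^ a)) := by
      rw [← hd] at hsmall
      have h12 : (d : ℝ) * Real.log (MM f) ≤ d * (d : ℝ) ^ a :=
        mul_le_mul_of_nonneg_left hsmall.le hdR.le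
      linarith
    have h13 := le_of_mul_le_mul_left h11 (by positivity)
    rw [← hd]
    exact h13
  obtain ⟨P, hP, hineq⟩ := hpar B₁ B₂ h1 hB₂p h2
  have hPp : ∀ p ∈ P, p.Prime := fun p hp => (hP p hp).1
  obtain ⟨q, hq⟩ : ∃ q : ℕ, q = 4 * finrank ℚ K / U := ⟨_, rfl⟩
  rw [← hq] at hineq
  obtain ⟨L, hL⟩ : ∃ L : ℕ, L = q + 2 := ⟨_, rfl⟩
  rw [← hL] at hineq
  obtain ⟨N, hNdef⟩ : ∃ N : ℕ, N = L * (4 * T + 2 * P.card + 1) := ⟨_, rfl⟩
  have hineq' := hineq N hNdef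
  have h1P : 1 ∉ P := fun h => Nat.not_prime_one (hPp 1 h)
  have hb : ∀ b ∈ insert 1 P, 1 ≤ b ∧ b ≤ X ∧
      IntermediateField.adjoin ℚ {x ^ b, y ^ b} = ⊤ := by
    intro b hb
    rw [Finset.mem_insert] at hb
    rcases hb with rfl | hb
    · exact ⟨le_rfl, hX, by simpa using hgen⟩
    · obtain ⟨hp1, hp2, hp3, hp4⟩ := hP b hb
      refine ⟨hp1.pos, hp2, ?_⟩
      by_contra hne
      exact hp3 (Finset.mem_filter.mpr ⟨Finset.mem_Icc.mpr ⟨hp1.pos, hp2⟩, hp1, hne⟩)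
  have hspan := hI K x y L T P (by omega) hT h1P
    (fun b hbm => hSp K (x ^ b) (y ^ b) (hb b hbm).2.2 U L hU (by rw [← hq]; omega)
      (hlin b (hb b hbm).1 (hb b hbm).2.1))
    (fun b hbm b' hbm' hne τ h => hAu K x hMI.1 hxtor b b' (hb b hbm).1 (hb b' hbm').1 hne τ h.1)
  rw [← hNdef] at hspan
  obtain ⟨M, hM, A, hA0, hA⟩ := hD K x y N T P hxi hyi hspan
  have hdvd : ∀ p ∈ P, (p : ℤ) ^ (T * finrank ℚ K) ∣ A := by
    intro p hp
    refine padic hFr hN hRo hF x y f hm hi hx hy T P M A p (O p) (hPp p hp) hp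
      (hO p (hPp p hp)) ?_ hA
    rw [← hβ, ← hd]
    by_contra hne
    obtain ⟨hp1, hp2, hp3, hp4⟩ := hP p hp
    exact hp4 (Finset.mem_filter.mpr ⟨Finset.mem_Icc.mpr ⟨hp1.pos, hp2⟩, hp1, hne⟩)
  have h3 := logdvd P (fun _ => T * finrank ℚ K) A hA0 hPp hdvd
  have hAn : |(A : ℝ)| = ‖Dl T P x y M‖ ^ 2 := by
    have h4 := congrArg norm hA
    rw [norm_pow, Complex.norm_intCast] at h4
    exact h4
  have hDl0 : 0 < ‖Dl T P x y M‖ := by
    rw [norm_pos_iff]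
    intro h
    rw [h] at hA
    apply hA0
    have : (A : ℂ) = 0 := by rw [hA]; simp
    exact_mod_cast this
  rw [hAn, Real.log_pow, ← Finset.mul_sum] at h3
  have hNpos : 1 ≤ N := by
    rw [hNdef]
    exact Nat.mul_pos (by omega) (by omega)
  have harch := hAr K x y N T P M hNpos hM
  set Ax := ∏ σ : K →+* ℂ, max 1 ‖σ x‖ with hAx
  set Ay := ∏ σ : K →+* ℂ, max 1 ‖σ y‖ with hAy
  have hAx1 : 0 < Ax := Finset.prod_pos fun σ _ => lt_of_lt_of_le one_pos (le_max_left _ _)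
  have hAy1 : 0 < Ay := Finset.prod_pos fun σ _ => lt_of_lt_of_le one_pos (le_max_left _ _)
  have hlAx : (d : ℝ) * Real.log Ax = D * Real.log (MM f) := by
    have h4 := congrArg Real.log (hF K x f hm hi hx).2
    rw [Real.log_pow, Real.log_pow, ← hd, ← hDD] at h4
    exact h4
  have hlAy : (d : ℝ) * Real.log Ay = D * Real.log (MM f) := by
    have h4 := congrArg Real.log (hF K y f hm hi hy).2
    rw [Real.log_pow, Real.log_pow, ← hd, ← hDD] at h4
    exact h4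
  rw [← hDD] at harch h3 hineq'
  rw [← hd] at hineq' hsmall
  have hT2 : (0 : ℝ) < (T : ℝ) ^ 2 + P.card := by
    have : (1 : ℝ) ≤ T := by exact_mod_cast hT
    have h5 : (0 : ℝ) ≤ P.card := Nat.cast_nonneg _
    nlinarith
  have hfac : Real.log ((Nat.factorial (D * (T ^ 2 + P.card)) : ℕ) : ℝ) ≤
      (D * ((T : ℝ) ^ 2 + P.card)) * Real.log (D * ((T : ℝ) ^ 2 + P.card)) := by
    have h4 : Nat.factorial (D * (T ^ 2 + P.card)) ≤
        (D * (T ^ 2 + P.card)) ^ (D * (T ^ 2 + P.card)) := Nat.factorial_le_pow _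
    have h5 : ((Nat.factorial (D * (T ^ 2 + P.card)) : ℕ) : ℝ) ≤
        (D * ((T : ℝ) ^ 2 + P.card)) ^ (D * (T ^ 2 + P.card)) := by
      exact_mod_cast h4
    have h6 := Real.log_le_log (by exact_mod_cast Nat.factorial_pos _) h5
    rw [Real.log_pow] at h6
    push_cast at h6
    exact h6
  have hNR : (0 : ℝ) < N := by exact_mod_cast hNpos
  have hlog := Real.log_le_log hDl0 harch
  rw [Real.log_mul (by positivity) (by positivity), Real.log_mul (by positivity) (by positivity),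
    Real.log_pow, Real.log_pow, Real.log_mul hAx1.ne' hAy1.ne'] at hlog
  have c1 : ((D * T ^ 3 : ℕ) : ℝ) = D * (T : ℝ) ^ 3 := by push_cast; ring
  have c2 : ((N * (T ^ 2 + ∑ p ∈ P, p) : ℕ) : ℝ) = (N : ℝ) * ((T : ℝ) ^ 2 + ∑ p ∈ P, (p : ℝ)) := by
    rw [Nat.cast_mul, Nat.cast_add, Nat.cast_pow, Nat.cast_sum]
  have c3 : ((T * D : ℕ) : ℝ) = (T : ℝ) * D := Nat.cast_mul _ _
  have c4 : ((2 : ℕ) : ℝ) = 2 := Nat.cast_ofNat
  rw [c1, c2] at hlog
  rw [c3, c4] at h3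
  -- the final computation
  have hE : (Real.log Ax + Real.log Ay) ≤ 2 * (D : ℝ) / d * (d : ℝ) ^ a := by
    have h4 : (d : ℝ) * (Real.log Ax + Real.log Ay) ≤ 2 * D * (d : ℝ) ^ a := by
      have h5 : (D : ℝ) * Real.log (MM f) ≤ D * (d : ℝ) ^ a :=
        mul_le_mul_of_nonneg_left hsmall.le hDR.le
      linarith
    rw [div_mul_eq_mul_div, le_div_iff₀ hdR]
    linarith
  have hS0 : (0 : ℝ) ≤ (N : ℝ) * ((T : ℝ) ^ 2 + ∑ p ∈ P, (p : ℝ)) := by positivity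
  have hE2 := mul_le_mul_of_nonneg_left hE hS0
  have h20 := mul_lt_mul_of_pos_left hineq' (show (0:ℝ) < 2 * D by positivity)
  have e1 : (2 * (D : ℝ)) * (((T : ℝ) ^ 2 + P.card) * Real.log (D * ((T : ℝ) ^ 2 + P.card)) +
          (T : ℝ) ^ 3 * Real.log N +
          2 * (d : ℝ) ^ a * ((N : ℝ) / d) * ((T : ℝ) ^ 2 + ∑ p ∈ P, (p : ℝ))) =
      2 * ((D * ((T : ℝ) ^ 2 + P.card)) * Real.log (D * ((T : ℝ) ^ 2 + P.card)) +
        (D * (T : ℝ) ^ 3 * Real.log N + (N : ℝ) * ((T : ℝ) ^ 2 + ∑ p ∈ P, (p : ℝ)) *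
          (2 * (D : ℝ) / d * (d : ℝ) ^ a))) := by
    ring
  rw [e1] at h20
  linarith


theorem e3 (hFr : S_FROB) (hN : S_NEWT) (hRo : S_ROWS) (hF : S_FIB) (hD : S_DET) (hAr : S_ARCH)
    (hI : S_INTERP) (hSp : S_SPN3) (hG : S_GOOD) (hAu : S_AUT) (hB : S_BAD) (hV : S_VAL)
    (hInd : S_RANK) (hPar : S_PARAM3) : S_E3 := by
  intro δ a hδ ha hab
  obtain ⟨c, hc, hind⟩ := hInd
  obtain ⟨d₀, hd₀, hpar⟩ := hPar δ a c hδ ha hab hc
  refine ⟨d₀, ?_⟩
  intro f hi hm hc0 hdeg x y hx hy hMI hDle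
  by_contra hcon
  push Not at hcon
  have hxi : IsIntegral ℤ x := ⟨f, hm, by rw [← Polynomial.aeval_def]; exact hx⟩
  have hyi : IsIntegral ℤ y := ⟨f, hm, by rw [← Polynomial.aeval_def]; exact hy⟩
  set K := IntermediateField.adjoin ℚ {x, y} with hK
  have : FiniteDimensional ℚ K := by
    apply IntermediateField.finiteDimensional_adjoin
    intro z hz
    rcases hz with rfl | hz
    · exact hxi.tower_top
    · rw [Set.mem_singleton_iff] at hz
      rw [hz]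
      exact hyi.tower_top
  have : NumberField K := { to_charZero := inferInstance, to_finiteDimensional := inferInstance }
  have hxK : x ∈ K := IntermediateField.subset_adjoin ℚ _ (Set.mem_insert _ _)
  have hyK : y ∈ K := IntermediateField.subset_adjoin ℚ _ (Set.mem_insert_of_mem _ rfl)
  obtain ⟨x', hx'⟩ : ∃ x' : K, (x' : ℂ) = x := ⟨⟨x, hxK⟩, rfl⟩
  obtain ⟨y', hy'⟩ : ∃ y' : K, (y' : ℂ) = y := ⟨⟨y, hyK⟩, rfl⟩
  have hroot : ∀ (z : ℂ) (z' : K), (z' : ℂ) = z → aeval z f = 0 → aeval z' f = 0 := by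
    intro z z' hz' hz
    have h1 : algebraMap K ℂ (aeval z' f) = 0 := by
      rw [← Polynomial.aeval_algebraMap_apply]
      rw [show algebraMap K ℂ z' = z from hz']
      exact hz
    exact (map_eq_zero _).mp h1
  have hgen := gen_aux (algebraMap K ℂ) x' y' (fun z => by
    rw [show algebraMap K ℂ x' = x from hx', show algebraMap K ℂ y' = y from hy']
    exact z.2)
  have hMI' : MI x' y' := by
    refine ⟨fun h => hMI.1 ?_, fun h => hMI.2.1 ?_, fun m n h => hMI.2.2 m n ?_⟩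
    · rw [← hx', h]; rfl
    · rw [← hy', h]; rfl
    · have h1 := congrArg (algebraMap K ℂ) h
      rw [map_mul, map_zpow₀, map_zpow₀, map_one] at h1
      rw [← hx', ← hy']
      exact h1
  have hdD : f.natDegree ≤ finrank ℚ K := by
    have h1 := (hF K x' f hm hi (hroot x x' hx' hx)).1 x hx
    have h2 : Nat.card {σ : K →+* ℂ // σ x' = x} ≠ 0 := by
      rw [Nat.card_ne_zero]
      exact ⟨⟨⟨algebraMap K ℂ, hx'⟩⟩, inferInstance⟩
    rw [← h1]
    exact Nat.le_mul_of_pos_left _ (Nat.pos_of_ne_zero h2)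
  obtain ⟨U, T, X, hU, hT, hX, h1, h2⟩ := hpar f.natDegree (finrank ℚ K) hdeg hdD hDle
  have hlM : 0 ≤ Real.log (MM f) := Real.log_nonneg (one_le_MM hm)
  refine core3 hFr hN hRo hF hD hAr hI hSp hG hAu hB hV x' y' f hm hi (hroot x x' hx' hx)
    (hroot y y' hy' hy) hgen hMI' a hcon U T X hU hT hX ?_ h2
  intro b hb hbX
  have h3 := hind f hi hm hc0 x y hx hy hMI b U hb hU (by
    refine le_trans ?_ h1
    have hbX' : (b : ℝ) ≤ X := by exact_mod_cast hbX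
    have hW : 0 ≤ (U : ℝ) ^ 3 * (Real.log (2 * (U : ℝ) ^ 2)) ^ 4 := by positivity
    calc (b : ℝ) * (U : ℝ) ^ 3 * (Real.log (2 * (U : ℝ) ^ 2)) ^ 4 * Real.log (MM f)
        = (b : ℝ) * ((U : ℝ) ^ 3 * (Real.log (2 * (U : ℝ) ^ 2)) ^ 4) * Real.log (MM f) := by ring
      _ ≤ (X : ℝ) * ((U : ℝ) ^ 3 * (Real.log (2 * (U : ℝ) ^ 2)) ^ 4) *
          (f.natDegree : ℝ) ^ a :=
          mul_le_mul (mul_le_mul_of_nonneg_right hbX' hW) hcon.le hlM (by positivity)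
      _ = _ := by ring)
  rw [← rank_aux (algebraMap K ℂ)]
  have e3 : (fun k : Fin U × Fin U => algebraMap K ℂ ((x' ^ b) ^ (k.1 : ℕ) * (y' ^ b) ^ (k.2 : ℕ))) =
      (fun k : Fin U × Fin U => x ^ (b * (k.1 : ℕ)) * y ^ (b * (k.2 : ℕ))) := by
    funext k
    rw [map_mul, map_pow, map_pow, map_pow, map_pow, show algebraMap K ℂ x' = x from hx',
      show algebraMap K ℂ y' = y from hy', pow_mul, pow_mul]
  rw [e3]
  exact h3


end Pool.Agent.D0H56.MD
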