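import Pool.Agent.D0H56.MD.Defs
import Pool.Agent.Results.MP_7ab245_nt.LinearRelations

/-! # IND -/

set_option autoImplicit false

open Module Polynomial

namespace Pool.Agent.D0H56.MD

theorem mi_pow {x y : ℂ} (h : MI x y) {m m' n n' : ℕ} (e : x ^ m * y ^ n = x ^ m' * y ^ n') :
    m = m' ∧ n = n' := by
  obtain ⟨hx, hy, h⟩ := h
  have h1 := h ((m : ℤ) - m') ((n : ℤ) - n') (by
    rw [zpow_sub₀ hx, zpow_sub₀ hy]
    simp only [zpow_natCast]
    rw [div_mul_div_comm, e, div_self]
    exact mul_ne_zero (pow_ne_zero _ hx) (pow_ne_zero _ hy))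
  omega

theorem t_IND : S_IND := by
  classical
  obtain ⟨c, hc, h⟩ := Pool.Agent.Results.MP_7ab245_nt.LinearRelations.result
  refine ⟨c / 2, by positivity, ?_⟩
  intro f hf hM x y hx hy hMI b U hb hU hbU
  have hx0 := hMI.1
  have hy0 := hMI.2.1
  set g : Fin U × Fin U → ℂ := fun k => x ^ (b * (k.1 : ℕ)) * y ^ (b * (k.2 : ℕ)) with hg
  have hinj : Function.Injective g := by
    intro k l hkl
    have h1 := mi_pow hMI hkl
    have hb0 : b ≠ 0 := by omega
    have h2 := Nat.eq_of_mul_eq_mul_left (by omega : 0 < b) h1.1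
    have h3 := Nat.eq_of_mul_eq_mul_left (by omega : 0 < b) h1.2
    exact Prod.ext (Fin.ext h2) (Fin.ext h3)
  set S : Finset ℂ := Finset.univ.image g with hS
  have hcard : S.card = U ^ 2 := by
    rw [hS, Finset.card_image_of_injective _ hinj]
    simp [sq]
  have key := h f hf S (fun _ => 2 * b * U) ?_ ?_
  · by_contra hli
    have hfin : finrank ℚ (Submodule.span ℚ (S : Set ℂ)) < S.card := by
      by_contra hcon
      push Not at hcon
      apply hli
      rw [linearIndependent_iff_card_le_finrank_span]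
      have h3 : (Set.range g) = (S : Set ℂ) := by
        rw [hS]; simp
      rw [Set.finrank, h3]
      have h4 : Fintype.card (Fin U × Fin U) = S.card := by
        rw [hcard]; simp [sq]
      rw [h4]; exact hcon
    rw [min_le_iff] at key
    rcases key with key | key
    · exact absurd hM (not_lt.mpr key)
    · have hlt : Real.exp (c * f.natDegree *
        ((S.card : ℝ) - finrank ℚ (Submodule.span ℚ (S : Set ℂ))) /
          (S.card * (∑ x ∈ S, ((2 * b * U : ℕ) : ℝ)) * (Real.log (2 * S.card)) ^ 4)) < 2 :=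
        lt_of_le_of_lt key hM
      have hlog : 0 < Real.log (2 * (U : ℝ) ^ 2) := by
        apply Real.log_pos
        have : (2 : ℝ) ≤ U := by exact_mod_cast hU
        nlinarith
      have hUpos : (0 : ℝ) < U := by
        have : (2 : ℝ) ≤ U := by exact_mod_cast hU
        linarith
      have hbpos : (0 : ℝ) < b := by exact_mod_cast hb
      have hlt2 := (Real.lt_log_iff_exp_lt (by norm_num : (0:ℝ) < 2)).mpr hlt
      have hlog2 : Real.log 2 < 1 := by
        have := Real.log_two_lt_d9; linarith
      have hone : (1 : ℝ) ≤ (S.card : ℝ) - finrank ℚ (Submodule.span ℚ (S : Set ℂ)) := by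
        have : ((finrank ℚ (Submodule.span ℚ (S : Set ℂ)) + 1 : ℕ) : ℝ) ≤ S.card := by
          exact_mod_cast hfin
        push_cast at this
        linarith
      have hden : (S.card : ℝ) * (∑ x ∈ S, ((2 * b * U : ℕ) : ℝ)) *
          (Real.log (2 * S.card)) ^ 4 = 2 * (b * (U : ℝ) ^ 5 * (Real.log (2 * (U : ℝ) ^ 2)) ^ 4) := by
        rw [Finset.sum_const, nsmul_eq_mul, hcard]
        push_cast
        ring
      rw [hden] at hlt2
      have hdpos : 0 < 2 * (b * (U : ℝ) ^ 5 * (Real.log (2 * (U : ℝ) ^ 2)) ^ 4) := by positivity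
      rw [div_lt_iff₀ hdpos] at hlt2
      have h5 : c * f.natDegree * 1 ≤ c * f.natDegree *
        ((S.card : ℝ) - finrank ℚ (Submodule.span ℚ (S : Set ℂ))) :=
        mul_le_mul_of_nonneg_left hone (by positivity)
      nlinarith
  · intro z hz
    rw [hS, Finset.mem_image] at hz
    obtain ⟨k, -, rfl⟩ := hz
    refine ⟨mul_ne_zero (pow_ne_zero _ hx0) (pow_ne_zero _ hy0),
      List.replicate (b * k.1) x ++ List.replicate (b * k.2) y, ?_, ?_, ?_⟩
    · simp only [List.length_append, List.length_replicate]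
      have h1 := k.1.2
      have h2 := k.2.2
      nlinarith
    · intro w hw
      rw [List.mem_append] at hw
      rcases hw with hw | hw
      · rw [List.eq_of_mem_replicate hw]; exact Or.inl hx
      · rw [List.eq_of_mem_replicate hw]; exact Or.inl hy
    · simp [hg]
  · intro z hz w hw hne m hm heq
    rw [hS, Finset.mem_image] at hz hw
    obtain ⟨k, -, rfl⟩ := hz
    obtain ⟨l, -, rfl⟩ := hw
    apply hne
    simp only [hg, mul_pow, ← pow_mul] at heq ⊢
    have h1 := mi_pow hMI heq
    have h2 := Nat.eq_of_mul_eq_mul_right hm h1.1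
    have h3 := Nat.eq_of_mul_eq_mul_right hm h1.2
    rw [h2, h3]

end Pool.Agent.D0H56.MD
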