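import Pool.Agent.D0H56.MD.Defs3
import Pool.Agent.D0H56.MD.Ind
import Pool.Agent.H196R3.LId

/-! # IND2 -/

set_option autoImplicit false

open Module Polynomial

namespace Pool.Agent.D0H56.MD

open Pool.Agent.H196R3.LI

theorem t_IND2 : S_IND2 := by
  classical
  obtain ⟨c, hc, hA⟩ := units_rank
  refine ⟨c / 4, by positivity, ?_⟩
  intro f hf hmon hc0 x y hx hy hMI b U hb hU hbU
  have hx0 := hMI.1
  have hy0 := hMI.2.1
  set g : Fin U × Fin U → ℂ := fun k => x ^ (b * (k.1 : ℕ)) * y ^ (b * (k.2 : ℕ)) with hg
  have hinj : Function.Injective g := by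
    intro k l hkl
    have h1 := mi_pow hMI hkl
    have h2 := Nat.eq_of_mul_eq_mul_left (by omega : 0 < b) h1.1
    have h3 := Nat.eq_of_mul_eq_mul_left (by omega : 0 < b) h1.2
    exact Prod.ext (Fin.ext h2) (Fin.ext h3)
  set S : Finset ℂ := Finset.univ.image g with hS
  have hcard : S.card = U ^ 2 := by
    rw [hS, Finset.card_image_of_injective _ hinj]
    simp [sq]
  have key := monomials (c := c) hA hf hmon hc0 S (fun _ => 2 * b * U) ?_ ?_
  · by_contra hli
    have hfin : finrank ℚ (Submodule.span ℚ (S : Set ℂ)) < S.card := by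
      by_contra hcon
      push Not at hcon
      apply hli
      rw [linearIndependent_iff_card_le_finrank_span]
      have h3 : (Set.range g) = (S : Set ℂ) := by
        rw [hS]; simp
      rw [Set.finrank, h3]
      have h4 : Fintype.card (Fin U × Fin U) = S.card := by
        rw [hcard]; simp [sq]
      rw [h4]; exact hcon
    have hlog : 0 < Real.log (2 * (U : ℝ) ^ 2) := by
      apply Real.log_pos
      have : (2 : ℝ) ≤ U := by exact_mod_cast hU
      nlinarith
    have hUpos : (0 : ℝ) < U := by
      have : (2 : ℝ) ≤ U := by exact_mod_cast hU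
      linarith
    have hbpos : (0 : ℝ) < b := by exact_mod_cast hb
    have hone : (1 : ℝ) ≤ (S.card : ℝ) - finrank ℚ (Submodule.span ℚ (S : Set ℂ)) := by
      have : ((finrank ℚ (Submodule.span ℚ (S : Set ℂ)) + 1 : ℕ) : ℝ) ≤ S.card := by
        exact_mod_cast hfin
      push_cast at this
      linarith
    have hlogc : Real.log (2 * (S.card : ℝ)) = Real.log (2 * (U : ℝ) ^ 2) := by
      rw [hcard]; push_cast; rfl
    rw [hlogc, Finset.sum_const, nsmul_eq_mul, hcard, div_le_iff₀ (by positivity)] at key
    rw [hcard] at hone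
    push_cast at key hone
    have hM : MM f = Pool.Agent.H388SL.MM f := rfl
    rw [← hM] at key
    have h5 : c * f.natDegree * 1 ≤ c * f.natDegree *
      ((U : ℝ) ^ 2 - finrank ℚ (Submodule.span ℚ (S : Set ℂ))) :=
      mul_le_mul_of_nonneg_left hone (by positivity)
    nlinarith
  · intro z hz
    rw [hS, Finset.mem_image] at hz
    obtain ⟨k, -, rfl⟩ := hz
    refine ⟨List.replicate (b * k.1) x ++ List.replicate (b * k.2) y, ?_, ?_, ?_⟩
    · simp only [List.length_append, List.length_replicate]
      have h1 := k.1.2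
      have h2 := k.2.2
      nlinarith
    · intro w hw
      rw [List.mem_append] at hw
      rcases hw with hw | hw
      · rw [List.eq_of_mem_replicate hw]; exact Or.inl hx
      · rw [List.eq_of_mem_replicate hw]; exact Or.inl hy
    · simp [hg]
  · intro z hz w hw hne m hm heq
    rw [hS, Finset.mem_image] at hz hw
    obtain ⟨k, -, rfl⟩ := hz
    obtain ⟨l, -, rfl⟩ := hw
    apply hne
    simp only [hg, mul_pow, ← pow_mul] at heq ⊢
    have h1 := mi_pow hMI heq
    have h2 := Nat.eq_of_mul_eq_mul_right hm h1.1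
    have h3 := Nat.eq_of_mul_eq_mul_right hm h1.2
    rw [h2, h3]

end Pool.Agent.D0H56.MD
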