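import Pool.Agent.D0H56.MD.Defs4
import Pool.Agent.D0H56.MD.Ind2
import Pool.Agent.Y642.ND.Gro
import Pool.Agent.Y220.ND.Ols

/-! # RANK and SPN3 -/

set_option autoImplicit false

open Module Polynomial

namespace Pool.Agent.D0H56.MD

open Pool.Agent.H196R3.LI

theorem t_RANK : S_RANK := by
  classical
  obtain ⟨c, hc, hA⟩ := units_rank
  refine ⟨c / 8, by positivity, ?_⟩
  intro f hf hmon hc0 x y hx hy hMI b U hb hU hbU
  have hx0 := hMI.1
  have hy0 := hMI.2.1
  set g : Fin U × Fin U → ℂ := fun k => x ^ (b * (k.1 : ℕ)) * y ^ (b * (k.2 : ℕ)) with hg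
  have hinj : Function.Injective g := by
    intro k l hkl
    have h1 := mi_pow hMI hkl
    have h2 := Nat.eq_of_mul_eq_mul_left (by omega : 0 < b) h1.1
    have h3 := Nat.eq_of_mul_eq_mul_left (by omega : 0 < b) h1.2
    exact Prod.ext (Fin.ext h2) (Fin.ext h3)
  set S : Finset ℂ := Finset.univ.image g with hS
  have hcard : S.card = U ^ 2 := by
    rw [hS, Finset.card_image_of_injective _ hinj]
    simp [sq]
  have hrange : (Set.range g) = (S : Set ℂ) := by
    rw [hS]; simp
  rw [hrange]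
  have key := monomials (c := c) hA hf hmon hc0 S (fun _ => 2 * b * U) ?_ ?_
  · have hlog : 0 < Real.log (2 * (U : ℝ) ^ 2) := by
      apply Real.log_pos
      have : (2 : ℝ) ≤ U := by exact_mod_cast hU
      nlinarith
    have hUpos : (0 : ℝ) < U := by
      have : (2 : ℝ) ≤ U := by exact_mod_cast hU
      linarith
    have hbpos : (0 : ℝ) < b := by exact_mod_cast hb
    have hlogc : Real.log (2 * (S.card : ℝ)) = Real.log (2 * (U : ℝ) ^ 2) := by
      rw [hcard]; push_cast; rfl
    rw [hlogc, Finset.sum_const, nsmul_eq_mul, hcard, div_le_iff₀ (by positivity)] at key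
    push_cast at key
    have hM : MM f = Pool.Agent.H388SL.MM f := rfl
    rw [← hM] at key
    obtain ⟨r, hr⟩ : ∃ r : ℕ, r = finrank ℚ (Submodule.span ℚ (S : Set ℂ)) := ⟨_, rfl⟩
    rw [← hr] at key ⊢
    have hdeg : (0 : ℝ) < f.natDegree := by
      have : f.natDegree ≠ 0 := by
        intro h
        exact hf.not_isUnit ((hmon.natDegree_eq_zero.mp h) ▸ isUnit_one)
      exact_mod_cast Nat.pos_of_ne_zero this
    have h5 : c * f.natDegree * ((U : ℝ) ^ 2 - r) ≤ c * f.natDegree * ((U : ℝ) ^ 2 / 2) := by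
      have h6 := mul_le_mul_of_nonneg_left hbU (show (0:ℝ) ≤ 4 * (U : ℝ) ^ 2 by positivity)
      nlinarith
    have h7 := le_of_mul_le_mul_left h5 (by positivity)
    have h8 : (U : ℝ) ^ 2 ≤ 2 * r := by linarith
    exact_mod_cast h8
  · intro z hz
    rw [hS, Finset.mem_image] at hz
    obtain ⟨k, -, rfl⟩ := hz
    refine ⟨List.replicate (b * k.1) x ++ List.replicate (b * k.2) y, ?_, ?_, ?_⟩
    · simp only [List.length_append, List.length_replicate]
      have h1 := k.1.2
      have h2 := k.2.2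
      nlinarith
    · intro w hw
      rw [List.mem_append] at hw
      rcases hw with hw | hw
      · rw [List.eq_of_mem_replicate hw]; exact Or.inl hx
      · rw [List.eq_of_mem_replicate hw]; exact Or.inl hy
    · simp [hg]
  · intro z hz w hw hne m hm heq
    rw [hS, Finset.mem_image] at hz hw
    obtain ⟨k, -, rfl⟩ := hz
    obtain ⟨l, -, rfl⟩ := hw
    apply hne
    simp only [hg, mul_pow, ← pow_mul] at heq ⊢
    have h1 := mi_pow hMI heq
    have h2 := Nat.eq_of_mul_eq_mul_right hm h1.1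
    have h3 := Nat.eq_of_mul_eq_mul_right hm h1.2
    rw [h2, h3]

theorem t_SPN3 : S_SPN3 := by
  intro K _ _ x y hxy U L hU hL hr
  have h1 : Algebra.adjoin ℚ (Set.range ![x, y]) = ⊤ := by
    have h2 := congrArg IntermediateField.toSubalgebra hxy
    rw [IntermediateField.adjoin_toSubalgebra_of_isAlgebraic
      (fun z _ => Algebra.IsAlgebraic.isAlgebraic z), IntermediateField.top_toSubalgebra] at h2
    rw [← h2]
    congr 1
    simp [Matrix.range_cons, Matrix.range_empty, Set.pair_comm]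
  obtain ⟨s, hs⟩ : ∃ s, U = s + 1 := ⟨U - 1, by omega⟩
  obtain ⟨b, hb⟩ : ∃ b, b = finrank ℚ (Pool.Agent.Y642.ND.W ![x, y] s) := ⟨_, rfl⟩
  have h2 : U ^ 2 ≤ 2 * b := by
    refine hr.trans (Nat.mul_le_mul_left _ ?_)
    rw [hb]
    apply Submodule.finrank_mono
    unfold Pool.Agent.Y642.ND.W
    refine Submodule.span_mono ?_
    rintro z ⟨k, rfl⟩
    refine ⟨![(k.1 : ℕ), (k.2 : ℕ)], ?_, by simp [Fin.prod_univ_two]⟩
    intro j
    have h3 := k.1.2
    have h4 := k.2.2
    fin_cases j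
    · show (k.1 : ℕ) ≤ s
      omega
    · show (k.2 : ℕ) ≤ s
      omega
  have hD : 0 < finrank ℚ K := finrank_pos
  have hb0 : 0 < b := by
    rw [Nat.pos_iff_ne_zero]
    rintro rfl
    have : 0 < U ^ 2 := pow_pos (by omega) _
    omega
  have hbD : b ≤ finrank ℚ K := by rw [hb]; exact Submodule.finrank_le _
  have hk1 : 1 ≤ 2 * finrank ℚ K / b := by
    rw [Nat.one_le_div_iff hb0]
    omega
  have hk2 : 2 * finrank ℚ K ≤ (2 * finrank ℚ K / b + 1) * b := by
    have := Nat.lt_div_mul_add (a := 2 * finrank ℚ K) hb0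
    nlinarith
  have h3 := Pool.Agent.Y642.ND.top_of_growth Pool.Agent.Y220.ND.t h1 (s := s) (by omega) hk1
    (by rw [← hb]; exact hk2)
  have h4 : 2 * finrank ℚ K / b * s < L := by
    refine lt_of_le_of_lt ?_ hL
    rw [Nat.le_div_iff_mul_le (by omega)]
    have h5 : 2 * finrank ℚ K / b * b ≤ 2 * finrank ℚ K := Nat.div_mul_le_self _ _
    have h6 : s * U ≤ 2 * b := by nlinarith
    nlinarith
  rw [eq_top_iff, ← h3]
  unfold Pool.Agent.Y642.ND.W
  refine Submodule.span_mono ?_
  rintro z ⟨k, hk, rfl⟩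
  exact ⟨k 0, k 1, lt_of_le_of_lt (hk 0) h4, lt_of_le_of_lt (hk 1) h4, by
    simp [Fin.prod_univ_two]⟩

end Pool.Agent.D0H56.MD
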