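import Mathlib

/-!
# Project MD: a two-variable Dobrowolski theorem. Statements of the modules

Engine (`S_E`): an irreducible integer polynomial of large degree `d` with two multiplicatively
independent roots `x, y` with `[ℚ(x, y) : ℚ] ≤ d ^ (1 + δ)`, `δ < 1/5`, has Mahler measure at least
`2`. Each module is a `Prop`; every docstring contains the proof.
-/

set_option autoImplicit false

open Module Polynomial

namespace Pool.Agent.D0H56.MD

/-- multiplicatively independent -/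
def MI {F : Type} [Field F] (x y : F) : Prop :=
  x ≠ 0 ∧ y ≠ 0 ∧ ∀ a b : ℤ, x ^ a * y ^ b = 1 → a = 0 ∧ b = 0

/-- rows of the interpolation matrix: `T²` divided derivatives at the point `(x, y)` and the values
at the points `(x ^ p, y ^ p)`, `p ∈ P` -/
abbrev J (T : ℕ) (P : Finset ℕ) : Type := (Fin T × Fin T) ⊕ P

/-- the entry in the column of the monomial `X ^ m.1 Y ^ m.2` -/
def u {R : Type} [CommRing R] (T : ℕ) (P : Finset ℕ) (x y : R) : J T P → ℕ × ℕ → R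
  | Sum.inl ij, m => ((m.1.choose ij.1 : ℕ) : R) * x ^ (m.1 - ij.1) *
      (((m.2.choose ij.2 : ℕ) : R) * y ^ (m.2 - ij.2))
  | Sum.inr p, m => (x ^ (p : ℕ)) ^ m.1 * (y ^ (p : ℕ)) ^ m.2

open Classical in
/-- the interpolation determinant: rows `(σ, ρ)`, columns are the monomials `M s` -/
noncomputable def Dl {K : Type} [Field K] [NumberField K] (T : ℕ) (P : Finset ℕ) (x y : K)
    (M : (K →+* ℂ) × J T P → ℕ × ℕ) : ℂ :=
  Matrix.det (Matrix.of fun r s : (K →+* ℂ) × J T P => r.1 (u T P x y r.2 (M s)))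

/-- Mahler measure -/
noncomputable def MM (f : ℤ[X]) : ℝ := (f.map (Int.castRingHom ℂ)).mahlerMeasure

/-- **INTERP.** `K` a number field, `x, y ∈ K`, `V_n` = polynomials over `ℚ` of degree `< n` in each
of two variables. If `ev_b : V_L → K, g ↦ g(x^b, y^b)` is surjective for `b ∈ {1} ∪ P` and no ring
endomorphism `τ` of `K` maps `x^b, y^b` to `x^b', y^b'` (`b ≠ b'` in `{1} ∪ P`), then the vectors of
the monomials of `V_N`, `N = L (4T + 2|P| + 1)`, span `K^J` over `ℚ`.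

Proof. (1) Separators: for `b ≠ b'` there is `s ∈ V_{2L-1}` with `s(P_b) = 0 ≠ s(P_b')`,
`P_b = (x^b, y^b)`: otherwise `g(P_b) ↦ g(P_b')`, `g ∈ V_L`, is well defined on `K`, additive and
multiplicative (for `g, h ∈ V_L` choose `k ∈ V_L` with `k(P_b) = g(P_b) h(P_b)`; `gh - k ∈ V_{2L-1}`
vanishes at `P_b`, so at `P_b'`), a forbidden `τ` (the polynomials `X, Y` are in `V_L`).
(2) The differentials at `P_1` of the `g ∈ V_{2L-1}` vanishing at `P_1` span `K²` over `K`: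
otherwise `a g_X(P_1) + b g_Y(P_1) = 0` for all these `g`, `(a,b) ≠ 0`, and
`g(P_1) ↦ a g_X(P_1) + b g_Y(P_1)`, `g ∈ V_L`, is a well defined `ℚ`-derivation of `K` (as in (1)),
so it is `0`, but its values at `x, y` are `a, b`. Take `g₀, g₁` with independent differentials.
(3) With `s` the product of separators vanishing at all `P_p`, `p ∈ P` and not at `P_1`, the
products `g₀^i g₁^j s v`, `i + j = k`, `v ∈ V_L`, vanish at all `P_p`, vanish to order `k` at `P_1`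
and their leading forms there are `(dg₀)^i (dg₁)^j s(P_1) v(P_1)`, `v(P_1) ∈ K` arbitrary: their sums
are all forms of degree `k`. Descending from `k = 2T - 2` (jets of order `≥ 2T-1` have no
component with `i, j < T`) one gets all jets. (4) For `p ∈ P`, the products
`s_{1,p}^{2T} ∏_{p' ≠ p} s_{p',p} v` vanish at `P_1` to order `2T`, at all `P_p'`, and have arbitrary
values at `P_p`. All degrees are `< N`. -/
def S_INTERP : Prop := ∀ (K : Type) [Field K] [NumberField K] (x y : K) (L T : ℕ) (P : Finset ℕ),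
  2 ≤ L → 1 ≤ T → 1 ∉ P →
  (∀ b ∈ insert 1 P, Submodule.span ℚ {z : K | ∃ m n : ℕ, m < L ∧ n < L ∧
    z = (x ^ b) ^ m * (y ^ b) ^ n} = ⊤) →
  (∀ b ∈ insert 1 P, ∀ b' ∈ insert 1 P, b ≠ b' → ∀ τ : K →+* K,
    ¬ (τ (x ^ b) = x ^ b' ∧ τ (y ^ b) = y ^ b')) →
  Submodule.span ℚ {w : J T P → K | ∃ m n : ℕ, m < L * (4 * T + 2 * P.card + 1) ∧
    n < L * (4 * T + 2 * P.card + 1) ∧ w = fun ρ => u T P x y ρ (m, n)} = ⊤

/-- **DET.** If the vectors of the monomials of degrees `< N` span `K^J` over `ℚ` and `x, y` are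
algebraic integers, then a subset of them is a basis, indexed by `(K →+* ℂ) × J` (the cardinalities
agree), and the square of the determinant is a nonzero integer.

Proof. `Δ² = det (Δᵀ Δ)` and `(Δᵀ Δ)_{m m'} = ∑_ρ ∑_σ σ(u_{ρ m} u_{ρ m'}) = ∑_ρ Tr_{K/ℚ}(u_{ρ m} u_{ρ m'})`
is an integer. If the Gram determinant is `0` there is `c ≠ 0` rational with
`w = ∑ c_m u_m ∈ K^J ∖ 0` and `∑_ρ Tr(w_ρ u_{ρ m'}) = 0` for all `m'`, so `∑_ρ Tr(w_ρ z_ρ) = 0` for
all `z ∈ K^J`; take `z` supported at one `ρ` with `w_ρ ≠ 0` and `z_ρ = w_ρ⁻¹`: `Tr 1 = 0`, a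
contradiction. -/
def S_DET : Prop := ∀ (K : Type) [Field K] [NumberField K] (x y : K) (N T : ℕ) (P : Finset ℕ),
  IsIntegral ℤ x → IsIntegral ℤ y →
  Submodule.span ℚ {w : J T P → K | ∃ m n : ℕ, m < N ∧ n < N ∧
    w = fun ρ => u T P x y ρ (m, n)} = ⊤ →
  ∃ M : (K →+* ℂ) × J T P → ℕ × ℕ, (∀ r, (M r).1 < N ∧ (M r).2 < N) ∧
    ∃ A : ℤ, A ≠ 0 ∧ (A : ℂ) = Dl T P x y M ^ 2

/-- **FROB.** For a valuation ring `O` of `ℂ` with `p` in the maximal ideal, `x, y` algebraic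
integers generating `K`: for every `σ` there is `σ'` with `σ' x ≡ (σ x)^p` and `σ' y ≡ (σ y)^p`
modulo the maximal ideal.

Proof. (a) With `E` the normal closure and `Frobenius` of a prime above `p`; or (b): the polynomial
`H(C, Z) = ∏_{σ'} (Z - σ' x - C σ' y) ∈ ℂ[C, Z]` has integer coefficients; reduce it modulo the
maximal ideal, apply the Frobenius of the residue field to the coefficients of
`H(C, σ x + C σ y) = 0` (the coefficients of `H` are in `𝔽_p`, so they are fixed):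
`∏_{σ'} ((σ x)^p + C (σ y)^p - σ' x - C σ' y) = 0` in `κ[C]`, so one factor is `0`. -/
def S_FROB : Prop := ∀ (K : Type) [Field K] [NumberField K] (x y : K) (p : ℕ)
  (O : ValuationSubring ℂ), IsIntegral ℤ x → IsIntegral ℤ y → p.Prime → O.valuation (p : ℂ) < 1 →
  ∀ σ : K →+* ℂ, ∃ σ' : K →+* ℂ, O.valuation ((σ x) ^ p - σ' x) < 1 ∧
    O.valuation ((σ y) ^ p - σ' y) < 1

/-- **NEWT.** If `f(r) = f(z) = 0`, `f` monic with integer coefficients, `z ≡ r^p` modulo the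
maximal ideal of `O` and `f'(r)` is a unit of `O`, then `r^p - z ∈ p O`.

Proof. `f'(z) ≡ f'(r^p) ≡ f'(r)^p`, so `f'(z)` is a unit. `f(r^p) ∈ p O` as
`f(X^p) ≡ f(X)^p mod p` in `ℤ[X]`; with `w = r^p`:
`f(w) = (w - z) (f'(z) + (w - z) h)`, `h ∈ O`, and the second factor is a unit. -/
def S_NEWT : Prop := ∀ (f : ℤ[X]) (p : ℕ) (O : ValuationSubring ℂ) (r z : ℂ), f.Monic →
  p.Prime → O.valuation (p : ℂ) < 1 → aeval r f = 0 → aeval z f = 0 →
  O.valuation (r ^ p - z) < 1 → ¬ O.valuation (aeval r (derivative f)) < 1 →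
  ∃ h ∈ O, r ^ p - z = p * h

/-- **ROWS.** For `p ∈ P`: if for every `σ ∈ G` there is `σ'` with `(σ x)^p - σ' x ∈ p O` and
`(σ y)^p - σ' y ∈ p O`, then `Dl ∈ p^(T |G|) O`; so if `Dl²` is an integer `A` then
`p^(2 T |G|) ∣ A`.

Proof. Subtract from the row `(σ, p)`, `σ ∈ G`, the combination `∑_{i,j < T} a^i b^j (σ', (i,j))` of
other rows, `a = (σ x)^p - σ' x`, `b = (σ y)^p - σ' y` (the determinant does not change;
for instance multiply by the block triangular matrix of determinant `1`). By the binomial theorem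
`(σx)^{p m} (σy)^{p n} = (σ'x + a)^m (σ'y + b)^n` the new entries are sums of terms with `a^i` or
`b^j`, `i ≥ T` or `j ≥ T`: they are in `p^T O`. (Algebraic integers are in `O`.) -/
def S_ROWS : Prop := ∀ (K : Type) [Field K] [NumberField K] (x y : K) (T : ℕ) (P : Finset ℕ)
  (M : (K →+* ℂ) × J T P → ℕ × ℕ) (A : ℤ) (p : ℕ) (O : ValuationSubring ℂ)
  (G : Finset (K →+* ℂ)), IsIntegral ℤ x → IsIntegral ℤ y → p.Prime → p ∈ P →
  O.valuation (p : ℂ) < 1 →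
  (∀ σ ∈ G, ∃ σ' : K →+* ℂ, (∃ h ∈ O, (σ x) ^ p - σ' x = p * h) ∧
    ∃ h ∈ O, (σ y) ^ p - σ' y = p * h) →
  (A : ℂ) = Dl T P x y M ^ 2 → (p : ℤ) ^ (2 * T * G.card) ∣ A

/-- **CORANK.** If `V` is a subspace of `κ^n` (`κ` a field of characteristic `p`) of dimension `k`
annihilated by the integer matrix `A`, then `p^k ∣ det A`.

Proof. The rank of `A` over `κ` is its rank over `𝔽_p`, so the kernel over `𝔽_p` has dimension
`≥ k`. Take an integer matrix `B` with `det B` prime to `p` whose first `k` columns reduce to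
independent elements of the kernel; then `p^k ∣ det (A B)`. -/
def S_CORANK : Prop := ∀ (p : ℕ) (κ : Type) [Field κ] [CharP κ p] (n : ℕ)
  (A : Matrix (Fin n) (Fin n) ℤ), p.Prime → ∀ V : Submodule κ (Fin n → κ),
  (∀ v ∈ V, (A.map (Int.cast : ℤ → κ)).mulVec v = 0) → (p : ℤ) ^ (finrank κ V) ∣ A.det

/-- **BAD.** There is a nonzero integer `A` (the discriminant of `f`, up to sign) of absolute value
at most `d^(2d) M(f)^(2d)` such that for all primes `p` and all valuation rings `O` of `ℂ` with `p`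
in the maximal ideal, `p^β ∣ A²`, where `β` is the number of roots `r` of `f` with `f'(r)` in the
maximal ideal.

Proof. `A = det` of the multiplication by `f'` on `ℤ[X]/(f)`; `A = ∏ f'(r) = ± ∏_{r ≠ s} (r - s)`
is `±` the square of a Vandermonde determinant, of absolute value at most `d! ∏ max(1,|r|)^(d-1)`.
Over the residue field `κ` of `O` let `f = ∏_c (X - c)^{e_c}`; the kernel of the multiplication by
`f'` on `κ[X]/(f)` contains the multiples of `∏_c (X - c)`, since `∏_c (X - c)^{e_c - 1} ∣ f'`; its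
dimension is at least `∑_c (e_c - 1)`, and `β = ∑_{e_c ≥ 2} e_c ≤ 2 ∑ (e_c - 1)`. Use `S_CORANK`. -/
def S_BAD : Prop := ∀ f : ℤ[X], f.Monic → Irreducible f → ∃ A : ℤ, A ≠ 0 ∧
  |(A : ℝ)| ≤ (f.natDegree : ℝ) ^ (2 * f.natDegree) * MM f ^ (2 * f.natDegree) ∧
  ∀ (p : ℕ) (O : ValuationSubring ℂ), p.Prime → O.valuation (p : ℂ) < 1 →
    (p : ℤ) ^ Set.ncard {r : ℂ | aeval r f = 0 ∧ O.valuation (aeval r (derivative f)) < 1} ∣ A ^ 2

/-- **VAL.** Existence of the valuation rings (`Ideal.image_subset_nonunits_valuationSubring`). -/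
def S_VAL : Prop := ∀ p : ℕ, p.Prime → ∃ O : ValuationSubring ℂ, O.valuation (p : ℂ) < 1

/-- **ARCH.** Expand the determinant: `|Dl| ≤ (number of rows)! ∏_rows (maximum of the row)`, and
`C(m,i) ≤ m^i`. -/
def S_ARCH : Prop := ∀ (K : Type) [Field K] [NumberField K] (x y : K) (N T : ℕ) (P : Finset ℕ)
  (M : (K →+* ℂ) × J T P → ℕ × ℕ), 1 ≤ N → (∀ r, (M r).1 < N ∧ (M r).2 < N) →
  ‖Dl T P x y M‖ ≤ (Nat.factorial (finrank ℚ K * (T ^ 2 + P.card)) : ℝ) *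
    (N : ℝ) ^ (finrank ℚ K * T ^ 3) *
    ((∏ σ : K →+* ℂ, max 1 ‖σ x‖) * ∏ σ : K →+* ℂ, max 1 ‖σ y‖) ^ (N * (T ^ 2 + ∑ p ∈ P, p))

/-- **FIB.** Every root `r` of the minimal polynomial `f` of `x ∈ K` is `σ x` for exactly
`[K : ℚ(x)] = [K : ℚ] / deg f` embeddings `σ`; hence the product formula. -/
def S_FIB : Prop := ∀ (K : Type) [Field K] [NumberField K] (x : K) (f : ℤ[X]), f.Monic →
  Irreducible f → aeval x f = 0 →
  (∀ r : ℂ, aeval r f = 0 → Nat.card {σ : K →+* ℂ // σ x = r} * f.natDegree = finrank ℚ K) ∧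
  (∏ σ : K →+* ℂ, max 1 ‖σ x‖) ^ f.natDegree = MM f ^ finrank ℚ K

/-- **GOOD.** If `K = ℚ(x, y)` and `B` is a set of primes `p` with `ℚ(x^p, y^p) ≠ K`, then
`2^|B| ≤ [K : ℚ]`.

Proof. Let `K_N = ℚ(x^N, y^N)`. If `K_p ≠ K` and `p` does not divide `N` then `K_{Np} ≠ K_N`: let
`σ ≠ id` be an embedding of `K` over `K_p` in an algebraic closure (or in `ℂ`, two embeddings which
agree on `K_p` and differ). `σ x = ζ x`, `σ y = η y`, `ζ^p = η^p = 1`. `σ` is trivial on `K_{Np}`;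
if this is `K_N` then `ζ^N = η^N = 1`, so `ζ = η = 1`, a contradiction. Induct on `|B|`. -/
def S_GOOD : Prop := ∀ (K : Type) [Field K] [NumberField K] (x y : K), x ≠ 0 → y ≠ 0 →
  IntermediateField.adjoin ℚ {x, y} = ⊤ → ∀ B : Finset ℕ,
  (∀ p ∈ B, p.Prime ∧ IntermediateField.adjoin ℚ {x ^ p, y ^ p} ≠ ⊤) → 2 ^ B.card ≤ finrank ℚ K

/-- **AUT.** If `τ (x^b) = x^b'` then `τ^k(x)^(b^k) = x^(b'^k)`; `τ` has finite order in the finite
group `Aut(K)`. -/
def S_AUT : Prop := ∀ (K : Type) [Field K] [NumberField K] (x : K), x ≠ 0 →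
  (∀ n : ℕ, 0 < n → x ^ n ≠ 1) → ∀ b b' : ℕ, 0 < b → 0 < b' → b ≠ b' →
  ∀ τ : K →+* K, τ (x ^ b) ≠ x ^ b'

/-- **IND.** Linear independence of the monomials `x^(bi) y^(bj)`, `i, j < U`.

Proof. `Pool.Agent.Results.MP_7ab245_nt.LinearRelations.result` with `S` the set of these monomials
and `D = 2 b U` for all of them. (Multiplicative independence: no quotient is a root of unity.) -/
def S_IND : Prop := ∃ c : ℝ, 0 < c ∧ ∀ f : ℤ[X], Irreducible f → MM f < 2 → ∀ x y : ℂ,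
  aeval x f = 0 → aeval y f = 0 → MI x y → ∀ b U : ℕ, 1 ≤ b → 2 ≤ U →
  (b : ℝ) * (U : ℝ) ^ 5 * (Real.log (2 * (U : ℝ) ^ 2)) ^ 4 ≤ c * f.natDegree →
  LinearIndependent ℚ (fun k : Fin U × Fin U => x ^ (b * (k.1 : ℕ)) * y ^ (b * (k.2 : ℕ)))

/-- **SPN.** `Pool.Agent.Y642.ND.span Pool.Agent.Y220.ND.t` for `n = 2`. -/
def S_SPN : Prop := ∀ (K : Type) [Field K] [NumberField K] (x y : K),
  IntermediateField.adjoin ℚ {x, y} = ⊤ → ∀ U L : ℕ, 1 ≤ U → 2 * finrank ℚ K / U < L →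
  LinearIndependent ℚ (fun k : Fin U × Fin U => x ^ (k.1 : ℕ) * y ^ (k.2 : ℕ)) →
  Submodule.span ℚ {z : K | ∃ m n : ℕ, m < L ∧ n < L ∧ z = x ^ m * y ^ n} = ⊤

/-- **PARAM.** Choice of the parameters: `ℓ = log D`, `T = ⌈ℓ⌉`, `X = ⌊ℓ^4⌋`, `U = ⌊d^γ⌋` with
`max(δ, 0) < γ < 1/5`. Every `p ∈ P` has `log p ≥ 8`, so `|P| ≤ θ(P) / 8`, and
`θ(P) ≥ θ(X) - θ(3000) - log₂(D) log X ≥ c' X` (Chebyshev). -/
def S_PARAM : Prop := ∀ δ c : ℝ, δ < 1 / 5 → 0 < c → ∃ d₀ : ℕ, 2 ≤ d₀ ∧ ∀ d D : ℕ, d₀ ≤ d →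
  d ≤ D → (D : ℝ) ≤ (d : ℝ) ^ (1 + δ) → ∃ U T X : ℕ, 2 ≤ U ∧ 1 ≤ T ∧ 1 ≤ X ∧
  (X : ℝ) * (U : ℝ) ^ 5 * (Real.log (2 * (U : ℝ) ^ 2)) ^ 4 ≤ c * d ∧
  ∀ P : Finset ℕ, (∀ p ∈ P, p.Prime ∧ 3000 < p ∧ p ≤ X) →
    2 ^ ((Finset.filter (fun p => p.Prime ∧ 3000 < p) (Finset.Icc 1 X)) \ P).card ≤ D →
    ∀ N : ℕ, N = (2 * D / U + 2) * (4 * T + 2 * P.card + 1) →
    ((T : ℝ) ^ 2 + P.card) * Real.log (D * ((T : ℝ) ^ 2 + P.card)) + (T : ℝ) ^ 3 * Real.log N +
        2 * Real.log 2 * ((N : ℝ) / d) * ((T : ℝ) ^ 2 + ∑ p ∈ P, (p : ℝ)) <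
      T * ((∑ p ∈ P, Real.log p) - 16 * Real.log D)

/-- **E.** The engine. -/
def S_E : Prop := ∀ δ : ℝ, δ < 1 / 5 → ∃ d₀ : ℕ, ∀ f : ℤ[X], Irreducible f → d₀ ≤ f.natDegree →
  ∀ x y : ℂ, aeval x f = 0 → aeval y f = 0 → MI x y →
  (finrank ℚ (IntermediateField.adjoin ℚ {x, y}) : ℝ) ≤ (f.natDegree : ℝ) ^ (1 + δ) →
  2 ≤ MM f

end Pool.Agent.D0H56.MD
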