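import Pool.Agent.D0H56.MD.App
import Pool.Agent.D0H56.MD.EngD
import Pool.Agent.D0H56.MD.Rank
import Pool.Agent.D0H65.MD.Meas
import Pool.Agent.D0H65.MD.Deg
import Pool.Agent.D0H65.MD.Ext
import Pool.Agent.D0H65.MD.CompA
import Pool.Agent.D0H65.MD.Two
import Pool.Agent.D0H65.MD.Divi
import Pool.Agent.D0H69.MD.Interp
import Pool.Agent.D0H98.MD.Det
import Pool.Agent.D0H98.MD.Rows
import Pool.Agent.D0H98.MD.Arch
import Pool.Agent.D0H15.MD.Frob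
import Pool.Agent.D0H15.MD.Newt
import Pool.Agent.D0H15.MD.Val
import Pool.Agent.D0H87.MD.Bad
import Pool.Agent.D0H87.MD.Corank
import Pool.Agent.D0H70.MD.Fib
import Pool.Agent.D0H70.MD.Aut
import Pool.Agent.D0H37.MD.Good
import Pool.Agent.D0H98.MD.Param3
import Pool.Agent.D0H65.MD.Elt3

/-! # The application, from `S_PARAM3` and `S_ELT3` -/

set_option autoImplicit false

open Module Polynomial NumberField Pool.Agent.H225R3.Marg

namespace Pool.Agent.D0H56.MD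

universe u

theorem t_E3 (hPar : S_PARAM3) : S_E3 :=
  e3 Pool.Agent.D0H15.MD.t_FROB Pool.Agent.D0H15.MD.t_NEWT Pool.Agent.D0H98.MD.rows
    Pool.Agent.D0H70.MD.t_FIB Pool.Agent.D0H98.MD.det Pool.Agent.D0H98.MD.arch
    Pool.Agent.D0H69.MD.t_INTERP t_SPN3 Pool.Agent.D0H37.MD.t_GOOD Pool.Agent.D0H70.MD.t_AUT
    (Pool.Agent.D0H87.MD.t_BAD Pool.Agent.D0H87.MD.t_CORANK) Pool.Agent.D0H15.MD.t_VAL
    t_RANK hPar

theorem t_ELT3 : S_ELT3 :=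
  Pool.Agent.D0H65.MD.t_ELT3 (t_E3 Pool.Agent.D0H98.MD.t_PARAM3) Pool.Agent.D0H65.MD.t_MEAS2
    Pool.Agent.D0H65.MD.t_DEG Pool.Agent.D0H65.MD.t_SMALL

theorem cdeg_self {k : Type} [Field k] [NumberField k] (σ : k →+* ℂ) :
    cdeg σ σ = finrank ℚ k := by
  unfold cdeg
  rw [Set.union_self]
  have h2 : Set.range σ = (σ.toRatAlgHom.fieldRange : Set ℂ) := by
    rw [AlgHom.coe_fieldRange]
    rfl
  rw [h2, IntermediateField.adjoin_self]
  exact (AlgEquiv.ofInjectiveField σ.toRatAlgHom).toLinearEquiv.finrank_eq.symm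

/-- conclusion for one element -/
def Big {G : Type u} [Group G] {M : ℕ} {ρ : G →* Matrix (Fin M) (Fin M) ℂ}
    {Γ : Subgroup G} {k : Type} [Field k] [NumberField k] {n : ℕ} {S : Finset (k →+* ℂ)}
    (R : Realization ρ Γ k n S) (b : ℝ) (γ : Γ) : Prop :=
  ∃ σ ∈ S, ∃ l : ℂ, IsEig (conjMat σ (R.r γ)) l ∧ IsEig (ρ γ) l ∧ b ≤ Real.log ‖l‖

/-- pairs of conjugate multiplicatively independent eigenvalues -/
theorem elt (hE : S_ELT3) (n s : ℕ) (δ a : ℝ) (hδ : 0 ≤ δ) (ha : 0 ≤ a)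
    (hab : a < (1 - 3 * δ) / 8) : ∃ c : ℝ, 0 < c ∧
    ∀ (G : Type u) [Group G] (M : ℕ) (ρ : G →* Matrix (Fin M) (Fin M) ℂ)
      (Γ : Subgroup G) (k : Type) [Field k] [NumberField k] (S : Finset (k →+* ℂ))
      (R : Realization ρ Γ k n S), S.card ≤ s → ∀ (γ : Γ) (σ₁ σ₂ : k →+* ℂ) (x y : ℂ),
      (cdeg σ₁ σ₂ : ℝ) ≤ (finrank ℚ k : ℝ) ^ (1 + δ) →
      IsEig (conjMat σ₁ (R.r γ)) x → IsEig (conjMat σ₂ (R.r γ)) y →
      minpoly ℚ x = minpoly ℚ y → MI x y → Big R (c * (finrank ℚ k : ℝ) ^ a) γ := by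
  obtain ⟨c, hc, h⟩ := hE n s δ a hδ ha hab
  refine ⟨c, hc, ?_⟩
  intro G _ M ρ Γ k _ _ S R hS γ σ₁ σ₂ x y hcd hx hy hmin hMI
  obtain ⟨σ, hσ, l, hl, -, hlow⟩ := h k S (R.r γ) hS ((Group.isUnit γ).map R.r)
    (fun σ hσ l hl => R.comp' _ σ hσ l hl) σ₁ σ₂ x y hcd hx hy hmin hMI
  have hl' : IsEig (conjMat σ (R.r γ)) l := hl
  exact ⟨σ, hσ, l, hl', R.eig σ hσ γ l hl', hlow⟩

/-- the eigenvalues outside `S` have absolute value `1` -/
theorem norm_one_out {G : Type u} [Group G] {M : ℕ} {ρ : G →* Matrix (Fin M) (Fin M) ℂ}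
    {Γ : Subgroup G} {k : Type} [Field k] [NumberField k] {n : ℕ} {S : Finset (k →+* ℂ)}
    (R : Realization ρ Γ k n S) (γ : Γ) (σ : k →+* ℂ) (hσ : σ ∉ S) (l : ℂ)
    (hl : ((emb σ).mapMatrix (R.r γ)).charpoly.IsRoot l) : ‖l‖ = 1 := by
  have h1 := R.comp' γ σ hσ l hl
  set A : Matrix (Fin n) (Fin n) ℂ := (emb σ).mapMatrix (R.r γ) with hA
  set B : Matrix (Fin n) (Fin n) ℂ := (emb σ).mapMatrix (R.r γ⁻¹) with hB
  have hAB : A * B = 1 := by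
    rw [hA, hB, ← map_mul, ← map_mul, mul_inv_cancel, map_one, map_one]
  have hBA : B * A = 1 := by
    rw [hA, hB, ← map_mul, ← map_mul, inv_mul_cancel, map_one, map_one]
  obtain ⟨v, hv, hAv⟩ := exists_eigvec A l hl
  have h2 : v = l • B.mulVec v := by
    have h3 : B.mulVec (A.mulVec v) = v := by
      rw [Matrix.mulVec_mulVec, hBA, Matrix.one_mulVec]
    rw [hAv, Matrix.mulVec_smul] at h3
    exact h3.symm
  have hl0 : l ≠ 0 := by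
    rintro rfl
    rw [zero_smul] at h2
    exact hv h2
  have h4 : B.mulVec v = l⁻¹ • v := by
    conv_rhs => rw [h2]
    rw [smul_smul, inv_mul_cancel₀ hl0, one_smul]
  have h5 : B.charpoly.IsRoot l⁻¹ := by
    rw [← Matrix.mem_spectrum_iff_isRoot_charpoly, ← Matrix.spectrum_toLin',
      ← Module.End.hasEigenvalue_iff_mem_spectrum]
    exact Module.End.hasEigenvalue_of_hasEigenvector
      (Module.End.hasEigenvector_iff.mpr ⟨Module.End.mem_eigenspace_iff.mpr (by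
        rw [Matrix.toLin'_apply]; exact h4), hv⟩)
  have h6 := R.comp' γ⁻¹ σ hσ l⁻¹ h5
  rw [norm_inv] at h6
  have h7 : 0 < ‖l‖ := norm_pos_iff.mpr hl0
  have h8 : 1 ≤ ‖l‖ := by
    rw [inv_le_one₀ h7] at h6
    exact h6
  exact le_antisymm h1 h8

/-- fields with small composita -/
theorem fields (hE : S_ELT3) (n s : ℕ) (δ a : ℝ) (hδ : 0 ≤ δ) (ha : 0 ≤ a)
    (hab : a < (1 - 3 * δ) / 8) : ∃ c : ℝ, 0 < c ∧
    ∀ (G : Type u) [Group G] (M : ℕ) (ρ : G →* Matrix (Fin M) (Fin M) ℂ)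
      (Γ : Subgroup G) (k : Type) [Field k] [NumberField k] (S : Finset (k →+* ℂ))
      (R : Realization ρ Γ k n S), S.card ≤ s →
      (∀ γ ∈ Γ, ∀ N : ℕ, 0 < N → γ ^ N = 1 → γ = 1) →
      (∀ σ₁ ∈ S, ∃ σ₂ : k →+* ℂ, σ₂ ∉ S ∧
        (cdeg σ₁ σ₂ : ℝ) ≤ (finrank ℚ k : ℝ) ^ (1 + δ)) →
      ∀ γ : Γ, γ ≠ 1 → Big R (c * (finrank ℚ k : ℝ) ^ a) γ := by
  obtain ⟨c, hc, h⟩ := elt.{u} hE n s δ a hδ ha hab
  refine ⟨c, hc, ?_⟩
  intro G _ M ρ Γ k _ _ S R hS htf hstar γ hγ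
  have hnil : ∀ N : ℕ, 0 < N → ¬ IsNilpotent (R.r γ ^ N - 1) := by
    intro N hN h0
    rw [← map_pow] at h0
    have h1 := R.unipotent _ h0
    have h2 : (γ : G) ^ N = 1 := congrArg Subtype.val h1
    exact hγ (Subtype.ext (htf _ γ.2 N hN h2))
  obtain ⟨σ₁, hσ₁, x, hx, -, hy⟩ := Pool.Agent.D0H65.MD.t_PAIR k n S (R.r γ)
    ((Group.isUnit γ).map R.r) (fun σ hσ l hl => norm_one_out R γ σ hσ l hl) hnil
  obtain ⟨σ₂, hσ₂, hcd⟩ := hstar σ₁ hσ₁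
  obtain ⟨y, hy1, hy2, hy3⟩ := hy σ₂ hσ₂
  exact h G M ρ Γ k S R hS γ σ₁ σ₂ x y hcd hx hy1 hy2 hy3

/-- elements with an eigenvalue no power of which has degree at most `2` over `k` -/
theorem high (hE : S_ELT3) (n s : ℕ) (a : ℝ) (ha : 0 ≤ a)
    (hab : a < 1 / 8) : ∃ c : ℝ, 0 < c ∧
    ∀ (G : Type u) [Group G] (M : ℕ) (ρ : G →* Matrix (Fin M) (Fin M) ℂ)
      (Γ : Subgroup G) (k : Type) [Field k] [NumberField k] (S : Finset (k →+* ℂ))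
      (R : Realization ρ Γ k n S), S.card ≤ s → ∀ (γ : Γ) (x : AlgebraicClosure k),
      ((R.r γ).map (algebraMap (𝓞 k) (AlgebraicClosure k))).charpoly.IsRoot x →
      (∀ N : ℕ, 0 < N → 3 ≤ (minpoly k (x ^ N)).natDegree) →
      Big R (c * (finrank ℚ k : ℝ) ^ a) γ := by
  obtain ⟨c, hc, h⟩ := elt.{u} hE n s 0 a le_rfl ha (by linarith)
  refine ⟨c, hc, ?_⟩
  intro G _ M ρ Γ k _ _ S R hS γ x hx hdeg
  have hx0 : x ≠ 0 := by
    rintro rfl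
    have h1 := hdeg 1 one_pos
    rw [pow_one, minpoly.zero, natDegree_X] at h1
    omega
  have htor : ∀ N : ℕ, 0 < N → x ^ N ≠ 1 := by
    intro N hN h1
    have h2 := hdeg N hN
    rw [h1, minpoly.one, ← C_1, natDegree_X_sub_C] at h2
    omega
  obtain ⟨y, hxy, hMI⟩ : ∃ y : AlgebraicClosure k, minpoly k x = minpoly k y ∧ MI x y := by
    by_contra hcon
    push Not at hcon
    obtain ⟨N, hN, h2⟩ := Pool.Agent.D0H65.MD.t_TWO k x hx0 htor hcon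
    have := hdeg N hN
    omega
  obtain ⟨σ, hσ⟩ := R.nonempty
  obtain ⟨φ, -, h1, h2, h3⟩ := Pool.Agent.D0H65.MD.t_EXT k σ
  have hy : ((R.r γ).map (algebraMap (𝓞 k) (AlgebraicClosure k))).charpoly.IsRoot y := by
    have e1 : ((R.r γ).map (algebraMap (𝓞 k) (AlgebraicClosure k))).charpoly =
        (((R.r γ).map (algebraMap (𝓞 k) k)).charpoly).map
          (algebraMap k (AlgebraicClosure k)) := by
      rw [← Matrix.charpoly_map, Matrix.map_map]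
      congr 1
    rw [e1, IsRoot, eval_map_algebraMap] at hx ⊢
    have h4 := minpoly.dvd k x hx
    rw [hxy] at h4
    obtain ⟨w, hw⟩ := h4
    rw [hw, map_mul, minpoly.aeval, zero_mul]
  refine h G M ρ Γ k S R hS γ σ σ (φ x) (φ y) ?_ (h3 n _ x hx) (h3 n _ y hy) (h1 x y hxy)
    (h2 x y hMI)
  rw [cdeg_self, add_zero, Real.rpow_one]

end Pool.Agent.D0H56.MD
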