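import Pool.Agent.D0H56.MD.EngE

/-! # The engine for two units, end -/

set_option autoImplicit false

open Module Polynomial

namespace Pool.Agent.D0H56.MD

open Pool.Agent.H196R3.LI Pool.Agent.H388SL

theorem lam_pow_le {K : Type} [Field K] [NumberField K] (a : K) (n : ℕ) :
    lam (a ^ n) ≤ n * lam a := by
  induction n with
  | zero =>
    rw [pow_zero]
    have h1 : lam (1 : K) = 0 := by
      unfold lam
      apply Finset.sum_eq_zero
      intro σ _
      rw [map_one, norm_one, max_self, Real.log_one]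
    rw [h1]
    simp
  | succ n ih =>
    rw [pow_succ]
    have h1 := lam_mul_le (a ^ n) a
    push_cast
    linarith

theorem mi_zpow {F : Type} [Field F] {x y : F} (h : MI x y) {m m' n n' : ℕ} {N : ℕ} (hN : 0 < N)
    (e : (x ^ m * y ^ n / (x ^ m' * y ^ n')) ^ N = 1) : m = m' ∧ n = n' := by
  obtain ⟨hx, hy, h⟩ := h
  have h0 : x ^ m' * y ^ n' ≠ 0 := mul_ne_zero (pow_ne_zero _ hx) (pow_ne_zero _ hy)
  have e2 : x ^ m * y ^ n / (x ^ m' * y ^ n') = x ^ ((m : ℤ) - m') * y ^ ((n : ℤ) - n') := by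
    rw [zpow_sub₀ hx, zpow_sub₀ hy]
    simp only [zpow_natCast]
    rw [div_mul_div_comm]
  rw [e2, mul_pow, ← zpow_natCast, ← zpow_natCast, ← zpow_mul, ← zpow_mul] at e
  have h1 := h _ _ e
  have hN' : (N : ℤ) ≠ 0 := by exact_mod_cast hN.ne'
  have h2 := (mul_eq_zero.mp h1.1).resolve_right hN'
  have h3 := (mul_eq_zero.mp h1.2).resolve_right hN'
  omega

theorem rank4 : ∃ c : ℝ, 0 < c ∧ ∀ (K : Type) [Field K] [NumberField K] (x y : K),
    IsIntegral ℤ x → IsIntegral ℤ x⁻¹ → IsIntegral ℤ y → IsIntegral ℤ y⁻¹ → MI x y →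
    ∀ b U : ℕ, 1 ≤ b → 2 ≤ U →
    (b : ℝ) * (U : ℝ) ^ 3 * (Real.log (2 * (U : ℝ) ^ 2)) ^ 4 * (lam x + lam y) ≤
      c * finrank ℚ K →
    U ^ 2 ≤ 2 * finrank ℚ (Submodule.span ℚ (Set.range
      (fun k : Fin U × Fin U => (x ^ b) ^ (k.1 : ℕ) * (y ^ b) ^ (k.2 : ℕ)))) := by
  classical
  obtain ⟨c, hc, hA⟩ := units_rank
  refine ⟨c / 4, by positivity, ?_⟩
  intro K _ _ x y hxi hxi' hyi hyi' hMI b U hb hU hbU
  have hx0 := hMI.1
  have hy0 := hMI.2.1
  set g : Fin U × Fin U → K := fun k => (x ^ b) ^ (k.1 : ℕ) * (y ^ b) ^ (k.2 : ℕ) with hg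
  obtain ⟨e⟩ : Nonempty (Fin (U ^ 2) ≃ Fin U × Fin U) := by
    refine ⟨(finCongr (by ring)).trans finProdFinEquiv.symm⟩
  have hrange : Set.range (fun i => g (e i)) = Set.range g := e.surjective.range_comp g
  have hg' : ∀ k : Fin U × Fin U, g k = x ^ (b * (k.1 : ℕ)) * y ^ (b * (k.2 : ℕ)) := by
    intro k
    rw [hg]
    simp only [pow_mul]
  have hquot : ∀ k l : Fin U × Fin U, g k / g l =
      x ^ (b * (k.1 : ℕ)) * y ^ (b * (k.2 : ℕ)) *
        ((x⁻¹) ^ (b * (l.1 : ℕ)) * (y⁻¹) ^ (b * (l.2 : ℕ))) := by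
    intro k l
    rw [hg', hg', div_eq_mul_inv, mul_inv, inv_pow, inv_pow]
  have key := hA K (U ^ 2) (fun i => g (e i)) ?_ ?_ ?_
  · have hlog : 0 < Real.log (2 * (U : ℝ) ^ 2) := by
      apply Real.log_pos
      have : (2 : ℝ) ≤ U := by exact_mod_cast hU
      nlinarith
    have hUpos : (0 : ℝ) < U := by
      have : (2 : ℝ) ≤ U := by exact_mod_cast hU
      linarith
    have hlx : lam x⁻¹ = lam x := lam_inv hx0 (prod_unit hxi hxi' hx0)
    have hly : lam y⁻¹ = lam y := lam_inv hy0 (prod_unit hyi hyi' hy0)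
    have hlx0 : 0 ≤ lam x := lam_nonneg x
    have hly0 : 0 ≤ lam y := lam_nonneg y
    have hpair : ∀ k l : Fin U × Fin U, lam (g k / g l) ≤ 2 * b * U * (lam x + lam y) := by
      intro k l
      rw [hquot]
      have h1 := lam_mul_le (x ^ (b * (k.1 : ℕ)) * y ^ (b * (k.2 : ℕ)))
        ((x⁻¹) ^ (b * (l.1 : ℕ)) * (y⁻¹) ^ (b * (l.2 : ℕ)))
      have h2 := lam_mul_le (x ^ (b * (k.1 : ℕ))) (y ^ (b * (k.2 : ℕ)))
      have h3 := lam_mul_le ((x⁻¹) ^ (b * (l.1 : ℕ))) ((y⁻¹) ^ (b * (l.2 : ℕ)))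
      have h4 := lam_pow_le x (b * (k.1 : ℕ))
      have h5 := lam_pow_le y (b * (k.2 : ℕ))
      have h6 := lam_pow_le x⁻¹ (b * (l.1 : ℕ))
      have h7 := lam_pow_le y⁻¹ (b * (l.2 : ℕ))
      rw [hlx] at h6
      rw [hly] at h7
      have hb' : ∀ i : Fin U, ((b * (i : ℕ) : ℕ) : ℝ) ≤ b * U := by
        intro i
        push_cast
        have : ((i : ℕ) : ℝ) ≤ U := by exact_mod_cast i.2.le
        exact mul_le_mul_of_nonneg_left this (Nat.cast_nonneg _)
      have e1 := mul_le_mul_of_nonneg_right (hb' k.1) hlx0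
      have e2 := mul_le_mul_of_nonneg_right (hb' k.2) hly0
      have e3 := mul_le_mul_of_nonneg_right (hb' l.1) hlx0
      have e4 := mul_le_mul_of_nonneg_right (hb' l.2) hly0
      linarith
    have hsum : ∑ i, ∑ j ∈ Finset.univ.erase i, lam (g (e i) / g (e j)) ≤
        (U : ℝ) ^ 4 * (2 * b * U * (lam x + lam y)) := by
      have hB0 : 0 ≤ 2 * (b : ℝ) * U * (lam x + lam y) := by positivity
      calc ∑ i, ∑ j ∈ Finset.univ.erase i, lam (g (e i) / g (e j))
          ≤ ∑ i : Fin (U ^ 2), ∑ j ∈ Finset.univ.erase i, 2 * (b : ℝ) * U * (lam x + lam y) :=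
            Finset.sum_le_sum fun i _ => Finset.sum_le_sum fun j _ => hpair _ _
        _ ≤ ∑ i : Fin (U ^ 2), ∑ j : Fin (U ^ 2), 2 * (b : ℝ) * U * (lam x + lam y) := by
            refine Finset.sum_le_sum fun i _ => ?_
            exact Finset.sum_le_sum_of_subset_of_nonneg (Finset.subset_univ _)
              (fun _ _ _ => hB0)
        _ = _ := by
            simp only [Finset.sum_const, Finset.card_univ, Fintype.card_fin, nsmul_eq_mul]
            push_cast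
            ring
    have key2 := key.trans hsum
    rw [hrange] at key2
    obtain ⟨r, hr⟩ : ∃ r : ℕ, r = finrank ℚ (Submodule.span ℚ (Set.range g)) := ⟨_, rfl⟩
    rw [← hr] at key2 ⊢
    have hlogc : Real.log (2 * ((U ^ 2 : ℕ) : ℝ)) = Real.log (2 * (U : ℝ) ^ 2) := by
      push_cast; rfl
    rw [hlogc, div_le_iff₀ (by positivity)] at key2
    push_cast at key2
    have hD : (0 : ℝ) < finrank ℚ K := by exact_mod_cast (finrank_pos : 0 < finrank ℚ K)
    have h5 : c * finrank ℚ K * ((U : ℝ) ^ 2 - r) ≤ c * finrank ℚ K * ((U : ℝ) ^ 2 / 2) := by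
      have h6 := mul_le_mul_of_nonneg_left hbU (show (0:ℝ) ≤ 2 * (U : ℝ) ^ 2 by positivity)
      nlinarith
    have h7 := le_of_mul_le_mul_left h5 (by positivity)
    have h8 : (U : ℝ) ^ 2 ≤ 2 * r := by linarith
    exact_mod_cast h8
  · intro i
    rw [hg']
    exact mul_ne_zero (pow_ne_zero _ hx0) (pow_ne_zero _ hy0)
  · intro i j
    rw [hquot]
    exact ((hxi.pow _).mul (hyi.pow _)).mul ((hxi'.pow _).mul (hyi'.pow _))
  · intro i j hij m hm h
    rw [hg', hg'] at h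
    have h1 := mi_zpow hMI hm h
    apply hij
    apply e.injective
    have hb0 : 0 < b := by omega
    exact Prod.ext (Fin.ext (Nat.eq_of_mul_eq_mul_left hb0 h1.1))
      (Fin.ext (Nat.eq_of_mul_eq_mul_left hb0 h1.2))

theorem e4 (hFr : S_FROB) (hN : S_NEWT) (hRo : S_ROWS) (hF : S_FIB) (hD : S_DET) (hAr : S_ARCH)
    (hI : S_INTERP) (hSp : S_SPN3) (hG : S_GOOD) (hAu : S_AUT) (hB : S_BAD) (hV : S_VAL)
    (hPar : S_PARAM3) : S_E4 := by
  intro δ a₀ hδ ha₀ hab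
  obtain ⟨c, hc, hrk⟩ := rank4
  obtain ⟨a, haa, hab'⟩ := exists_between hab
  have ha : 0 ≤ a := ha₀.trans haa.le
  obtain ⟨d₁, hd₁, hpar⟩ := hPar δ a (c / 2) hδ ha hab' (by positivity)
  have hδ1 : δ < 1 := by linarith
  -- comparison of the bounds for the bad primes
  obtain ⟨d₂, hd₂⟩ : ∃ d₂ : ℕ, ∀ d : ℕ, d₂ ≤ d →
      32 * (2 * Real.log d + (d : ℝ) ^ a₀) ≤ 16 * (Real.log d + (d : ℝ) ^ a) := by
    have h1 : Filter.Tendsto (fun d : ℕ => (d : ℝ) ^ (a - a₀)) Filter.atTop Filter.atTop :=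
      (tendsto_rpow_atTop (by linarith)).comp tendsto_natCast_atTop_atTop
    have h2 : Filter.Tendsto (fun d : ℕ => Real.log (d : ℝ) / (d : ℝ) ^ a) Filter.atTop (nhds 0) :=
      (isLittleO_log_rpow_atTop (by linarith)).tendsto_div_nhds_zero.comp
        tendsto_natCast_atTop_atTop
    have h3 := (h1.eventually_ge_atTop 4).and ((h2.eventually_le_const
      (show (0 : ℝ) < 1 / 6 by norm_num)).and (Filter.eventually_ge_atTop 1))
    obtain ⟨d₂, h⟩ := Filter.eventually_atTop.mp h3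
    refine ⟨d₂, fun d hd => ?_⟩
    obtain ⟨h4, h5, h6⟩ := h d hd
    have hdR : (0 : ℝ) < d := by exact_mod_cast h6
    have hpa : (0 : ℝ) < (d : ℝ) ^ a := Real.rpow_pos_of_pos hdR a
    have hpa0 : (0 : ℝ) < (d : ℝ) ^ a₀ := Real.rpow_pos_of_pos hdR a₀
    rw [div_le_iff₀ hpa] at h5
    have h7 : (d : ℝ) ^ a = (d : ℝ) ^ (a - a₀) * (d : ℝ) ^ a₀ := by
      rw [← Real.rpow_add hdR]; congr 1; ring
    have h8 : 4 * (d : ℝ) ^ a₀ ≤ (d : ℝ) ^ a := by
      rw [h7]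
      exact mul_le_mul_of_nonneg_right h4 hpa0.le
    linarith
  refine ⟨max d₁ d₂, ?_⟩
  intro f g hi hm hc0 hig hmg hcg0 d hdd hdf hdg x y hx hy hMI hDle
  by_contra hcon
  push Not at hcon
  rw [max_lt_iff] at hcon
  have hd1 : d₁ ≤ d := (le_max_left _ _).trans hdd
  have hd2 : d₂ ≤ d := (le_max_right _ _).trans hdd
  have hdpos : 0 < d := by omega
  have hdR : (0 : ℝ) < d := by exact_mod_cast hdpos
  have hxi : IsIntegral ℤ x := ⟨f, hm, by rw [← Polynomial.aeval_def]; exact hx⟩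
  have hyi : IsIntegral ℤ y := ⟨g, hmg, by rw [← Polynomial.aeval_def]; exact hy⟩
  set K := IntermediateField.adjoin ℚ {x, y} with hK
  have : FiniteDimensional ℚ K := by
    apply IntermediateField.finiteDimensional_adjoin
    intro z hz
    rcases hz with rfl | hz
    · exact hxi.tower_top
    · rw [Set.mem_singleton_iff] at hz
      rw [hz]
      exact hyi.tower_top
  have : NumberField K := { to_charZero := inferInstance, to_finiteDimensional := inferInstance }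
  have hxK : x ∈ K := IntermediateField.subset_adjoin ℚ _ (Set.mem_insert _ _)
  have hyK : y ∈ K := IntermediateField.subset_adjoin ℚ _ (Set.mem_insert_of_mem _ rfl)
  obtain ⟨x', hx'⟩ : ∃ x' : K, (x' : ℂ) = x := ⟨⟨x, hxK⟩, rfl⟩
  obtain ⟨y', hy'⟩ : ∃ y' : K, (y' : ℂ) = y := ⟨⟨y, hyK⟩, rfl⟩
  have hroot : ∀ (f : ℤ[X]) (z : ℂ) (z' : K), (z' : ℂ) = z → aeval z f = 0 → aeval z' f = 0 := by
    intro f z z' hz' hz
    have h1 : algebraMap K ℂ (aeval z' f) = 0 := by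
      rw [← Polynomial.aeval_algebraMap_apply]
      rw [show algebraMap K ℂ z' = z from hz']
      exact hz
    exact (map_eq_zero _).mp h1
  have hxf := hroot f x x' hx' hx
  have hyg := hroot g y y' hy' hy
  have hgen := gen_aux (algebraMap K ℂ) x' y' (fun z => by
    rw [show algebraMap K ℂ x' = x from hx', show algebraMap K ℂ y' = y from hy']
    exact z.2)
  have hMI' : MI x' y' := by
    refine ⟨fun h => hMI.1 ?_, fun h => hMI.2.1 ?_, fun m n h => hMI.2.2 m n ?_⟩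
    · rw [← hx', h]; rfl
    · rw [← hy', h]; rfl
    · have h1 := congrArg (algebraMap K ℂ) h
      rw [map_mul, map_zpow₀, map_zpow₀, map_one] at h1
      rw [← hx', ← hy']
      exact h1
  have hdeg : ∀ (f : ℤ[X]) (z : ℂ) (z' : K), f.Monic → Irreducible f → (z' : ℂ) = z →
      aeval z f = 0 → f.natDegree ≤ finrank ℚ K := by
    intro f z z' hm hi hz' hz
    have h1 := (hF K z' f hm hi (hroot f z z' hz' hz)).1 z hz
    have h2 : Nat.card {σ : K →+* ℂ // σ z' = z} ≠ 0 := by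
      rw [Nat.card_ne_zero]
      exact ⟨⟨⟨algebraMap K ℂ, hz'⟩⟩, inferInstance⟩
    rw [← h1]
    exact Nat.le_mul_of_pos_left _ (Nat.pos_of_ne_zero h2)
  have hfD := hdeg f x x' hm hi hx' hx
  have hgD := hdeg g y y' hmg hig hy' hy
  have hdD : d ≤ finrank ℚ K := hdf.trans hfD
  have hDpos : (0 : ℝ) < finrank ℚ K := by exact_mod_cast lt_of_lt_of_le hdpos hdD
  obtain ⟨U, T, X, hU, hT, hX, h1, h2⟩ := hpar d (finrank ℚ K) hd1 hdD hDle
  have hux := inv_integral hm hc0 hxf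
  have huy := inv_integral hmg hcg0 hyg
  have hx'i : IsIntegral ℤ x' := ⟨f, hm, by rw [← Polynomial.aeval_def]; exact hxf⟩
  have hy'i : IsIntegral ℤ y' := ⟨g, hmg, by rw [← Polynomial.aeval_def]; exact hyg⟩
  have hpow : (d : ℝ) ^ a₀ ≤ (d : ℝ) ^ a :=
    Real.rpow_le_rpow_of_exponent_le (by exact_mod_cast hdpos) haa.le
  have hcmp : 32 * (Real.log (finrank ℚ K) + (d : ℝ) ^ a₀) ≤
      16 * (Real.log d + (d : ℝ) ^ a) := by
    have h3 : Real.log (finrank ℚ K) ≤ 2 * Real.log d := by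
      have h4 := Real.log_le_log hDpos hDle
      rw [Real.log_rpow hdR] at h4
      have h5 : 0 ≤ Real.log (d : ℝ) := Real.log_natCast_nonneg d
      nlinarith
    have h4 := hd₂ d hd2
    linarith
  have hM1 : MM f = Pool.Agent.H388SL.MM f := rfl
  have hM2 : MM g = Pool.Agent.H388SL.MM g := rfl
  have hlam : ∀ (f : ℤ[X]) (z : K), Irreducible f → f.Monic → aeval z f = 0 → d ≤ f.natDegree →
      Real.log (Pool.Agent.H388SL.MM f) < (d : ℝ) ^ a₀ →
      (d : ℝ) * lam z ≤ finrank ℚ K * (d : ℝ) ^ a := by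
    intro f z hi hm hz hdf hlt
    have h3 := lam_root hi hm hz
    have h4 : (d : ℝ) * lam z ≤ f.natDegree * lam z :=
      mul_le_mul_of_nonneg_right (by exact_mod_cast hdf) (lam_nonneg z)
    rw [h3] at h4
    exact h4.trans (mul_le_mul_of_nonneg_left (hlt.le.trans hpow) hDpos.le)
  have hl1 := hlam f x' hi hm hxf hdf (by rw [← hM1]; exact hcon.1)
  have hl2 := hlam g y' hig hmg hyg hdg (by rw [← hM2]; exact hcon.2)
  refine core4 hFr hN hRo hF hD hAr hI hSp hG hAu hB hV x' y' f g hm hi hmg hig hxf hyg hgen hMI'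
    a a₀ haa.le d hdpos hdf hdg hfD hgD hcon.1 hcon.2 hcmp U T X hU hT hX ?_ h2
  intro b hb hbX
  refine hrk K x' y' hx'i hux.2 hy'i huy.2 hMI' b U hb hU ?_
  obtain ⟨W, hW⟩ : ∃ W : ℝ, W = (U : ℝ) ^ 3 * (Real.log (2 * (U : ℝ) ^ 2)) ^ 4 := ⟨_, rfl⟩
  have hW0 : 0 ≤ W := by rw [hW]; positivity
  have e1 : (b : ℝ) * (U : ℝ) ^ 3 * (Real.log (2 * (U : ℝ) ^ 2)) ^ 4 * (lam x' + lam y') =
      b * W * (lam x' + lam y') := by rw [hW]; ring
  have e2 : (X : ℝ) * (U : ℝ) ^ 3 * (Real.log (2 * (U : ℝ) ^ 2)) ^ 4 * (d : ℝ) ^ a =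
      X * W * (d : ℝ) ^ a := by rw [hW]; ring
  rw [e1]
  rw [e2] at h1
  have hbX' : (b : ℝ) ≤ X := by exact_mod_cast hbX
  have hlx0 : 0 ≤ lam x' := lam_nonneg x'
  have hly0 : 0 ≤ lam y' := lam_nonneg y'
  have h6 : (b : ℝ) * W * (lam x' + lam y') ≤ X * W * (lam x' + lam y') :=
    mul_le_mul_of_nonneg_right (mul_le_mul_of_nonneg_right hbX' hW0) (by positivity)
  refine h6.trans ?_
  have h7 : (d : ℝ) * (X * W * (lam x' + lam y')) ≤ d * (c * finrank ℚ K) := by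
    have h8 : (d : ℝ) * (lam x' + lam y') ≤ 2 * (finrank ℚ K * (d : ℝ) ^ a) := by linarith
    have h9 := mul_le_mul_of_nonneg_left h8 (show (0 : ℝ) ≤ X * W by positivity)
    have h10 := mul_le_mul_of_nonneg_left h1 (show (0 : ℝ) ≤ 2 * (finrank ℚ K : ℝ) by positivity)
    calc (d : ℝ) * (X * W * (lam x' + lam y')) = X * W * (d * (lam x' + lam y')) := by ring
      _ ≤ X * W * (2 * (finrank ℚ K * (d : ℝ) ^ a)) := h9
      _ = 2 * (finrank ℚ K : ℝ) * (X * W * (d : ℝ) ^ a) := by ring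
      _ ≤ 2 * (finrank ℚ K : ℝ) * (c / 2 * d) := h10
      _ = d * (c * finrank ℚ K) := by ring
  exact le_of_mul_le_mul_left h7 hdR

end Pool.Agent.D0H56.MD
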