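import Pool.Agent.D0H56.MD.App2
import Pool.Agent.D0H56.MD.EngF
import Pool.Agent.D0H65.MD.Elt4
import Pool.Agent.D0H65.MD.Deg4

/-! # The application to pairs of elements -/

set_option autoImplicit false

open Module Polynomial NumberField Pool.Agent.H225R3.Marg

namespace Pool.Agent.D0H56.MD

universe u

theorem t_E4 : S_E4 :=
  e4 Pool.Agent.D0H15.MD.t_FROB Pool.Agent.D0H15.MD.t_NEWT Pool.Agent.D0H98.MD.rows
    Pool.Agent.D0H70.MD.t_FIB Pool.Agent.D0H98.MD.det Pool.Agent.D0H98.MD.arch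
    Pool.Agent.D0H69.MD.t_INTERP t_SPN3 Pool.Agent.D0H37.MD.t_GOOD Pool.Agent.D0H70.MD.t_AUT
    (Pool.Agent.D0H87.MD.t_BAD Pool.Agent.D0H87.MD.t_CORANK) Pool.Agent.D0H15.MD.t_VAL
    Pool.Agent.D0H98.MD.t_PARAM3

theorem t_ELT4 : S_ELT4 :=
  Pool.Agent.D0H65.MD.t_ELT4 t_E4 Pool.Agent.D0H65.MD.t_MEAS2 Pool.Agent.D0H65.MD.t_DEG4
    Pool.Agent.D0H65.MD.t_SMALL

/-- two elements with independent eigenvalues -/
theorem two_elt (n s : ℕ) (δ a : ℝ) (hδ : 0 ≤ δ) (ha : 0 ≤ a)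
    (hab : a < (1 - 3 * δ) / 8) : ∃ c : ℝ, 0 < c ∧
    ∀ (G₁ G₂ : Type u) [Group G₁] [Group G₂] (M₁ M₂ : ℕ)
      (ρ₁ : G₁ →* Matrix (Fin M₁) (Fin M₁) ℂ) (ρ₂ : G₂ →* Matrix (Fin M₂) (Fin M₂) ℂ)
      (Γ₁ : Subgroup G₁) (Γ₂ : Subgroup G₂) (k : Type) [Field k] [NumberField k]
      (S₁ S₂ : Finset (k →+* ℂ)) (R₁ : Realization ρ₁ Γ₁ k n S₁) (R₂ : Realization ρ₂ Γ₂ k n S₂),
      S₁.card ≤ s → S₂.card ≤ s → ∀ (γ₁ : Γ₁) (γ₂ : Γ₂) (σ₁ σ₂ : k →+* ℂ) (x y : ℂ),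
      (cdeg σ₁ σ₂ : ℝ) ≤ (finrank ℚ k : ℝ) ^ (1 + δ) →
      IsEig (conjMat σ₁ (R₁.r γ₁)) x → IsEig (conjMat σ₂ (R₂.r γ₂)) y → MI x y →
      Big R₁ (c * (finrank ℚ k : ℝ) ^ a) γ₁ ∨ Big R₂ (c * (finrank ℚ k : ℝ) ^ a) γ₂ := by
  obtain ⟨c, hc, h⟩ := t_ELT4 n s δ a hδ ha hab
  refine ⟨c, hc, ?_⟩
  intro G₁ G₂ _ _ M₁ M₂ ρ₁ ρ₂ Γ₁ Γ₂ k _ _ S₁ S₂ R₁ R₂ hS₁ hS₂ γ₁ γ₂ σ₁ σ₂ x y hcd hx hy hMI
  rcases h k S₁ S₂ (R₁.r γ₁) (R₂.r γ₂) hS₁ hS₂ ((Group.isUnit γ₁).map R₁.r)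
    ((Group.isUnit γ₂).map R₂.r) (fun σ hσ l hl => R₁.comp' _ σ hσ l hl)
    (fun σ hσ l hl => R₂.comp' _ σ hσ l hl) σ₁ σ₂ x y hcd hx hy hMI with
    ⟨σ, hσ, l, hl, hlow⟩ | ⟨σ, hσ, l, hl, hlow⟩
  · have hl' : IsEig (conjMat σ (R₁.r γ₁)) l := hl
    exact Or.inl ⟨σ, hσ, l, hl', R₁.eig σ hσ γ₁ l hl', hlow⟩
  · have hl' : IsEig (conjMat σ (R₂.r γ₂)) l := hl
    exact Or.inr ⟨σ, hσ, l, hl', R₂.eig σ hσ γ₂ l hl', hlow⟩

/-- over the algebraic closure of `k` -/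
theorem two_elt_closure (n s : ℕ) (a : ℝ) (ha : 0 ≤ a) (hab : a < 1 / 8) : ∃ c : ℝ, 0 < c ∧
    ∀ (G₁ G₂ : Type u) [Group G₁] [Group G₂] (M₁ M₂ : ℕ)
      (ρ₁ : G₁ →* Matrix (Fin M₁) (Fin M₁) ℂ) (ρ₂ : G₂ →* Matrix (Fin M₂) (Fin M₂) ℂ)
      (Γ₁ : Subgroup G₁) (Γ₂ : Subgroup G₂) (k : Type) [Field k] [NumberField k]
      (S₁ S₂ : Finset (k →+* ℂ)) (R₁ : Realization ρ₁ Γ₁ k n S₁) (R₂ : Realization ρ₂ Γ₂ k n S₂),
      S₁.card ≤ s → S₂.card ≤ s → ∀ (γ₁ : Γ₁) (γ₂ : Γ₂) (x y : AlgebraicClosure k),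
      ((R₁.r γ₁).map (algebraMap (𝓞 k) (AlgebraicClosure k))).charpoly.IsRoot x →
      ((R₂.r γ₂).map (algebraMap (𝓞 k) (AlgebraicClosure k))).charpoly.IsRoot y → MI x y →
      Big R₁ (c * (finrank ℚ k : ℝ) ^ a) γ₁ ∨ Big R₂ (c * (finrank ℚ k : ℝ) ^ a) γ₂ := by
  obtain ⟨c, hc, h⟩ := two_elt.{u} n s 0 a le_rfl ha (by linarith)
  refine ⟨c, hc, ?_⟩
  intro G₁ G₂ _ _ M₁ M₂ ρ₁ ρ₂ Γ₁ Γ₂ k _ _ S₁ S₂ R₁ R₂ hS₁ hS₂ γ₁ γ₂ x y hx hy hMI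
  obtain ⟨σ, hσ⟩ := R₁.nonempty
  obtain ⟨φ, -, h1, h2, h3⟩ := Pool.Agent.D0H65.MD.t_EXT k σ
  refine h G₁ G₂ M₁ M₂ ρ₁ ρ₂ Γ₁ Γ₂ k S₁ S₂ R₁ R₂ hS₁ hS₂ γ₁ γ₂ σ σ (φ x) (φ y) ?_
    (h3 n _ x hx) (h3 n _ y hy) (h2 x y hMI)
  rw [cdeg_self, add_zero, Real.rpow_one]

/-- no large eigenvalues near the identity -/
theorem not_big_nhd {G : Type u} [Group G] [TopologicalSpace G] {M : ℕ}
    (ρ : G →* Matrix (Fin M) (Fin M) ℂ) (hρ : Continuous ρ) (c : ℝ) (hc : 0 < c) :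
    ∃ U ∈ nhds (1 : G), ∀ g : G, ∀ v ∈ U, ∀ l : ℂ, IsEig (ρ (g * v * g⁻¹)) l →
      Real.log ‖l‖ < c := by
  have hε : 0 < Real.exp c - 1 := by
    have := Real.add_one_lt_exp hc.ne'
    linarith
  refine ⟨_, nhd ρ hρ (Real.exp c - 1) hε, ?_⟩
  intro g v hv l hl
  rw [IsEig, charpoly_conj] at hl
  have h1 := close_eig (ρ v) (Real.exp c - 1) hε hv l hl
  have h3 : ‖l‖ ≤ ‖l - 1‖ + 1 := by
    have := norm_add_le (l - 1) 1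
    rwa [sub_add_cancel, norm_one] at this
  rcases (norm_nonneg l).eq_or_lt with h0 | h0
  · rw [← h0, Real.log_zero]
    exact hc
  · rw [Real.log_lt_iff_lt_exp h0]
    linarith

/-- bounded eigenvalues on the conjugates of a compact set -/
theorem not_big_compact {G : Type u} [Group G] [TopologicalSpace G] {M : ℕ}
    (ρ : G →* Matrix (Fin M) (Fin M) ℂ) (hρ : Continuous ρ) (c a : ℝ) (hc : 0 < c) (ha : 0 < a)
    (C : Set G) (hC : IsCompact C) :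
    ∃ m₀ : ℕ, ∀ m : ℕ, m₀ ≤ m → ∀ g : G, ∀ v ∈ C, ∀ l : ℂ, IsEig (ρ (g * v * g⁻¹)) l →
      Real.log ‖l‖ < c * (m : ℝ) ^ a := by
  obtain ⟨B, hB⟩ : ∃ B : ℝ, ∀ v ∈ C, ∀ i j, ‖ρ v i j‖ ≤ B := by
    have h1 : ∀ i j, ∃ B : ℝ, ∀ v ∈ C, ‖ρ v i j‖ ≤ B := by
      intro i j
      have hc' : Continuous fun g : G => ρ g i j := (continuous_apply_apply i j).comp hρ
      obtain ⟨B, hB⟩ := hC.exists_bound_of_continuousOn hc'.continuousOn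
      exact ⟨B, hB⟩
    choose B hB using h1
    refine ⟨∑ i, ∑ j, |B i j|, fun v hv i j => ?_⟩
    calc ‖ρ v i j‖ ≤ B i j := hB i j v hv
      _ ≤ |B i j| := le_abs_self _
      _ ≤ ∑ j, |B i j| := Finset.single_le_sum (f := fun j => |B i j|)
          (fun _ _ => abs_nonneg _) (Finset.mem_univ j)
      _ ≤ ∑ i, ∑ j, |B i j| := Finset.single_le_sum (f := fun i => ∑ j, |B i j|)
          (fun _ _ => Finset.sum_nonneg fun _ _ => abs_nonneg _) (Finset.mem_univ i)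
  have ht : Filter.Tendsto (fun m : ℕ => c * (m : ℝ) ^ a) Filter.atTop Filter.atTop :=
    Filter.Tendsto.const_mul_atTop hc ((tendsto_rpow_atTop ha).comp tendsto_natCast_atTop_atTop)
  obtain ⟨m₀, hm₀⟩ := Filter.eventually_atTop.mp
    (ht.eventually_gt_atTop (Real.log (|(M : ℝ) * B| + 1)))
  refine ⟨m₀, fun m hm g v hv l hl => ?_⟩
  rw [IsEig, charpoly_conj] at hl
  obtain ⟨w, hw, hAw⟩ := exists_eigvec (ρ v) l hl
  have h1 : ‖l‖ ≤ M * B := eig_le (ρ v) l B w hw hAw (hB v hv)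
  have h2 := hm₀ m hm
  have h3 : (M : ℝ) * B ≤ |(M : ℝ) * B| := le_abs_self _
  have h4 : Real.log ‖l‖ ≤ Real.log (|(M : ℝ) * B| + 1) := by
    rcases (norm_nonneg l).eq_or_lt with h0 | h0
    · rw [← h0, Real.log_zero]
      exact Real.log_nonneg (by linarith [abs_nonneg ((M : ℝ) * B)])
    · exact Real.log_le_log h0 (by linarith)
  linarith

/-- eigenvalues of invertible matrices -/
theorem eig_ne_zero {k : Type} [Field k] {n : ℕ} (A : (Matrix (Fin n) (Fin n) k)ˣ)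
    (x : AlgebraicClosure k)
    (hx : ((A : Matrix (Fin n) (Fin n) k).map
      (algebraMap k (AlgebraicClosure k))).charpoly.IsRoot x) : x ≠ 0 := by
  rintro rfl
  set B : Matrix (Fin n) (Fin n) (AlgebraicClosure k) :=
    (A : Matrix (Fin n) (Fin n) k).map (algebraMap k (AlgebraicClosure k)) with hB
  have h1 : IsUnit B :=
    (Units.isUnit A).map (algebraMap k (AlgebraicClosure k)).mapMatrix
  have h2 : IsUnit B.det := (Matrix.isUnit_iff_isUnit_det B).mp h1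
  rw [IsRoot, Matrix.eval_charpoly, map_zero, zero_sub, Matrix.det_neg] at hx
  rcases mul_eq_zero.mp hx with h3 | h3
  · exact pow_ne_zero _ (by norm_num : (-1 : AlgebraicClosure k) ≠ 0) h3
  · exact h2.ne_zero h3

/-- commuting elements of division algebras -/
theorem comm_big (n s : ℕ) (a : ℝ) (ha : 0 ≤ a) (hab : a < 1 / 8) : ∃ c : ℝ, 0 < c ∧
    ∀ (G : Type u) [Group G] (M : ℕ) (ρ : G →* Matrix (Fin M) (Fin M) ℂ)
      (Γ : Subgroup G) (k : Type) [Field k] [NumberField k]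
      (S : Finset (k →+* ℂ)) (R : Realization ρ Γ k n S)
      (D : Subalgebra k (Matrix (Fin n) (Fin n) k)), (∀ a ∈ D, a ≠ 0 → ∃ b ∈ D, a * b = 1) →
      S.card ≤ s → ∀ γ₁ γ₂ : Γ, (R.r γ₁).map (algebraMap (𝓞 k) k) ∈ D →
      (R.r γ₂).map (algebraMap (𝓞 k) k) ∈ D → γ₁ * γ₂ = γ₂ * γ₁ →
      (∃ p q : ℤ, (p, q) ≠ (0, 0) ∧ γ₁ ^ p * γ₂ ^ q = 1) ∨
      Big R (c * (finrank ℚ k : ℝ) ^ a) γ₁ ∨ Big R (c * (finrank ℚ k : ℝ) ^ a) γ₂ := by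
  obtain ⟨c, hc, h⟩ := two_elt_closure.{u} n s a ha hab
  refine ⟨c, hc, ?_⟩
  intro G _ M ρ Γ k _ _ S R D hD hS γ₁ γ₂ hγ₁ hγ₂ hcomm
  set f : Γ →* (Matrix (Fin n) (Fin n) k)ˣ :=
    ((Units.map ((algebraMap (𝓞 k) k).mapMatrix : Matrix (Fin n) (Fin n) (𝓞 k) →+*
      Matrix (Fin n) (Fin n) k).toMonoidHom).comp (Units.map R.r)).comp
      (toUnits (G := Γ)).toMonoidHom with hf
  have hfval : ∀ γ : Γ, (f γ : Matrix (Fin n) (Fin n) k) = (R.r γ).map (algebraMap (𝓞 k) k) :=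
    fun γ => rfl
  have hinj : ∀ γ : Γ, f γ = 1 → γ = 1 := by
    intro γ hγ
    apply R.unipotent
    have h1 : (R.r γ).map (algebraMap (𝓞 k) k) = 1 := by
      rw [← hfval, hγ, Units.val_one]
    have h2 : R.r γ = 1 := by
      apply Matrix.map_injective (RingOfIntegers.coe_injective (K := k))
      change (R.r γ).map (algebraMap (𝓞 k) k) = (1 : Matrix (Fin n) (Fin n) (𝓞 k)).map
        (algebraMap (𝓞 k) k)
      rw [h1, Matrix.map_one _ (map_zero _) (map_one _)]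
    rw [h2, sub_self]
    exact IsNilpotent.zero
  rcases Nat.eq_zero_or_pos n with hn | hn
  · left
    refine ⟨1, 0, by simp, ?_⟩
    rw [zpow_one, zpow_zero, mul_one]
    apply hinj
    subst hn
    exact Units.ext (Matrix.ext fun i => i.elim0)
  obtain ⟨x, y, hx, hy, hxy⟩ := Pool.Agent.D0H65.MD.t_COMM k n D hD (f γ₁) (f γ₂)
    (by rw [hfval]; exact hγ₁) (by rw [hfval]; exact hγ₂) (by rw [← map_mul, ← map_mul, hcomm]) hn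
  by_cases hMI : MI x y
  · right
    have e : ∀ γ : Γ, ((f γ : Matrix (Fin n) (Fin n) k)).map
        (algebraMap k (AlgebraicClosure k)) =
        (R.r γ).map (algebraMap (𝓞 k) (AlgebraicClosure k)) := by
      intro γ
      rw [hfval, Matrix.map_map]
      congr 1
    rw [e] at hx hy
    exact h G G M M ρ ρ Γ Γ k S S R R hS hS γ₁ γ₂ x y hx hy hMI
  · left
    unfold MI at hMI
    push Not at hMI
    obtain ⟨p, q, h1, h2⟩ := hMI (eig_ne_zero _ x hx) (eig_ne_zero _ y hy)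
    refine ⟨p, q, ?_, ?_⟩
    · intro h0
      rw [Prod.mk.injEq] at h0
      exact h2 h0.1 h0.2
    · apply hinj
      rw [map_mul, map_zpow, map_zpow]
      exact hxy p q h1

end Pool.Agent.D0H56.MD
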