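import Pool.Agent.D0H56.MD.App3

/-! # Elements near the identity commute; cyclic subgroups -/

set_option autoImplicit false

open Module Polynomial NumberField Pool.Agent.H225R3.Marg

namespace Pool.Agent.D0H56.MD

universe u

/-- a common eigenvector of commuting matrices -/
theorem common_eig {E : Type*} [Field E] [IsAlgClosed E] {n : ℕ} (C Y : Matrix (Fin n) (Fin n) E)
    (h : C * Y = Y * C) (m : E) (hm : C.charpoly.IsRoot m) :
    ∃ (v : Fin n → E) (l : E), v ≠ 0 ∧ C.mulVec v = m • v ∧ Y.mulVec v = l • v := by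
  have h1 : Module.End.HasEigenvalue (Matrix.toLin' C) m := by
    rw [Module.End.hasEigenvalue_iff_mem_spectrum, Matrix.spectrum_toLin',
      Matrix.mem_spectrum_iff_isRoot_charpoly]
    exact hm
  set W := Module.End.eigenspace (Matrix.toLin' C) m with hW
  have hmaps : ∀ w ∈ W, Matrix.toLin' Y w ∈ W := by
    intro w hw
    rw [hW, Module.End.mem_eigenspace_iff] at hw ⊢
    rw [Matrix.toLin'_apply] at hw ⊢
    rw [Matrix.toLin'_apply, Matrix.mulVec_mulVec, h, ← Matrix.mulVec_mulVec, hw,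
      Matrix.mulVec_smul]
  have hnt : Nontrivial W := by
    rw [Submodule.nontrivial_iff_ne_bot]
    exact h1
  obtain ⟨l, hl⟩ := Module.End.exists_eigenvalue ((Matrix.toLin' Y).restrict hmaps)
  obtain ⟨w, hw⟩ := hl.exists_hasEigenvector
  refine ⟨w, l, ?_, ?_, ?_⟩
  · intro h0
    exact hw.2 (Subtype.ext h0)
  · have h2 : (w : Fin n → E) ∈ Module.End.eigenspace (Matrix.toLin' C) m := w.2
    rw [Module.End.mem_eigenspace_iff, Matrix.toLin'_apply] at h2
    exact h2
  · have := congrArg Subtype.val hw.apply_eq_smul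
    simpa using this

theorem root_of_vec {E : Type*} [Field E] {n : ℕ} (A : Matrix (Fin n) (Fin n) E) (l : E)
    (v : Fin n → E) (hv : v ≠ 0) (h : A.mulVec v = l • v) : A.charpoly.IsRoot l := by
  rw [← Matrix.mem_spectrum_iff_isRoot_charpoly, ← Matrix.spectrum_toLin',
    ← Module.End.hasEigenvalue_iff_mem_spectrum]
  exact Module.End.hasEigenvalue_of_hasEigenvector
    (Module.End.hasEigenvector_iff.mpr ⟨Module.End.mem_eigenspace_iff.mpr (by
      rw [Matrix.toLin'_apply]; exact h), hv⟩)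

/-- if `c = [x, y]` commutes with `x` and `y` then the eigenvalues of `c` are roots of unity -/
theorem comm_roots {E : Type*} [Field E] [IsAlgClosed E] {n : ℕ}
    (X Y C : (Matrix (Fin n) (Fin n) E)ˣ) (h : X * Y * X⁻¹ = C * Y) (hX : C * X = X * C)
    (hY : C * Y = Y * C) (m : E) (hm : (C : Matrix (Fin n) (Fin n) E).charpoly.IsRoot m) :
    ∃ N : ℕ, 0 < N ∧ m ^ N = 1 := by
  have hpow : ∀ j : ℕ, X ^ j * Y * (X ^ j)⁻¹ = C ^ j * Y := by
    intro j
    induction j with
    | zero => simp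
    | succ j ih =>
      have e1 : X ^ (j + 1) * Y * (X ^ (j + 1))⁻¹ = X * (X ^ j * Y * (X ^ j)⁻¹) * X⁻¹ := by
        rw [pow_succ' X j, mul_inv_rev]
        group
      have e2 : X * (C ^ j * Y) * X⁻¹ = C ^ j * (X * Y * X⁻¹) := by
        have : X * C ^ j = C ^ j * X := ((Commute.pow_right (show Commute X C from hX.symm) j)).eq
        rw [← mul_assoc, this]
        group
      rw [e1, ih, e2, h, pow_succ, mul_assoc]
  have hch : ∀ j : ℕ, ((C ^ j * Y : (Matrix (Fin n) (Fin n) E)ˣ) :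
      Matrix (Fin n) (Fin n) E).charpoly = (Y : Matrix (Fin n) (Fin n) E).charpoly := by
    intro j
    rw [← hpow j, Units.val_mul, Units.val_mul, Matrix.charpoly_mul_comm, ← mul_assoc,
      ← Units.val_mul, inv_mul_cancel, Units.val_one, one_mul]
  obtain ⟨v, l, hv, hCv, hYv⟩ := common_eig (C : Matrix (Fin n) (Fin n) E)
    (Y : Matrix (Fin n) (Fin n) E) (by rw [← Units.val_mul, hY, Units.val_mul]) m hm
  have hl0 : l ≠ 0 := by
    rintro rfl
    have h1 : ((Y⁻¹ : (Matrix (Fin n) (Fin n) E)ˣ) : Matrix (Fin n) (Fin n) E).mulVec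
        ((Y : Matrix (Fin n) (Fin n) E).mulVec v) = v := by
      rw [Matrix.mulVec_mulVec, ← Units.val_mul, inv_mul_cancel, Units.val_one, Matrix.one_mulVec]
    rw [hYv, zero_smul, Matrix.mulVec_zero] at h1
    exact hv h1.symm
  have hCj : ∀ j : ℕ, ((C : Matrix (Fin n) (Fin n) E) ^ j).mulVec v = m ^ j • v := by
    intro j
    induction j with
    | zero => simp
    | succ j ih =>
      rw [pow_succ, ← Matrix.mulVec_mulVec, hCv, Matrix.mulVec_smul, ih, smul_smul, pow_succ,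
        mul_comm]
  have hroot : ∀ j : ℕ, (Y : Matrix (Fin n) (Fin n) E).charpoly.IsRoot (m ^ j * l) := by
    intro j
    rw [← hch j]
    refine root_of_vec _ _ v hv ?_
    rw [Units.val_mul, Units.val_pow_eq_pow_val, ← Matrix.mulVec_mulVec, hYv, Matrix.mulVec_smul,
      hCj, smul_smul, mul_comm]
  have hfin : Set.Finite {z : E | (Y : Matrix (Fin n) (Fin n) E).charpoly.IsRoot z} :=
    Polynomial.finite_setOfPred_isRoot (Matrix.charpoly_monic _).ne_zero
  obtain ⟨i, j, hij, h2⟩ : ∃ i j : ℕ, i < j ∧ m ^ i * l = m ^ j * l := by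
    have h3 : ¬ Function.Injective (fun j : ℕ => m ^ j * l) := by
      intro hinj
      exact (Set.infinite_of_injective_forall_mem hinj hroot) hfin
    rw [Function.Injective] at h3
    push Not at h3
    obtain ⟨i, j, h4, h5⟩ := h3
    rcases lt_or_gt_of_ne h5 with h6 | h6
    · exact ⟨i, j, h6, h4⟩
    · exact ⟨j, i, h6, h4.symm⟩
  have hm0 : m ≠ 0 := by
    rintro rfl
    have h1 : ((C⁻¹ : (Matrix (Fin n) (Fin n) E)ˣ) : Matrix (Fin n) (Fin n) E).mulVec
        ((C : Matrix (Fin n) (Fin n) E).mulVec v) = v := by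
      rw [Matrix.mulVec_mulVec, ← Units.val_mul, inv_mul_cancel, Units.val_one, Matrix.one_mulVec]
    rw [hCv, zero_smul, Matrix.mulVec_zero] at h1
    exact hv h1.symm
  refine ⟨j - i, by omega, ?_⟩
  have h7 : m ^ i = m ^ j := mul_right_cancel₀ hl0 h2
  have h8 : m ^ i * m ^ (j - i) = m ^ i * 1 := by
    rw [← pow_add, Nat.add_sub_cancel' hij.le, mul_one, h7]
  exact mul_left_cancel₀ (pow_ne_zero i hm0) h8

/-- commutators in a torsion-free group with a realization -/
theorem comm_one {G : Type u} [Group G] {M : ℕ} {ρ : G →* Matrix (Fin M) (Fin M) ℂ}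
    {Γ : Subgroup G} {k : Type} [Field k] [NumberField k] {n : ℕ} {S : Finset (k →+* ℂ)}
    (R : Realization ρ Γ k n S) (htf : ∀ γ ∈ Γ, ∀ N : ℕ, 0 < N → γ ^ N = 1 → γ = 1)
    (x y c : Γ) (h : x * y * x⁻¹ = c * y) (hx : c * x = x * c) (hy : c * y = y * c) : c = 1 := by
  set f : Γ →* (Matrix (Fin n) (Fin n) (AlgebraicClosure k))ˣ :=
    ((Units.map ((algebraMap (𝓞 k) (AlgebraicClosure k)).mapMatrix :
      Matrix (Fin n) (Fin n) (𝓞 k) →+*
      Matrix (Fin n) (Fin n) (AlgebraicClosure k)).toMonoidHom).comp (Units.map R.r)).comp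
      (toUnits (G := Γ)).toMonoidHom with hf
  obtain ⟨N, hN, h1⟩ := nilp_of_roots (algebraMap (𝓞 k) (AlgebraicClosure k))
    (FaithfulSMul.algebraMap_injective _ _) (R.r c) (by
      intro l hl
      rw [← Matrix.charpoly_map] at hl
      refine comm_roots (f x) (f y) (f c) ?_ ?_ ?_ l hl
      · rw [← map_inv, ← map_mul, ← map_mul, ← map_mul, h]
      · rw [← map_mul, ← map_mul, hx]
      · rw [← map_mul, ← map_mul, hy])
  rw [← map_pow] at h1
  have h2 := R.unipotent _ h1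
  exact Subtype.ext (htf _ c.2 N hN (by
    have := congrArg Subtype.val h2
    simpa using this))

/-- discreteness of a single group, from the realization -/
theorem dis (k : Type) [Field k] [NumberField k] (n s : ℕ) : ∃ b : ℝ, 0 < b ∧
    ∀ (G : Type u) [Group G] (M : ℕ) (ρ : G →* Matrix (Fin M) (Fin M) ℂ)
      (Γ : Subgroup G) (S : Finset (k →+* ℂ)) (R : Realization ρ Γ k n S), S.card ≤ s →
      (∀ γ ∈ Γ, ∀ N : ℕ, 0 < N → γ ^ N = 1 → γ = 1) →
      ∀ γ : Γ, γ ≠ 1 → Big R b γ := by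
  obtain ⟨μ, hμ, hS⟩ := Pool.Agent.D0H65.MD.t_SMALL (n ^ 2 * finrank ℚ k)
  have hlμ : 0 < Real.log μ := Real.log_pos hμ
  have hsn : (0 : ℝ) < (s : ℝ) * n + 1 := by positivity
  refine ⟨Real.log μ / ((s : ℝ) * n + 1), by positivity, ?_⟩
  intro G _ M ρ Γ S R hs htf γ hγ
  have hnil : ∀ N : ℕ, 0 < N → ¬ IsNilpotent (R.r γ ^ N - 1) := by
    intro N hN h0
    rw [← map_pow] at h0
    have h1 := R.unipotent _ h0
    have h2 : (γ : G) ^ N = 1 := congrArg Subtype.val h1
    exact hγ (Subtype.ext (htf _ γ.2 N hN h2))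
  obtain ⟨σ₁, hσ₁, x, hx, hx1, -⟩ := Pool.Agent.D0H65.MD.t_PAIR k n S (R.r γ)
    ((Group.isUnit γ).map R.r) (fun σ hσ l hl => norm_one_out R γ σ hσ l hl) hnil
  have hroot : ∀ N : ℕ, 0 < N → x ^ N ≠ 1 := by
    intro N hN h1
    have h2 := congrArg norm h1
    rw [norm_pow, norm_one] at h2
    exact (one_lt_pow₀ hx1 hN.ne').ne' h2
  have hx0 : x ≠ 0 := by
    rintro rfl
    rw [norm_zero] at hx1
    linarith
  obtain ⟨f, hfm, hfi, hf0, hfx, -, σ, hσ, l, hl, hl1, hMM⟩ :=
    Pool.Agent.D0H65.MD.t_MEAS2 k n s S (R.r γ) hs ((Group.isUnit γ).map R.r)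
      (fun σ hσ l hl => R.comp' _ σ hσ l hl) σ₁ x hx hroot
  have hdeg : f.natDegree ≤ n ^ 2 * finrank ℚ k := by
    have h1 := Pool.Agent.D0H65.MD.t_DEG k n (R.r γ) σ₁ σ₁ x x hx hx
    rw [cdeg_self, Set.pair_eq_singleton] at h1
    have hfx' : aeval x (f.map (algebraMap ℤ ℚ)) = 0 := by
      rw [aeval_map_algebraMap]
      exact hfx
    have h2 : f.map (algebraMap ℤ ℚ) = minpoly ℚ x :=
      minpoly.eq_of_irreducible_of_monic
        ((Monic.irreducible_iff_irreducible_map_fraction_map (K := ℚ) hfm).mp hfi) hfx' (hfm.map _)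
    have hint : IsIntegral ℚ x := ⟨f.map (algebraMap ℤ ℚ), hfm.map _, hfx'⟩
    rw [IntermediateField.adjoin.finrank hint, ← h2, hfm.natDegree_map] at h1
    exact h1
  have h3 := hS f hfm hfi hdeg x hfx hx0 hroot
  have hl' : IsEig (conjMat σ (R.r γ)) l := hl
  refine ⟨σ, hσ, l, hl', R.eig σ hσ γ l hl', ?_⟩
  rw [div_le_iff₀ hsn]
  have hll : 0 < Real.log ‖l‖ := Real.log_pos hl1
  have h4 : Real.log μ ≤ Real.log (‖l‖ ^ (s * n)) :=
    Real.log_le_log (by linarith) (h3.trans hMM)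
  rw [Real.log_pow] at h4
  push_cast at h4
  nlinarith

end Pool.Agent.D0H56.MD
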