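import Pool.Agent.D0H56.MD.App4

/-! # Elements near the identity commute; cyclic subgroups (continued) -/

set_option autoImplicit false

open Module Polynomial NumberField Pool.Agent.H225R3.Marg

namespace Pool.Agent.D0H56.MD

universe u

/-- identity neighbourhoods from the representation -/
def V {G : Type u} [Group G] {M : ℕ} (ρ : G →* Matrix (Fin M) (Fin M) ℂ) (t : ℝ) : Set G :=
  {v | (∀ i j, ‖(ρ v - 1) i j‖ < t) ∧ ∀ i j, ‖(ρ v⁻¹ - 1) i j‖ < t}

theorem V_nhd {G : Type u} [Group G] [TopologicalSpace G] [IsTopologicalGroup G] {M : ℕ}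
    (ρ : G →* Matrix (Fin M) (Fin M) ℂ) (hρ : Continuous ρ) (t : ℝ) (ht : 0 < t) :
    V ρ t ∈ nhds (1 : G) := by
  have hM : (0 : ℝ) < M + 1 := by positivity
  have h1 := nhd ρ hρ (t * (M + 1)) (by positivity)
  rw [mul_div_cancel_right₀ _ hM.ne'] at h1
  have h2 : (fun v : G => v⁻¹) ⁻¹' {g : G | ∀ i j, ‖(ρ g - 1) i j‖ < t} ∈ nhds (1 : G) := by
    apply continuous_inv.continuousAt.preimage_mem_nhds
    rw [inv_one]
    exact h1
  exact Filter.inter_mem h1 h2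

theorem mul_entry {M : ℕ} (A B : Matrix (Fin M) (Fin M) ℂ) (a b : ℝ)
    (hA : ∀ i j, ‖A i j‖ ≤ a) (hB : ∀ i j, ‖B i j‖ ≤ b) (i j : Fin M) :
    ‖(A * B) i j‖ ≤ M * (a * b) := by
  rw [Matrix.mul_apply]
  refine (norm_sum_le _ _).trans ?_
  calc ∑ l, ‖A i l * B l j‖ ≤ ∑ l : Fin M, a * b := by
        refine Finset.sum_le_sum fun l _ => ?_
        rw [norm_mul]
        exact mul_le_mul (hA i l) (hB l j) (norm_nonneg _) ((norm_nonneg _).trans (hA i l))
    _ = M * (a * b) := by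
        rw [Finset.sum_const, Finset.card_univ, Fintype.card_fin, nsmul_eq_mul]

theorem comm_entry {G : Type u} [Group G] {M : ℕ} (ρ : G →* Matrix (Fin M) (Fin M) ℂ)
    (ε t : ℝ) (hε : ε ≤ 1) (ht0 : 0 < t) (ht : t ≤ 1) (hsm : 8 * (M : ℝ) ^ 3 * ε < 1 / 2) (v w : G)
    (hv : v ∈ V ρ ε) (hw : w ∈ V ρ t) (i j : Fin M) :
    ‖(ρ (v * w * v⁻¹ * w⁻¹) - 1) i j‖ < t / 2 ∧ ‖(ρ (w * v * w⁻¹ * v⁻¹) - 1) i j‖ < t / 2 := by
  have hone : ∀ i j : Fin M, ‖(1 : Matrix (Fin M) (Fin M) ℂ) i j‖ ≤ 1 := by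
    intro i j
    by_cases hij : i = j
    · subst hij
      rw [Matrix.one_apply_eq, norm_one]
    · rw [Matrix.one_apply_ne hij, norm_zero]
      norm_num
  have hbd : ∀ (u : G) (r : ℝ), r ≤ 1 → (∀ i j, ‖(ρ u - 1) i j‖ < r) → ∀ i j, ‖ρ u i j‖ ≤ 2 := by
    intro u r hr hu i j
    have h1 : ρ u i j = (ρ u - 1) i j + (1 : Matrix (Fin M) (Fin M) ℂ) i j := by
      rw [Matrix.sub_apply]
      ring
    rw [h1]
    refine (norm_add_le _ _).trans ?_
    have := hu i j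
    have := hone i j
    linarith
  set A := ρ v with hA
  set B := ρ w with hB
  set A' := ρ v⁻¹ with hA'
  set B' := ρ w⁻¹ with hB'
  have e1 : A * A' = 1 := by rw [hA, hA', ← map_mul, mul_inv_cancel, map_one]
  have e2 : B * B' = 1 := by rw [hB, hB', ← map_mul, mul_inv_cancel, map_one]
  have hK : ∀ i j, ‖((A - 1) * (B - 1) - (B - 1) * (A - 1)) i j‖ ≤ 2 * (M * (ε * t)) := by
    intro i j
    rw [Matrix.sub_apply]
    refine (norm_sub_le _ _).trans ?_
    have h1 := mul_entry (A - 1) (B - 1) ε t (fun i j => (hv.1 i j).le) (fun i j => (hw.1 i j).le)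
      i j
    have h2 := mul_entry (B - 1) (A - 1) t ε (fun i j => (hw.1 i j).le) (fun i j => (hv.1 i j).le)
      i j
    rw [mul_comm t ε] at h2
    linarith
  have h3 : (A - 1) * (B - 1) - (B - 1) * (A - 1) = A * B - B * A := by noncomm_ring
  rw [h3] at hK
  have hAB' : ∀ i j, ‖(A' * B') i j‖ ≤ M * (2 * 2) :=
    mul_entry A' B' 2 2 (hbd _ ε hε hv.2) (hbd _ t ht hw.2)
  have hBA' : ∀ i j, ‖(B' * A') i j‖ ≤ M * (2 * 2) :=
    mul_entry B' A' 2 2 (hbd _ t ht hw.2) (hbd _ ε hε hv.2)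
  have h4 : ρ (v * w * v⁻¹ * w⁻¹) - 1 = (A * B - B * A) * (A' * B') := by
    rw [map_mul, map_mul, map_mul, ← hA, ← hB, ← hA', ← hB', sub_mul]
    congr 1
    · simp only [mul_assoc]
    · rw [mul_assoc, ← mul_assoc A, e1, one_mul, e2]
  have h5 : ρ (w * v * w⁻¹ * v⁻¹) - 1 = (B * A - A * B) * (B' * A') := by
    rw [map_mul, map_mul, map_mul, ← hA, ← hB, ← hA', ← hB', sub_mul]
    congr 1
    · simp only [mul_assoc]
    · rw [mul_assoc, ← mul_assoc B, e2, one_mul, e1]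
  have hK' : ∀ i j, ‖(B * A - A * B) i j‖ ≤ 2 * (M * (ε * t)) := by
    intro i j
    have : B * A - A * B = -(A * B - B * A) := by rw [neg_sub]
    rw [this, Matrix.neg_apply, norm_neg]
    exact hK i j
  have hfin : (M : ℝ) * (2 * (M * (ε * t)) * (M * (2 * 2))) < t / 2 := by
    have : (M : ℝ) * (2 * (M * (ε * t)) * (M * (2 * 2))) = (8 * (M : ℝ) ^ 3 * ε) * t := by ring
    rw [this]
    nlinarith
  constructor
  · rw [h4]
    exact (mul_entry _ _ _ _ hK hAB' i j).trans_lt hfin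
  · rw [h5]
    exact (mul_entry _ _ _ _ hK' hBA' i j).trans_lt hfin

/-- the size of the neighbourhood -/
noncomputable def eps (M : ℕ) : ℝ := 1 / (16 * ((M : ℝ) + 1) ^ 3)

theorem eps_pos (M : ℕ) : 0 < eps M := by
  unfold eps
  positivity

theorem eps_le (M : ℕ) : eps M ≤ 1 := by
  unfold eps
  rw [div_le_one (by positivity)]
  have h1 : (1 : ℝ) ≤ (M : ℝ) + 1 := by
    have : (0 : ℝ) ≤ M := Nat.cast_nonneg M
    linarith
  have h2 : (1 : ℝ) ≤ ((M : ℝ) + 1) ^ 3 := one_le_pow₀ h1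
  linarith

theorem eps_small (M : ℕ) : 8 * (M : ℝ) ^ 3 * eps M < 1 / 2 := by
  unfold eps
  have h0 : (0 : ℝ) ≤ M := Nat.cast_nonneg M
  have h1 : (M : ℝ) ^ 3 < ((M : ℝ) + 1) ^ 3 := pow_lt_pow_left₀ (by linarith) h0 (by norm_num)
  have h2 : (0 : ℝ) < ((M : ℝ) + 1) ^ 3 := by positivity
  rw [mul_one_div, div_lt_iff₀ (by positivity)]
  linarith

theorem comm_V {G : Type u} [Group G] {M : ℕ} (ρ : G →* Matrix (Fin M) (Fin M) ℂ)
    (t : ℝ) (ht0 : 0 < t) (ht : t ≤ 1) (v w : G)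
    (hv : v ∈ V ρ (eps M)) (hw : w ∈ V ρ t) : v * w * v⁻¹ * w⁻¹ ∈ V ρ (t / 2) := by
  have h := comm_entry ρ (eps M) t (eps_le M) ht0 ht (eps_small M) v w hv hw
  refine ⟨fun i j => (h i j).1, fun i j => ?_⟩
  have e : (v * w * v⁻¹ * w⁻¹)⁻¹ = w * v * w⁻¹ * v⁻¹ := by group
  rw [e]
  exact (h i j).2

/-- elements near the identity commute -/
theorem commute_near {G : Type u} [Group G] {M : ℕ} {ρ : G →* Matrix (Fin M) (Fin M) ℂ}
    {Γ : Subgroup G} {k : Type} [Field k] [NumberField k] {n : ℕ} {S : Finset (k →+* ℂ)}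
    (R : Realization ρ Γ k n S) (htf : ∀ γ ∈ Γ, ∀ N : ℕ, 0 < N → γ ^ N = 1 → γ = 1)
    (g v w : G) (hv : v ∈ V ρ (eps M)) (hw : w ∈ V ρ (eps M)) (hvΓ : g * v * g⁻¹ ∈ Γ)
    (hwΓ : g * w * g⁻¹ ∈ Γ) : v * w = w * v := by
  obtain ⟨b, hb, hdis⟩ := dis.{u} k n S.card
  have hδ : 0 < Real.exp b - 1 := by
    have := Real.add_one_lt_exp hb.ne'
    linarith
  have hM1 : (0 : ℝ) < (M : ℝ) + 1 := by positivity
  obtain ⟨i₀, hi₀⟩ : ∃ i₀ : ℕ, eps M * (1 / 2) ^ i₀ < (Real.exp b - 1) / (M + 1) := by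
    have h1 : 0 < (Real.exp b - 1) / (M + 1) := div_pos hδ hM1
    obtain ⟨i₀, h2⟩ := exists_pow_lt_of_lt_one h1 (by norm_num : (1 : ℝ) / 2 < 1)
    refine ⟨i₀, lt_of_le_of_lt ?_ h2⟩
    have h3 : (0 : ℝ) ≤ (1 / 2) ^ i₀ := by positivity
    nlinarith [eps_le M]
  have hP : ∀ j i : ℕ, i + j = i₀ → ∀ v ∈ V ρ (eps M), ∀ w ∈ V ρ (eps M * (1 / 2) ^ i),
      g * v * g⁻¹ ∈ Γ → g * w * g⁻¹ ∈ Γ → v * w = w * v := by
    intro j
    induction j with
    | zero =>
      intro i hi v hv w hw hvΓ hwΓ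
      rw [add_zero] at hi
      subst hi
      have hw1 : w = 1 := by
        by_contra hne
        have hne' : (⟨g * w * g⁻¹, hwΓ⟩ : Γ) ≠ 1 := by
          intro h0
          apply hne
          have h1 : g * w * g⁻¹ = 1 := congrArg Subtype.val h0
          rw [mul_inv_eq_one] at h1
          exact mul_eq_left.mp h1
        obtain ⟨σ, -, l, -, hl, hlow⟩ := hdis G M ρ Γ S R le_rfl htf _ hne'
        change IsEig (ρ (g * w * g⁻¹)) l at hl
        rw [IsEig, charpoly_conj] at hl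
        have h2 := close_eig (ρ w) (Real.exp b - 1) hδ
          (fun i j => (hw.1 i j).trans hi₀) l hl
        have hl0 : 0 < ‖l‖ := by
          rw [norm_pos_iff]
          rintro rfl
          rw [norm_zero, Real.log_zero] at hlow
          linarith
        have h3 : Real.exp b ≤ ‖l‖ := (Real.le_log_iff_exp_le hl0).mp hlow
        have h4 : ‖l‖ ≤ ‖l - 1‖ + 1 := by
          have := norm_add_le (l - 1) 1
          rwa [sub_add_cancel, norm_one] at this
        linarith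
      rw [hw1, mul_one, one_mul]
    | succ j ih =>
      intro i hi v hv w hw hvΓ hwΓ
      have hpow : (0 : ℝ) < (1 / 2) ^ i := by positivity
      have hpow1 : ((1 : ℝ) / 2) ^ i ≤ 1 := pow_le_one₀ (by norm_num) (by norm_num)
      have ht0 : 0 < eps M * (1 / 2) ^ i := mul_pos (eps_pos M) hpow
      have ht1 : eps M * (1 / 2) ^ i ≤ eps M := by
        nlinarith [eps_pos M]
      have hwε : w ∈ V ρ (eps M) :=
        ⟨fun a b => (hw.1 a b).trans_le ht1, fun a b => (hw.2 a b).trans_le ht1⟩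
      have hc := comm_V ρ _ ht0 (ht1.trans (eps_le M)) v w hv hw
      have e1 : eps M * (1 / 2) ^ i / 2 = eps M * (1 / 2) ^ (i + 1) := by
        rw [pow_succ]
        ring
      rw [e1] at hc
      set c := v * w * v⁻¹ * w⁻¹ with hcdef
      have hcΓ : g * c * g⁻¹ ∈ Γ := by
        have e2 : g * c * g⁻¹ = (g * v * g⁻¹) * (g * w * g⁻¹) * (g * v * g⁻¹)⁻¹ *
          (g * w * g⁻¹)⁻¹ := by
          rw [hcdef]
          group
        rw [e2]
        exact Γ.mul_mem (Γ.mul_mem (Γ.mul_mem hvΓ hwΓ) (Γ.inv_mem hvΓ)) (Γ.inv_mem hwΓ)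
      have h1 : v * c = c * v := ih (i + 1) (by omega) v hv c hc hvΓ hcΓ
      have h2 : w * c = c * w := ih (i + 1) (by omega) w hwε c hc hwΓ hcΓ
      have h3 := comm_one R htf ⟨g * v * g⁻¹, hvΓ⟩ ⟨g * w * g⁻¹, hwΓ⟩ ⟨g * c * g⁻¹, hcΓ⟩
        (by
          apply Subtype.ext
          change (g * v * g⁻¹) * (g * w * g⁻¹) * (g * v * g⁻¹)⁻¹ = (g * c * g⁻¹) * (g * w * g⁻¹)
          rw [hcdef]
          group)
        (by
          apply Subtype.ext
          change (g * c * g⁻¹) * (g * v * g⁻¹) = (g * v * g⁻¹) * (g * c * g⁻¹)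
          have e3 : (g * c * g⁻¹) * (g * v * g⁻¹) = g * (c * v) * g⁻¹ := by group
          have e4 : (g * v * g⁻¹) * (g * c * g⁻¹) = g * (v * c) * g⁻¹ := by group
          rw [e3, e4, h1])
        (by
          apply Subtype.ext
          change (g * c * g⁻¹) * (g * w * g⁻¹) = (g * w * g⁻¹) * (g * c * g⁻¹)
          have e3 : (g * c * g⁻¹) * (g * w * g⁻¹) = g * (c * w) * g⁻¹ := by group
          have e4 : (g * w * g⁻¹) * (g * c * g⁻¹) = g * (w * c) * g⁻¹ := by group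
          rw [e3, e4, h2])
      have h4 : g * c * g⁻¹ = 1 := congrArg Subtype.val h3
      rw [mul_inv_eq_one] at h4
      have h5 : c = 1 := mul_eq_left.mp h4
      rw [hcdef, mul_inv_eq_one, mul_inv_eq_iff_eq_mul] at h5
      exact h5
  refine hP i₀ 0 (by omega) v hv w ?_ hvΓ hwΓ
  rw [pow_zero, mul_one]
  exact hw

/-- two commuting elements of a torsion-free group with a relation are powers of one element -/
theorem cyc {H : Type*} [Group H] (htf : ∀ h : H, ∀ N : ℕ, 0 < N → h ^ N = 1 → h = 1) (x y : H)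
    (hxy : x * y = y * x) (p q : ℤ) (hpq : (p, q) ≠ (0, 0)) (h : x ^ p * y ^ q = 1) :
    ∃ z : H, x ∈ Subgroup.zpowers z ∧ y ∈ Subgroup.zpowers z := by
  have hc : Commute x y := hxy
  have hd : 0 < Int.gcd p q := by
    rw [Int.gcd_pos_iff]
    by_contra hcon
    push Not at hcon
    exact hpq (by rw [hcon.1, hcon.2])
  obtain ⟨p', q', hcop, hp, hq⟩ := Int.exists_gcd_one hd
  have h1 : x ^ p' * y ^ q' = 1 := by
    apply htf _ (Int.gcd p q) hd
    rw [((hc.zpow_zpow p' q').mul_pow (Int.gcd p q)), ← zpow_natCast, ← zpow_natCast, ← zpow_mul,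
      ← zpow_mul, ← hp, ← hq]
    exact h
  obtain ⟨u, v, huv⟩ := Int.isCoprime_iff_gcd_eq_one.mpr hcop
  have hxp : x ^ p' = y ^ (-q') := by
    rw [zpow_neg]
    exact eq_inv_of_mul_eq_one_left h1
  refine ⟨x ^ v * y ^ (-u), ⟨q', ?_⟩, ⟨-p', ?_⟩⟩
  · change (x ^ v * y ^ (-u)) ^ q' = x
    rw [(hc.zpow_zpow v (-u)).mul_zpow, ← zpow_mul, ← zpow_mul]
    have e1 : y ^ (-u * q') = x ^ (u * p') := by
      have : -u * q' = -q' * u := by ring
      rw [this, zpow_mul, ← hxp, ← zpow_mul, mul_comm p' u]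
    rw [e1, ← zpow_add, add_comm, huv, zpow_one]
  · change (x ^ v * y ^ (-u)) ^ (-p') = y
    rw [(hc.zpow_zpow v (-u)).mul_zpow, ← zpow_mul, ← zpow_mul]
    have e1 : x ^ (v * -p') = y ^ (v * q') := by
      have : v * -p' = p' * -v := by ring
      rw [this, zpow_mul, hxp, ← zpow_mul]
      congr 1
      ring
    rw [e1, ← zpow_add]
    have e2 : v * q' + -u * -p' = 1 := by linarith
    rw [e2, zpow_one]

end Pool.Agent.D0H56.MD
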