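import Pool.Agent.D0H56.MD.App5

/-! # Cyclic subgroups -/

set_option autoImplicit false

open Module Polynomial NumberField Pool.Agent.H225R3.Marg

namespace Pool.Agent.D0H56.MD

universe u

/-- pairwise commuting and dependent elements lie in a cyclic subgroup -/
theorem cyc_set {H : Type*} [Group H] (htf : ∀ h : H, ∀ N : ℕ, 0 < N → h ^ N = 1 → h = 1)
    (X : Set H) (hcomm : ∀ x ∈ X, ∀ y ∈ X, x * y = y * x)
    (hdep : ∀ x ∈ X, ∀ y ∈ X, ∃ p q : ℤ, (p, q) ≠ (0, 0) ∧ x ^ p * y ^ q = 1)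
    (hroot : ∀ x : H, x ≠ 1 → ∃ B : ℕ, ∀ (z : H) (N : ℕ), z ^ N = x → N ≤ B) :
    ∃ z : H, ∀ x ∈ X, x ∈ Subgroup.zpowers z := by
  classical
  by_cases hX : ∀ x ∈ X, x = 1
  · exact ⟨1, fun x hx => by rw [hX x hx]; exact Subgroup.one_mem _⟩
  push Not at hX
  obtain ⟨x₁, hx₁, hne⟩ := hX
  set K := Subgroup.closure X with hK
  have hKc : ∀ a ∈ K, ∀ b ∈ X, a * b = b * a := by
    intro a ha b hb
    have h1 : K ≤ Subgroup.centralizer {b} := by
      rw [hK, Subgroup.closure_le]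
      intro x hx
      rw [SetLike.mem_coe, Subgroup.mem_centralizer_iff]
      intro y hy
      rw [Set.mem_singleton_iff] at hy
      rw [hy]
      exact hcomm b hb x hx
    have h2 := h1 ha
    rw [Subgroup.mem_centralizer_iff] at h2
    exact (h2 b rfl).symm
  obtain ⟨B, hB⟩ := hroot x₁ hne
  set P : ℕ → Prop := fun N => ∃ z ∈ K, z ^ N = x₁ with hP
  have hP1 : P 1 := ⟨x₁, Subgroup.subset_closure hx₁, pow_one _⟩
  have h1B : 1 ≤ B := hB x₁ 1 (pow_one _)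
  have hN0 : P (Nat.findGreatest P B) := Nat.findGreatest_spec h1B hP1
  have hN1 : 1 ≤ Nat.findGreatest P B := Nat.le_findGreatest h1B hP1
  set N₀ := Nat.findGreatest P B with hN₀
  have hmax : ∀ N : ℕ, P N → N ≤ N₀ := by
    rintro N ⟨z, hz, hzN⟩
    exact Nat.le_findGreatest (hB z N hzN) ⟨z, hz, hzN⟩
  obtain ⟨z₀, hz₀, hz₀N⟩ := hN0
  refine ⟨z₀, fun x hx => ?_⟩
  obtain ⟨p, q, hpq, hrel⟩ := hdep x₁ hx₁ x hx
  have hxK : x ∈ K := Subgroup.subset_closure hx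
  have htf' : ∀ h : K, ∀ N : ℕ, 0 < N → h ^ N = 1 → h = 1 := by
    intro h N hN h1
    exact Subtype.ext (htf _ N hN (by
      have := congrArg Subtype.val h1
      simpa using this))
  obtain ⟨⟨z', hz'⟩, ⟨a, ha⟩, ⟨b, hb⟩⟩ := cyc htf' (⟨z₀, hz₀⟩ : K) (⟨x, hxK⟩ : K)
    (Subtype.ext (hKc z₀ hz₀ x hx)) ((N₀ : ℤ) * p) q (by
      intro h0
      rw [Prod.mk.injEq] at h0
      apply hpq
      rw [h0.2]
      rcases mul_eq_zero.mp h0.1 with h1 | h1
      · omega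
      · rw [h1]) (by
      apply Subtype.ext
      change z₀ ^ ((N₀ : ℤ) * p) * x ^ q = 1
      rw [zpow_mul, zpow_natCast, hz₀N]
      exact hrel)
  have ha' : z' ^ a = z₀ := congrArg Subtype.val ha
  have hb' : z' ^ b = x := congrArg Subtype.val hb
  have ha0 : a ≠ 0 := by
    rintro rfl
    rw [zpow_zero] at ha'
    rw [← ha', one_pow] at hz₀N
    exact hne hz₀N.symm
  have hx1z : z' ^ (a * (N₀ : ℤ)) = x₁ := by
    rw [zpow_mul, ha', zpow_natCast, hz₀N]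
  have habs : a.natAbs * N₀ ≤ N₀ := by
    apply hmax
    rcases Int.natAbs_eq a with h1 | h1
    · refine ⟨z', hz', ?_⟩
      rw [← zpow_natCast, Nat.cast_mul, ← h1, hx1z]
    · refine ⟨z'⁻¹, K.inv_mem hz', ?_⟩
      rw [← zpow_natCast, Nat.cast_mul, inv_zpow', ← neg_mul, ← h1, hx1z]
  have ha1 : a.natAbs = 1 := by
    have h1 : a.natAbs ≤ 1 := by
      by_contra hcon
      push Not at hcon
      have : 2 * N₀ ≤ a.natAbs * N₀ := Nat.mul_le_mul_right _ hcon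
      omega
    have h2 : a.natAbs ≠ 0 := Int.natAbs_ne_zero.mpr ha0
    omega
  have hz'z : z' ∈ Subgroup.zpowers z₀ := by
    rcases Int.natAbs_eq a with h1 | h1
    · rw [ha1] at h1
      rw [h1] at ha'
      refine ⟨1, ?_⟩
      change z₀ ^ (1 : ℤ) = z'
      rw [zpow_one, ← ha']
      simp
    · rw [ha1] at h1
      rw [h1] at ha'
      refine ⟨-1, ?_⟩
      change z₀ ^ (-1 : ℤ) = z'
      rw [← ha']
      simp
  rw [← hb']
  exact Subgroup.zpow_mem _ hz'z b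

/-- elements of a torsion-free group with a realization have finitely many roots -/
theorem roots_bdd {G : Type u} [Group G] {M : ℕ} {ρ : G →* Matrix (Fin M) (Fin M) ℂ}
    {Γ : Subgroup G} {k : Type} [Field k] [NumberField k] {n : ℕ} {S : Finset (k →+* ℂ)}
    (R : Realization ρ Γ k n S) (htf : ∀ γ ∈ Γ, ∀ N : ℕ, 0 < N → γ ^ N = 1 → γ = 1)
    (x : Γ) (hx : x ≠ 1) : ∃ B : ℕ, ∀ (z : Γ) (N : ℕ), z ^ N = x → N ≤ B := by
  obtain ⟨b, hb, hdis⟩ := dis.{u} k n S.card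
  obtain ⟨C, hC⟩ : ∃ C : ℝ, ∀ i j, ‖ρ x i j‖ ≤ C := by
    refine ⟨∑ i, ∑ j, ‖ρ x i j‖, fun i j => ?_⟩
    calc ‖ρ x i j‖ ≤ ∑ j, ‖ρ x i j‖ := Finset.single_le_sum (f := fun j => ‖ρ x i j‖)
          (fun _ _ => norm_nonneg _) (Finset.mem_univ j)
      _ ≤ ∑ i, ∑ j, ‖ρ x i j‖ := Finset.single_le_sum (f := fun i => ∑ j, ‖ρ x i j‖)
          (fun _ _ => Finset.sum_nonneg fun _ _ => norm_nonneg _) (Finset.mem_univ i)
  obtain ⟨B, hB⟩ := exists_nat_ge (Real.log (|(M : ℝ) * C| + 1) / b)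
  refine ⟨B, fun z N hzN => ?_⟩
  rcases Nat.eq_zero_or_pos N with hN | hN
  · omega
  have hz : z ≠ 1 := by
    rintro rfl
    rw [one_pow] at hzN
    exact hx hzN.symm
  obtain ⟨σ, -, l, -, hl, hlow⟩ := hdis G M ρ Γ S R le_rfl htf z hz
  have hl0 : 0 < ‖l‖ := by
    rw [norm_pos_iff]
    rintro rfl
    rw [norm_zero, Real.log_zero] at hlow
    linarith
  obtain ⟨v, hv, hAv⟩ := exists_eigvec (ρ z) l hl
  have h1 : (ρ x).mulVec v = l ^ N • v := by
    have h2 : ∀ j : ℕ, ((ρ (z : G)) ^ j).mulVec v = l ^ j • v := by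
      intro j
      induction j with
      | zero => simp
      | succ j ih =>
        rw [pow_succ, ← Matrix.mulVec_mulVec, hAv, Matrix.mulVec_smul, ih, smul_smul, pow_succ,
          mul_comm]
    have h3 : (x : G) = (z : G) ^ N := by rw [← hzN]; rfl
    rw [h3, map_pow]
    exact h2 N
  have h4 : ‖l ^ N‖ ≤ M * C := eig_le (ρ x) (l ^ N) C v hv h1 hC
  rw [norm_pow] at h4
  have h5 : (N : ℝ) * Real.log ‖l‖ ≤ Real.log (|(M : ℝ) * C| + 1) := by
    rw [← Real.log_pow]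
    apply Real.log_le_log (pow_pos hl0 N)
    have := le_abs_self ((M : ℝ) * C)
    linarith
  have h6 : (N : ℝ) * b ≤ Real.log (|(M : ℝ) * C| + 1) := by
    refine le_trans ?_ h5
    exact mul_le_mul_of_nonneg_left hlow (Nat.cast_nonneg N)
  have h7 : (N : ℝ) ≤ Real.log (|(M : ℝ) * C| + 1) / b := by
    rw [le_div_iff₀ hb]
    exact h6
  exact_mod_cast h7.trans hB

/-- torsion-free subgroups as types -/
theorem tf_sub {G : Type u} [Group G] {Γ : Subgroup G}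
    (htf : ∀ γ ∈ Γ, ∀ N : ℕ, 0 < N → γ ^ N = 1 → γ = 1) (γ : Γ) (N : ℕ) (hN : 0 < N)
    (h : γ ^ N = 1) : γ = 1 :=
  Subtype.ext (htf _ γ.2 N hN (by
    have := congrArg Subtype.val h
    simpa using this))

/-- eigenvalues of realized matrices are not zero -/
theorem eig_ne {G : Type u} [Group G] {M : ℕ} {ρ : G →* Matrix (Fin M) (Fin M) ℂ}
    {Γ : Subgroup G} {k : Type} [Field k] [NumberField k] {n : ℕ} {S : Finset (k →+* ℂ)}
    (R : Realization ρ Γ k n S) (γ : Γ) (σ : k →+* ℂ) (l : ℂ)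
    (hl : IsEig (conjMat σ (R.r γ)) l) : l ≠ 0 := by
  set A : Matrix (Fin n) (Fin n) ℂ := (emb σ).mapMatrix (R.r γ) with hA
  set B : Matrix (Fin n) (Fin n) ℂ := (emb σ).mapMatrix (R.r γ⁻¹) with hB
  have hBA : B * A = 1 := by
    rw [hA, hB, ← map_mul, ← map_mul, inv_mul_cancel, map_one, map_one]
  obtain ⟨v, hv, hAv⟩ := exists_eigvec A l hl
  rintro rfl
  have h3 : B.mulVec (A.mulVec v) = v := by
    rw [Matrix.mulVec_mulVec, hBA, Matrix.one_mulVec]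
  rw [hAv, zero_smul, Matrix.mulVec_zero] at h3
  exact hv h3.symm

end Pool.Agent.D0H56.MD
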