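import Pool.Agent.D0H56.MD.App3

/-! # The exceptional embedding -/

set_option autoImplicit false

open Module Polynomial NumberField Pool.Agent.H225R3.Marg

namespace Pool.Agent.D0H56.MD

universe u

/-- an eigenvalue under a given embedding which is no root of unity -/
theorem eig_nontors {G : Type u} [Group G] {M : ℕ} {ρ : G →* Matrix (Fin M) (Fin M) ℂ}
    {Γ : Subgroup G} {k : Type} [Field k] [NumberField k] {n : ℕ} {S : Finset (k →+* ℂ)}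
    (R : Realization ρ Γ k n S) (γ : Γ) (hγ : ∀ N : ℕ, 0 < N → γ ^ N ≠ 1) (σ : k →+* ℂ) :
    ∃ y : ℂ, IsEig (conjMat σ (R.r γ)) y ∧ ∀ N : ℕ, 0 < N → y ^ N ≠ 1 := by
  obtain ⟨x₀, hx₀, hnr⟩ : ∃ x₀ : AlgebraicClosure k,
      ((R.r γ).map (algebraMap (𝓞 k) (AlgebraicClosure k))).charpoly.IsRoot x₀ ∧
      ∀ N : ℕ, 0 < N → x₀ ^ N ≠ 1 := by
    by_contra hcon
    push Not at hcon
    obtain ⟨N, hN, hN2⟩ := nilp_of_roots (algebraMap (𝓞 k) (AlgebraicClosure k))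
      (FaithfulSMul.algebraMap_injective _ _) (R.r γ) (by
        intro l hl
        rw [← Matrix.charpoly_map] at hl
        exact hcon l hl)
    rw [← map_pow] at hN2
    exact hγ N hN (R.unipotent _ hN2)
  obtain ⟨φ, -, -, -, h3⟩ := Pool.Agent.D0H65.MD.t_EXT k σ
  refine ⟨φ x₀, h3 n _ x₀ hx₀, fun N hN h => hnr N hN ?_⟩
  apply φ.injective
  rw [map_pow, h, map_one]

/-- **Exceptional embedding.** -/
theorem exceptional (n s : ℕ) (δ a : ℝ) (hδ : 0 ≤ δ) (ha : 0 ≤ a)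
    (hab : a < (1 - 3 * δ) / 8) : ∃ c : ℝ, 0 < c ∧
    ∀ (k : Type) [Field k] [NumberField k], ∃ σ₀ : k →+* ℂ,
    ∀ (G : Type u) [Group G] (M : ℕ) (ρ : G →* Matrix (Fin M) (Fin M) ℂ)
      (Γ : Subgroup G) (S : Finset (k →+* ℂ)) (R : Realization ρ Γ k n S), S.card ≤ s →
      (∃ σ₂ : k →+* ℂ, σ₂ ∉ S ∧ (cdeg σ₀ σ₂ : ℝ) ≤ (finrank ℚ k : ℝ) ^ (1 + δ)) →
      ∀ γ : Γ, (∀ N : ℕ, 0 < N → γ ^ N ≠ 1) → Big R (c * (finrank ℚ k : ℝ) ^ a) γ := by
  obtain ⟨c, hc, h⟩ := two_elt.{u} n s δ a hδ ha hab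
  refine ⟨c, hc, fun k _ _ => ?_⟩
  by_cases hex : ∃ (G : Type u) (_ : Group G) (M : ℕ) (ρ : G →* Matrix (Fin M) (Fin M) ℂ)
      (Γ : Subgroup G) (S : Finset (k →+* ℂ)) (R : Realization ρ Γ k n S), S.card ≤ s ∧
      ∃ γ : Γ, (∀ N : ℕ, 0 < N → γ ^ N ≠ 1) ∧ ¬ Big R (c * (finrank ℚ k : ℝ) ^ a) γ
  · obtain ⟨G₁, _, M₁, ρ₁, Γ₁, S₁, R₁, hs₁, γ₁, hγ₁, hsmall⟩ := hex
    have hnil : ∀ N : ℕ, 0 < N → ¬ IsNilpotent (R₁.r γ₁ ^ N - 1) := by
      intro N hN h0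
      rw [← map_pow] at h0
      exact hγ₁ N hN (R₁.unipotent _ h0)
    obtain ⟨σ₁, hσ₁, x, hx, hx1, -⟩ := Pool.Agent.D0H65.MD.t_PAIR k n S₁ (R₁.r γ₁)
      ((Group.isUnit γ₁).map R₁.r) (fun σ hσ l hl => norm_one_out R₁ γ₁ σ hσ l hl) hnil
    refine ⟨σ₁, ?_⟩
    rintro G _ M ρ Γ S R hs ⟨σ₂, hσ₂, hcd⟩ γ hγ
    obtain ⟨y, hy, hyr⟩ := eig_nontors R γ hγ σ₂
    have hy1 : ‖y‖ = 1 := norm_one_out R γ σ₂ hσ₂ y hy
    have hx' : IsEig (conjMat σ₁ (R₁.r γ₁)) x := hx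
    have hMI : MI x y := by
      refine ⟨?_, ?_, ?_⟩
      · rintro rfl
        rw [norm_zero] at hx1
        linarith
      · rintro rfl
        rw [norm_zero] at hy1
        exact zero_ne_one hy1
      · intro p q hpq
        have hp : p = 0 := by
          have h1 : ‖x‖ ^ p = 1 := by
            have := congrArg norm hpq
            rw [norm_mul, norm_zpow, norm_zpow, hy1, one_zpow, mul_one, norm_one] at this
            exact this
          by_contra h0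
          exact h0 ((zpow_eq_one_iff_right₀ (norm_nonneg _) hx1.ne').1 h1)
        refine ⟨hp, ?_⟩
        rw [hp, zpow_zero, one_mul] at hpq
        by_contra h0
        rcases lt_or_gt_of_ne h0 with h1 | h1
        · refine hyr q.natAbs (by omega) ?_
          have h2 : y ^ ((q.natAbs : ℤ)) = 1 := by
            have : ((q.natAbs : ℤ)) = -q := by omega
            rw [this, zpow_neg, hpq, inv_one]
          rwa [zpow_natCast] at h2
        · refine hyr q.natAbs (by omega) ?_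
          have h2 : y ^ ((q.natAbs : ℤ)) = 1 := by
            have : ((q.natAbs : ℤ)) = q := by omega
            rw [this, hpq]
          rwa [zpow_natCast] at h2
    rcases h G₁ G M₁ M ρ₁ ρ Γ₁ Γ k S₁ S R₁ R hs₁ hs γ₁ γ σ₁ σ₂ x y hcd hx' hy hMI with h1 | h1
    · exact absurd h1 hsmall
    · exact h1
  · obtain ⟨σ₀⟩ : Nonempty (k →+* ℂ) := inferInstance
    refine ⟨σ₀, ?_⟩
    intro G _ M ρ Γ S R hs _ γ hγ
    by_contra hcon
    exact hex ⟨G, _, M, ρ, Γ, S, R, hs, γ, hγ, hcon⟩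

end Pool.Agent.D0H56.MD
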