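import Pool.Agent.D0H56.MD.Defs
import Pool.Agent.H225R3.Marg5

/-!
# Project MD: statements of the modules of the application
-/

set_option autoImplicit false

open Module Polynomial NumberField Pool.Agent.H225R3.Marg

namespace Pool.Agent.D0H56.MD

/-- the degree of the compositum of two conjugates of `k` -/
noncomputable def cdeg {k : Type} [Field k] (σ τ : k →+* ℂ) : ℕ :=
  finrank ℚ (IntermediateField.adjoin ℚ (Set.range σ ∪ Set.range τ))

/-- **MEAS.** Let `x` be an eigenvalue of `σ₁(A)`, not a root of unity, `f` its minimal polynomial.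
All eigenvalues outside `S` have absolute value at most `1`.

Proof. Make `ℂ` a `k`-algebra by `σ₁` and let `L = k(x)`. By Kronecker (`x` is a unit and no root of
unity) there is a conjugate `x'` of `x` with `|x'| > 1`, `x' = τ₀ x`. An embedding `τ` of `L` with
`τ x = x'` lies above an embedding `σ'` of `k` such that `x'` is an eigenvalue of `σ'(A)`, so
`σ' ∈ S`: `deg_bound`. All conjugates `x'` of `x` with `|x'| > 1` are eigenvalues of `σ'(A)` for
`σ' ∈ S`; there are at most `s n` of them, and `M(f)` is the product of their absolute values; `l` is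
the largest one. (Compare the proof of `Pool.Agent.Y399.MG.gap_of`.) -/
def S_MEAS : Prop := ∀ (k : Type) [Field k] [NumberField k] (n s : ℕ) (S : Finset (k →+* ℂ))
  (A : Matrix (Fin n) (Fin n) (𝓞 k)), S.card ≤ s → IsUnit A →
  (∀ σ : k →+* ℂ, σ ∉ S → ∀ l : ℂ, ((emb σ).mapMatrix A).charpoly.IsRoot l → ‖l‖ ≤ 1) →
  ∀ (σ₁ : k →+* ℂ) (x : ℂ), ((emb σ₁).mapMatrix A).charpoly.IsRoot x →
  (∀ N : ℕ, 0 < N → x ^ N ≠ 1) →
  ∃ f : ℤ[X], f.Monic ∧ Irreducible f ∧ aeval x f = 0 ∧ finrank ℚ k ≤ f.natDegree * s ∧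
    ∃ σ ∈ S, ∃ l : ℂ, ((emb σ).mapMatrix A).charpoly.IsRoot l ∧ 1 < ‖l‖ ∧ MM f ≤ ‖l‖ ^ (s * n)

/-- **DEG.** `ℚ(x, y)` is contained in the compositum of `σ₁ k` and `σ₂ k` with `x` and `y`. -/
def S_DEG : Prop := ∀ (k : Type) [Field k] [NumberField k] (n : ℕ)
  (A : Matrix (Fin n) (Fin n) (𝓞 k)) (σ₁ σ₂ : k →+* ℂ) (x y : ℂ),
  ((emb σ₁).mapMatrix A).charpoly.IsRoot x → ((emb σ₂).mapMatrix A).charpoly.IsRoot y →
  finrank ℚ (IntermediateField.adjoin ℚ {x, y}) ≤ n ^ 2 * cdeg σ₁ σ₂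

/-- **SMALL.** A lower bound for polynomials of bounded degree (Dobrowolski in
`Pool.Agent.H388SL`, or Northcott/Kronecker). -/
def S_SMALL : Prop := ∀ d₀ : ℕ, ∃ μ : ℝ, 1 < μ ∧ ∀ f : ℤ[X], f.Monic → Irreducible f →
  f.natDegree ≤ d₀ → ∀ x : ℂ, aeval x f = 0 → x ≠ 0 → (∀ N : ℕ, 0 < N → x ^ N ≠ 1) → μ ≤ MM f

/-- **ELT.** The gap for pairs of conjugate multiplicatively independent eigenvalues, from `S_E`,
`S_MEAS`, `S_DEG`, `S_SMALL`. -/
def S_ELT : Prop := ∀ (n s : ℕ) (δ : ℝ), δ < 1 / 5 → ∃ μ : ℝ, 1 < μ ∧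
  ∀ (k : Type) [Field k] [NumberField k] (S : Finset (k →+* ℂ)) (A : Matrix (Fin n) (Fin n) (𝓞 k)),
  S.card ≤ s → IsUnit A →
  (∀ σ : k →+* ℂ, σ ∉ S → ∀ l : ℂ, ((emb σ).mapMatrix A).charpoly.IsRoot l → ‖l‖ ≤ 1) →
  ∀ (σ₁ σ₂ : k →+* ℂ) (x y : ℂ), (cdeg σ₁ σ₂ : ℝ) ≤ (finrank ℚ k : ℝ) ^ (1 + δ) →
  ((emb σ₁).mapMatrix A).charpoly.IsRoot x → ((emb σ₂).mapMatrix A).charpoly.IsRoot y →
  minpoly ℚ x = minpoly ℚ y → MI x y →
  ∃ σ ∈ S, ∃ l : ℂ, ((emb σ).mapMatrix A).charpoly.IsRoot l ∧ 1 < ‖l‖ ∧ μ ≤ ‖l‖ ^ (s * n)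

/-- **TWO.** If any two conjugates of `x` over `k` are multiplicatively dependent then some power of
`x` has degree at most `2` over `k`.

Proof. For a conjugate `y = τ x` let `x^a y^b = 1`, `(a,b) ≠ 0`. Then `a, b ≠ 0` and, iterating,
`x^(a^r) = (τ^r x)^((-b)^r)`, so `|a| = |b|` (take `τ^r x = x`). With `N` the product of the `|a|`
one has `y^N = x^(± N)` for all conjugates `y`, so `x^N` has at most two conjugates. -/
def S_TWO : Prop := ∀ (k : Type) [Field k] [NumberField k] (x : AlgebraicClosure k), x ≠ 0 →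
  (∀ N : ℕ, 0 < N → x ^ N ≠ 1) →
  (∀ y : AlgebraicClosure k, minpoly k x = minpoly k y → ¬ MI x y) →
  ∃ N : ℕ, 0 < N ∧ (minpoly k (x ^ N)).natDegree ≤ 2

/-- A division algebra `D` of odd degree over its centre `Z`, with `[Z : k] ≤ 2`, inside the
algebra of matrices over `k`: every nonzero element of `D` is invertible in `D`, the centre has
dimension at most `2` over `k` and the dimension of `D` over the centre is odd. -/
def OddDivision {k : Type} [Field k] {n : ℕ} (D : Subalgebra k (Matrix (Fin n) (Fin n) k)) : Prop :=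
  (∀ a ∈ D, a ≠ 0 → ∃ b ∈ D, a * b = 1) ∧ finrank k (Subalgebra.center k D) ≤ 2 ∧
    ∃ q : ℕ, Odd q ∧ finrank k D = finrank k (Subalgebra.center k D) * q

/-- **DIVI.** In a division algebra of odd degree (centre `Z`, `[Z : k] ≤ 2`) an element `a` without
central powers has eigenvalues no power of which has degree `≤ 2` over `k`.

Proof. For `b = a^N` the degree `[Z(b) : Z]` divides `[D : Z]` (`D` is a `Z(b)`-vector space), so it
is odd. `x^N` is a root of the minimal polynomial of `b` over `k` (which is irreducible as `k(b)` is a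
field), so `[k(x^N) : k] = [k(b) : k]`. If it is `≤ 2` then `[Z(b) : Z] ≤ 2`, so it is `1`, `b ∈ Z`, a
contradiction. -/
def S_DIVI : Prop := ∀ (k : Type) [Field k] [NumberField k] (n : ℕ)
  (D : Subalgebra k (Matrix (Fin n) (Fin n) k)), OddDivision D → ∀ a : Matrix (Fin n) (Fin n) k,
  a ∈ D → (∀ N : ℕ, 0 < N → ∃ b ∈ D, a ^ N * b ≠ b * a ^ N) →
  ∀ x : AlgebraicClosure k, (a.map (algebraMap k (AlgebraicClosure k))).charpoly.IsRoot x →
  ∀ N : ℕ, 0 < N → 3 ≤ (minpoly k (x ^ N)).natDegree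

/-- **EXT.** Conjugates over `k` in an algebraic closure of `k` are, under an extension to the
algebraic closure of any embedding of `k`, conjugate over `ℚ`; eigenvalues go to eigenvalues. -/
def S_EXT : Prop := ∀ (k : Type) [Field k] [NumberField k] (σ : k →+* ℂ),
  ∃ φ : AlgebraicClosure k →+* ℂ, φ.comp (algebraMap k (AlgebraicClosure k)) = σ ∧
  (∀ x y : AlgebraicClosure k, minpoly k x = minpoly k y → minpoly ℚ (φ x) = minpoly ℚ (φ y)) ∧
  (∀ x y : AlgebraicClosure k, MI x y → MI (φ x) (φ y)) ∧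
  ∀ (n : ℕ) (A : Matrix (Fin n) (Fin n) (𝓞 k)) (x : AlgebraicClosure k),
    (A.map (algebraMap (𝓞 k) (AlgebraicClosure k))).charpoly.IsRoot x →
    ((emb σ).mapMatrix A).charpoly.IsRoot (φ x)

/-- **PAIR.** If no power of `A` is unipotent, `A` is invertible and all eigenvalues outside `S` have
absolute value `1`, there is `σ₁ ∈ S` such that for all `σ₂ ∉ S` there are conjugate multiplicatively
independent eigenvalues `x`, `y` of `σ₁(A)`, `σ₂(A)`.

Proof. `nilp_of_roots`: some eigenvalue is not a root of unity; by Kronecker there are `σ₁` and an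
eigenvalue `x` of `σ₁(A)` with `|x| > 1`; `σ₁ ∈ S`. Extend `σ₂ σ₁⁻¹ : σ₁ k → σ₂ k` to an
automorphism (or embedding) `θ` of the field of algebraic numbers, `y = θ x`, `|y| = 1`. If
`x^a y^b = 1` then `|x|^a = 1`, so `a = 0`, and `y` is not a root of unity, so `b = 0`. -/
def S_PAIR : Prop := ∀ (k : Type) [Field k] [NumberField k] (n : ℕ) (S : Finset (k →+* ℂ))
  (A : Matrix (Fin n) (Fin n) (𝓞 k)), IsUnit A →
  (∀ σ : k →+* ℂ, σ ∉ S → ∀ l : ℂ, ((emb σ).mapMatrix A).charpoly.IsRoot l → ‖l‖ = 1) →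
  (∀ N : ℕ, 0 < N → ¬ IsNilpotent (A ^ N - 1)) →
  ∃ σ₁ ∈ S, ∃ x : ℂ, ((emb σ₁).mapMatrix A).charpoly.IsRoot x ∧ 1 < ‖x‖ ∧
    ∀ σ₂ : k →+* ℂ, σ₂ ∉ S → ∃ y : ℂ, ((emb σ₂).mapMatrix A).charpoly.IsRoot y ∧
      minpoly ℚ x = minpoly ℚ y ∧ MI x y

/-- **COMPA.** Composing with automorphisms does not change the image. -/
def S_COMPA : Prop := ∀ (k : Type) [Field k] [NumberField k] (S : Finset (k →+* ℂ)),
  S.card < Nat.card (k ≃+* k) → ∀ σ₁ : k →+* ℂ, ∃ σ₂ : k →+* ℂ, σ₂ ∉ S ∧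
    cdeg σ₁ σ₂ = finrank ℚ k

/-- **COMPB.** The embeddings which agree with `σ₁` on `k₀`: there are `[k : k₀]` of them, and
`[σ₁ k σ₂ k : σ₁ k₀] ≤ [k : k₀]²`. -/
def S_COMPB : Prop := ∀ (k : Type) [Field k] [NumberField k] (k₀ : IntermediateField ℚ k)
  (S : Finset (k →+* ℂ)), S.card < finrank k₀ k → ∀ σ₁ : k →+* ℂ, ∃ σ₂ : k →+* ℂ, σ₂ ∉ S ∧
    cdeg σ₁ σ₂ ≤ finrank k₀ k * finrank ℚ k

end Pool.Agent.D0H56.MD
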