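import Pool.Agent.D0H56.MD.Defs4

/-!
# Project MD, second part: pairs of independent units which are not conjugate
-/

set_option autoImplicit false

open Module Polynomial NumberField Pool.Agent.H225R3.Marg

namespace Pool.Agent.D0H56.MD

/-- **E4.** The engine for two units `x`, `y` which need not be conjugate. -/
def S_E4 : Prop := ∀ δ a : ℝ, 0 ≤ δ → 0 ≤ a → a < (1 - 3 * δ) / 8 → ∃ d₀ : ℕ, ∀ f g : ℤ[X],
  Irreducible f → f.Monic → |f.coeff 0| = 1 → Irreducible g → g.Monic → |g.coeff 0| = 1 →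
  ∀ d : ℕ, d₀ ≤ d → d ≤ f.natDegree → d ≤ g.natDegree →
  ∀ x y : ℂ, aeval x f = 0 → aeval y g = 0 → MI x y →
  (finrank ℚ (IntermediateField.adjoin ℚ {x, y}) : ℝ) ≤ (d : ℝ) ^ (1 + δ) →
  (d : ℝ) ^ a ≤ max (Real.log (MM f)) (Real.log (MM g))

/-- **DEG4.** As `S_DEG`, for eigenvalues of two matrices. -/
def S_DEG4 : Prop := ∀ (k : Type) [Field k] [NumberField k] (n : ℕ)
  (A B : Matrix (Fin n) (Fin n) (𝓞 k)) (σ₁ σ₂ : k →+* ℂ) (x y : ℂ),
  ((emb σ₁).mapMatrix A).charpoly.IsRoot x → ((emb σ₂).mapMatrix B).charpoly.IsRoot y →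
  finrank ℚ (IntermediateField.adjoin ℚ {x, y}) ≤ n ^ 2 * cdeg σ₁ σ₂

/-- **ELT4.** The gap for pairs of multiplicatively independent eigenvalues of two elements `A`, `B`
(of two groups, with noncompact embeddings `S₁`, `S₂`), with growth; from `S_E4`, `S_MEAS2` (for `A`
and for `B`), `S_DEG4`, `S_SMALL`. Compare `Pool.Agent.D0H65.MD.t_ELT3`. (`x` and `y` are no roots of
unity as they are independent. `d` is the smaller one of the degrees of `x` and `y`; it is at least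
`m / (s + 1)`. If `d < d₀` use `S_SMALL` for the one of smaller degree; the conclusion for `A` or for
`B`.) -/
def S_ELT4 : Prop := ∀ (n s : ℕ) (δ a : ℝ), 0 ≤ δ → 0 ≤ a → a < (1 - 3 * δ) / 8 → ∃ c : ℝ, 0 < c ∧
  ∀ (k : Type) [Field k] [NumberField k] (S₁ S₂ : Finset (k →+* ℂ))
  (A B : Matrix (Fin n) (Fin n) (𝓞 k)), S₁.card ≤ s → S₂.card ≤ s → IsUnit A → IsUnit B →
  (∀ σ : k →+* ℂ, σ ∉ S₁ → ∀ l : ℂ, ((emb σ).mapMatrix A).charpoly.IsRoot l → ‖l‖ ≤ 1) →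
  (∀ σ : k →+* ℂ, σ ∉ S₂ → ∀ l : ℂ, ((emb σ).mapMatrix B).charpoly.IsRoot l → ‖l‖ ≤ 1) →
  ∀ (σ₁ σ₂ : k →+* ℂ) (x y : ℂ), (cdeg σ₁ σ₂ : ℝ) ≤ (finrank ℚ k : ℝ) ^ (1 + δ) →
  ((emb σ₁).mapMatrix A).charpoly.IsRoot x → ((emb σ₂).mapMatrix B).charpoly.IsRoot y →
  MI x y →
  (∃ σ ∈ S₁, ∃ l : ℂ, ((emb σ).mapMatrix A).charpoly.IsRoot l ∧
    c * (finrank ℚ k : ℝ) ^ a ≤ Real.log ‖l‖) ∨
  (∃ σ ∈ S₂, ∃ l : ℂ, ((emb σ).mapMatrix B).charpoly.IsRoot l ∧
    c * (finrank ℚ k : ℝ) ^ a ≤ Real.log ‖l‖)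

/-- **COMM.** Let `D` be a division algebra in the algebra of `n` by `n` matrices over `k` and
`A, B ∈ D` commuting elements. There are eigenvalues `x`, `y` of `A`, `B` in the algebraic closure of
`k` such that `x ^ p * y ^ q = 1` for integers `p`, `q` only if `A ^ p B ^ q = 1`.

Proof. `k[A, B]` is a commutative subring of `D`, finite over `k` without zero divisors, so it is a
field; take an embedding over `k` into the algebraic closure. -/
def S_COMM : Prop := ∀ (k : Type) [Field k] [NumberField k] (n : ℕ)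
  (D : Subalgebra k (Matrix (Fin n) (Fin n) k)), (∀ a ∈ D, a ≠ 0 → ∃ b ∈ D, a * b = 1) →
  ∀ A B : (Matrix (Fin n) (Fin n) k)ˣ, (A : Matrix (Fin n) (Fin n) k) ∈ D →
  (B : Matrix (Fin n) (Fin n) k) ∈ D → A * B = B * A → 1 ≤ n →
  ∃ x y : AlgebraicClosure k,
    ((A : Matrix (Fin n) (Fin n) k).map (algebraMap k (AlgebraicClosure k))).charpoly.IsRoot x ∧
    ((B : Matrix (Fin n) (Fin n) k).map (algebraMap k (AlgebraicClosure k))).charpoly.IsRoot y ∧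
    ∀ p q : ℤ, x ^ p * y ^ q = 1 → A ^ p * B ^ q = 1

end Pool.Agent.D0H56.MD
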