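import Pool.Agent.D0H56.MD.Defs3

/-! # Assembly of the engine, part A: counting and divisibility -/

set_option autoImplicit false

open Module Polynomial

namespace Pool.Agent.D0H56.MD

open Classical in
/-- embeddings with a given property of the image of `x` -/
theorem count_emb (hF : S_FIB) {K : Type} [Field K] [NumberField K] (x : K) (f : ℤ[X])
    (hm : f.Monic) (hi : Irreducible f) (hx : aeval x f = 0) (B : ℂ → Prop) :
    (Finset.univ.filter fun σ : K →+* ℂ => B (σ x)).card * f.natDegree =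
      Set.ncard {r : ℂ | aeval r f = 0 ∧ B r} * finrank ℚ K := by
  have hfin : Set.Finite {r : ℂ | aeval r f = 0 ∧ B r} := by
    have h1 : {r : ℂ | aeval r f = 0 ∧ B r} ⊆ f.rootSet ℂ := by
      intro z hz
      rw [Polynomial.mem_rootSet]
      exact ⟨hm.ne_zero, hz.1⟩
    exact (Polynomial.rootSet_finite f ℂ).subset h1
  set R := hfin.toFinset with hR
  have hroot : ∀ σ : K →+* ℂ, aeval (σ x) f = 0 := by
    intro σ
    have h1 := congrArg σ hx
    rw [map_zero] at h1
    rw [← h1, aeval_def, aeval_def, hom_eval₂]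
    congr 1
    exact RingHom.ext_int _ _
  have hfib := Finset.card_eq_sum_card_fiberwise
    (s := Finset.univ.filter fun σ : K →+* ℂ => B (σ x)) (f := fun σ : K →+* ℂ => σ x) (t := R)
    (by
      intro σ hσ
      have hσ' := (Finset.mem_filter.mp (Finset.mem_coe.mp hσ)).2
      rw [Finset.mem_coe, hR, Set.Finite.mem_toFinset]
      exact ⟨hroot σ, hσ'⟩)
  rw [hfib, Finset.sum_mul, Set.ncard_eq_toFinset_card _ hfin, ← hR, ← smul_eq_mul,
    ← Finset.sum_const]
  refine Finset.sum_congr rfl fun r hr => ?_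
  rw [hR, Set.Finite.mem_toFinset] at hr
  rw [← (hF K x f hm hi hx).1 r hr.1, Nat.card_eq_fintype_card, Fintype.card_subtype]
  congr 2
  ext σ
  simp only [Finset.mem_filter, Finset.mem_univ, true_and]
  exact ⟨fun h => h.2, fun h => ⟨h ▸ hr.2, h⟩⟩

open Classical in
/-- the divisibility for one prime -/
theorem padic (hFr : S_FROB) (hN : S_NEWT) (hRo : S_ROWS) (hF : S_FIB) {K : Type} [Field K]
    [NumberField K] (x y : K) (f : ℤ[X]) (hm : f.Monic) (hi : Irreducible f)
    (hx : aeval x f = 0) (hy : aeval y f = 0) (T : ℕ) (P : Finset ℕ)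
    (M : (K →+* ℂ) × J T P → ℕ × ℕ) (A : ℤ) (p : ℕ) (O : ValuationSubring ℂ) (hp : p.Prime)
    (hpP : p ∈ P) (hO : O.valuation (p : ℂ) < 1)
    (hβ : 4 * Set.ncard {r : ℂ | aeval r f = 0 ∧ O.valuation (aeval r (derivative f)) < 1} ≤
      f.natDegree)
    (hA : (A : ℂ) = Dl T P x y M ^ 2) : (p : ℤ) ^ (T * finrank ℚ K) ∣ A := by
  have hroot : ∀ (z : K), aeval z f = 0 → ∀ σ : K →+* ℂ, aeval (σ z) f = 0 := by
    intro z hz σ
    have h1 := congrArg σ hz
    rw [map_zero] at h1
    rw [← h1, aeval_def, aeval_def, hom_eval₂]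
    congr 1
    exact RingHom.ext_int _ _
  have hxi : IsIntegral ℤ x := ⟨f, hm, by rw [← Polynomial.aeval_def]; exact hx⟩
  have hyi : IsIntegral ℤ y := ⟨f, hm, by rw [← Polynomial.aeval_def]; exact hy⟩
  obtain ⟨B, hB⟩ : ∃ B : ℂ → Prop, ∀ r, B r ↔ O.valuation (aeval r (derivative f)) < 1 :=
    ⟨fun r => O.valuation (aeval r (derivative f)) < 1, fun r => Iff.rfl⟩
  set G : Finset (K →+* ℂ) := Finset.univ.filter fun σ => ¬ B (σ x) ∧ ¬ B (σ y) with hG
  have hrows := hRo K x y T P M A p O G hxi hyi hp hpP hO (by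
    intro σ hσ
    have hσ' := (Finset.mem_filter.mp hσ).2
    obtain ⟨σ', h1, h2⟩ := hFr K x y p O hxi hyi hp hO σ
    refine ⟨σ', ?_, ?_⟩
    · exact hN f p O (σ x) (σ' x) hm hp hO (hroot x hx σ) (hroot x hx σ') h1
        (fun h => hσ'.1 ((hB _).mpr h))
    · exact hN f p O (σ y) (σ' y) hm hp hO (hroot y hy σ) (hroot y hy σ') h2
        (fun h => hσ'.2 ((hB _).mpr h))) hA
  refine dvd_trans (pow_dvd_pow _ ?_) hrows
  -- the count
  have hd : 0 < f.natDegree := by
    rw [Nat.pos_iff_ne_zero]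
    intro h
    exact hi.not_isUnit ((hm.natDegree_eq_zero.mp h) ▸ isUnit_one)
  have hc : ∀ z : K, aeval z f = 0 →
      4 * (Finset.univ.filter fun σ : K →+* ℂ => B (σ z)).card ≤ finrank ℚ K := by
    intro z hz
    have h1 := count_emb hF z f hm hi hz B
    have h3 : 4 * Set.ncard {r : ℂ | aeval r f = 0 ∧ B r} ≤ f.natDegree := by
      simp only [hB]
      exact hβ
    refine Nat.le_of_mul_le_mul_right (c := f.natDegree) ?_ hd
    have h2 := Nat.mul_le_mul_right (finrank ℚ K) h3
    nlinarith [h1, h2]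
  have h1 := hc x hx
  have h2 := hc y hy
  have h3 : Fintype.card (K →+* ℂ) ≤ G.card +
      ((Finset.univ.filter fun σ : K →+* ℂ => B (σ x)).card +
      (Finset.univ.filter fun σ : K →+* ℂ => B (σ y)).card) := by
    rw [← Finset.card_univ]
    refine (Finset.card_le_card (t := G ∪ ((Finset.univ.filter fun σ : K →+* ℂ => B (σ x)) ∪
      (Finset.univ.filter fun σ : K →+* ℂ => B (σ y)))) ?_).trans
      ((Finset.card_union_le _ _).trans (Nat.add_le_add_left (Finset.card_union_le _ _) _))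
    intro σ _
    simp only [hG, Finset.mem_union, Finset.mem_filter, Finset.mem_univ, true_and]
    tauto
  have h4 : Fintype.card (K →+* ℂ) = finrank ℚ K := NumberField.Embeddings.card K ℂ
  have h5 : finrank ℚ K ≤ 2 * G.card := by omega
  calc T * finrank ℚ K ≤ T * (2 * G.card) := Nat.mul_le_mul_left _ h5
    _ = 2 * T * G.card := by ring

end Pool.Agent.D0H56.MD
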