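import Pool.Agent.D0H56.MD.EngB

/-! # Assembly of the engine, part C -/

set_option autoImplicit false

open Module Polynomial

namespace Pool.Agent.D0H56.MD

theorem gen_aux {K : Type} [Field K] [CharZero K] (φ : K →+* ℂ) (x' y' : K)
    (h : ∀ z : K, φ z ∈ IntermediateField.adjoin ℚ {φ x', φ y'}) :
    IntermediateField.adjoin ℚ {x', y'} = ⊤ := by
  rw [eq_top_iff]
  intro z _
  have h1 := h z
  have h2 : (IntermediateField.adjoin ℚ {x', y'}).map φ.toRatAlgHom =
      IntermediateField.adjoin ℚ {φ x', φ y'} := by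
    rw [IntermediateField.adjoin_map, Set.image_pair]
    rfl
  rw [← h2] at h1
  obtain ⟨w, hw, hwz⟩ := h1
  have h3 : w = z := φ.injective hwz
  rw [← h3]
  exact hw

theorem lin_aux {K : Type} [Field K] [CharZero K] {ι : Type} (φ : K →+* ℂ) (v : ι → K)
    (h : LinearIndependent ℚ (fun i => φ (v i))) : LinearIndependent ℚ v :=
  LinearIndependent.of_comp φ.toRatAlgHom.toLinearMap h

theorem e2 (hFr : S_FROB) (hN : S_NEWT) (hRo : S_ROWS) (hF : S_FIB) (hD : S_DET) (hAr : S_ARCH)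
    (hI : S_INTERP) (hSp : S_SPN) (hG : S_GOOD) (hAu : S_AUT) (hB : S_BAD) (hV : S_VAL)
    (hInd : S_IND2) (hPar : S_PARAM2) : S_E2 := by
  intro δ a hδ ha hab
  obtain ⟨c, hc, hind⟩ := hInd
  obtain ⟨d₀, hd₀, hpar⟩ := hPar δ a c hδ ha hab hc
  refine ⟨d₀, ?_⟩
  intro f hi hm hc0 hdeg x y hx hy hMI hDle
  by_contra hcon
  push Not at hcon
  have hxi : IsIntegral ℤ x := ⟨f, hm, by rw [← Polynomial.aeval_def]; exact hx⟩
  have hyi : IsIntegral ℤ y := ⟨f, hm, by rw [← Polynomial.aeval_def]; exact hy⟩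
  set K := IntermediateField.adjoin ℚ {x, y} with hK
  have : FiniteDimensional ℚ K := by
    apply IntermediateField.finiteDimensional_adjoin
    intro z hz
    rcases hz with rfl | hz
    · exact hxi.tower_top
    · rw [Set.mem_singleton_iff] at hz
      rw [hz]
      exact hyi.tower_top
  have : NumberField K := { to_charZero := inferInstance, to_finiteDimensional := inferInstance }
  have hxK : x ∈ K := IntermediateField.subset_adjoin ℚ _ (Set.mem_insert _ _)
  have hyK : y ∈ K := IntermediateField.subset_adjoin ℚ _ (Set.mem_insert_of_mem _ rfl)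
  obtain ⟨x', hx'⟩ : ∃ x' : K, (x' : ℂ) = x := ⟨⟨x, hxK⟩, rfl⟩
  obtain ⟨y', hy'⟩ : ∃ y' : K, (y' : ℂ) = y := ⟨⟨y, hyK⟩, rfl⟩
  have hroot : ∀ (z : ℂ) (z' : K), (z' : ℂ) = z → aeval z f = 0 → aeval z' f = 0 := by
    intro z z' hz' hz
    have h1 : algebraMap K ℂ (aeval z' f) = 0 := by
      rw [← Polynomial.aeval_algebraMap_apply]
      rw [show algebraMap K ℂ z' = z from hz']
      exact hz
    exact (map_eq_zero _).mp h1
  have hgen := gen_aux (algebraMap K ℂ) x' y' (fun z => by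
    rw [show algebraMap K ℂ x' = x from hx', show algebraMap K ℂ y' = y from hy']
    exact z.2)
  have hMI' : MI x' y' := by
    refine ⟨fun h => hMI.1 ?_, fun h => hMI.2.1 ?_, fun m n h => hMI.2.2 m n ?_⟩
    · rw [← hx', h]; rfl
    · rw [← hy', h]; rfl
    · have h1 := congrArg (algebraMap K ℂ) h
      rw [map_mul, map_zpow₀, map_zpow₀, map_one] at h1
      rw [← hx', ← hy']
      exact h1
  have hdD : f.natDegree ≤ finrank ℚ K := by
    have h1 := (hF K x' f hm hi (hroot x x' hx' hx)).1 x hx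
    have h2 : Nat.card {σ : K →+* ℂ // σ x' = x} ≠ 0 := by
      rw [Nat.card_ne_zero]
      exact ⟨⟨⟨algebraMap K ℂ, hx'⟩⟩, inferInstance⟩
    rw [← h1]
    exact Nat.le_mul_of_pos_left _ (Nat.pos_of_ne_zero h2)
  obtain ⟨U, T, X, hU, hT, hX, h1, h2⟩ := hpar f.natDegree (finrank ℚ K) hdeg hdD hDle
  have hlM : 0 ≤ Real.log (MM f) := Real.log_nonneg (one_le_MM hm)
  refine core hFr hN hRo hF hD hAr hI hSp hG hAu hB hV x' y' f hm hi (hroot x x' hx' hx)
    (hroot y y' hy' hy) hgen hMI' a hcon U T X (by omega) hT hX ?_ h2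
  intro b hb hbX
  have h3 := hind f hi hm hc0 x y hx hy hMI b U hb hU (by
    refine lt_of_le_of_lt ?_ h1
    have hbX' : (b : ℝ) ≤ X := by exact_mod_cast hbX
    have hW : 0 ≤ (U : ℝ) ^ 5 * (Real.log (2 * (U : ℝ) ^ 2)) ^ 4 := by positivity
    calc (b : ℝ) * (U : ℝ) ^ 5 * (Real.log (2 * (U : ℝ) ^ 2)) ^ 4 * Real.log (MM f)
        = (b : ℝ) * ((U : ℝ) ^ 5 * (Real.log (2 * (U : ℝ) ^ 2)) ^ 4) * Real.log (MM f) := by ring
      _ ≤ (X : ℝ) * ((U : ℝ) ^ 5 * (Real.log (2 * (U : ℝ) ^ 2)) ^ 4) *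
          (f.natDegree : ℝ) ^ a :=
          mul_le_mul (mul_le_mul_of_nonneg_right hbX' hW) hcon.le hlM (by positivity)
      _ = _ := by ring)
  refine lin_aux (algebraMap K ℂ) _ ?_
  have e3 : (fun k : Fin U × Fin U => algebraMap K ℂ ((x' ^ b) ^ (k.1 : ℕ) * (y' ^ b) ^ (k.2 : ℕ))) =
      (fun k : Fin U × Fin U => x ^ (b * (k.1 : ℕ)) * y ^ (b * (k.2 : ℕ))) := by
    funext k
    rw [map_mul, map_pow, map_pow, map_pow, map_pow, show algebraMap K ℂ x' = x from hx',
      show algebraMap K ℂ y' = y from hy', pow_mul, pow_mul]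
  rw [e3]
  exact h3

end Pool.Agent.D0H56.MD
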