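import Pool.Agent.D0H56.MD.EngD
import Pool.Agent.D0H56.MD.Rank
import Pool.Agent.D0H56.MD.Defs5

/-! # The engine for two units -/

set_option autoImplicit false

open Module Polynomial

namespace Pool.Agent.D0H56.MD

open Classical in
/-- the divisibility for one prime -/
theorem padic2 (hFr : S_FROB) (hN : S_NEWT) (hRo : S_ROWS) (hF : S_FIB) {K : Type} [Field K]
    [NumberField K] (x y : K) (f g : ℤ[X]) (hm : f.Monic) (hi : Irreducible f)
    (hmg : g.Monic) (hig : Irreducible g)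
    (hx : aeval x f = 0) (hy : aeval y g = 0) (T : ℕ) (P : Finset ℕ)
    (M : (K →+* ℂ) × J T P → ℕ × ℕ) (A : ℤ) (p : ℕ) (O : ValuationSubring ℂ) (hp : p.Prime)
    (hpP : p ∈ P) (hO : O.valuation (p : ℂ) < 1)
    (hβ : 4 * Set.ncard {r : ℂ | aeval r f = 0 ∧ O.valuation (aeval r (derivative f)) < 1} ≤
      f.natDegree)
    (hβg : 4 * Set.ncard {r : ℂ | aeval r g = 0 ∧ O.valuation (aeval r (derivative g)) < 1} ≤
      g.natDegree)
    (hA : (A : ℂ) = Dl T P x y M ^ 2) : (p : ℤ) ^ (T * finrank ℚ K) ∣ A := by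
  have hroot : ∀ (f : ℤ[X]) (z : K), aeval z f = 0 → ∀ σ : K →+* ℂ, aeval (σ z) f = 0 := by
    intro f z hz σ
    have h1 := congrArg σ hz
    rw [map_zero] at h1
    rw [← h1, aeval_def, aeval_def, hom_eval₂]
    congr 1
    exact RingHom.ext_int _ _
  have hxi : IsIntegral ℤ x := ⟨f, hm, by rw [← Polynomial.aeval_def]; exact hx⟩
  have hyi : IsIntegral ℤ y := ⟨g, hmg, by rw [← Polynomial.aeval_def]; exact hy⟩
  obtain ⟨B, hB⟩ : ∃ B : ℂ → Prop, ∀ r, B r ↔ O.valuation (aeval r (derivative f)) < 1 :=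
    ⟨fun r => O.valuation (aeval r (derivative f)) < 1, fun r => Iff.rfl⟩
  obtain ⟨B', hB'⟩ : ∃ B' : ℂ → Prop, ∀ r, B' r ↔ O.valuation (aeval r (derivative g)) < 1 :=
    ⟨fun r => O.valuation (aeval r (derivative g)) < 1, fun r => Iff.rfl⟩
  set G : Finset (K →+* ℂ) := Finset.univ.filter fun σ => ¬ B (σ x) ∧ ¬ B' (σ y) with hG
  have hrows := hRo K x y T P M A p O G hxi hyi hp hpP hO (by
    intro σ hσ
    have hσ' := (Finset.mem_filter.mp hσ).2
    obtain ⟨σ', h1, h2⟩ := hFr K x y p O hxi hyi hp hO σ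
    refine ⟨σ', ?_, ?_⟩
    · exact hN f p O (σ x) (σ' x) hm hp hO (hroot f x hx σ) (hroot f x hx σ') h1
        (fun h => hσ'.1 ((hB _).mpr h))
    · exact hN g p O (σ y) (σ' y) hmg hp hO (hroot g y hy σ) (hroot g y hy σ') h2
        (fun h => hσ'.2 ((hB' _).mpr h))) hA
  refine dvd_trans (pow_dvd_pow _ ?_) hrows
  -- the count
  have hc : ∀ (f : ℤ[X]), f.Monic → Irreducible f → ∀ B : ℂ → Prop,
      4 * Set.ncard {r : ℂ | aeval r f = 0 ∧ B r} ≤ f.natDegree → ∀ z : K, aeval z f = 0 →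
      4 * (Finset.univ.filter fun σ : K →+* ℂ => B (σ z)).card ≤ finrank ℚ K := by
    intro f hm hi B h3 z hz
    have hd : 0 < f.natDegree := by
      rw [Nat.pos_iff_ne_zero]
      intro h
      exact hi.not_isUnit ((hm.natDegree_eq_zero.mp h) ▸ isUnit_one)
    have h1 := count_emb hF z f hm hi hz B
    refine Nat.le_of_mul_le_mul_right (c := f.natDegree) ?_ hd
    have h2 := Nat.mul_le_mul_right (finrank ℚ K) h3
    nlinarith [h1, h2]
  have h1 := hc f hm hi B (by simp only [hB]; exact hβ) x hx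
  have h2 := hc g hmg hig B' (by simp only [hB']; exact hβg) y hy
  have h3 : Fintype.card (K →+* ℂ) ≤ G.card +
      ((Finset.univ.filter fun σ : K →+* ℂ => B (σ x)).card +
      (Finset.univ.filter fun σ : K →+* ℂ => B' (σ y)).card) := by
    rw [← Finset.card_univ]
    refine (Finset.card_le_card (t := G ∪ ((Finset.univ.filter fun σ : K →+* ℂ => B (σ x)) ∪
      (Finset.univ.filter fun σ : K →+* ℂ => B' (σ y)))) ?_).trans
      ((Finset.card_union_le _ _).trans (Nat.add_le_add_left (Finset.card_union_le _ _) _))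
    intro σ _
    simp only [hG, Finset.mem_union, Finset.mem_filter, Finset.mem_univ, true_and]
    tauto
  have h4 : Fintype.card (K →+* ℂ) = finrank ℚ K := NumberField.Embeddings.card K ℂ
  have h5 : finrank ℚ K ≤ 2 * G.card := by omega
  calc T * finrank ℚ K ≤ T * (2 * G.card) := Nat.mul_le_mul_left _ h5
    _ = 2 * T * G.card := by ring

open Classical in
/-- primes `p` modulo which more than a quarter of the roots of `f` are multiple -/
noncomputable def badset (f : ℤ[X]) (X : ℕ) (O : ℕ → ValuationSubring ℂ) : Finset ℕ :=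
  (Finset.Icc 1 X).filter (fun p => p.Prime ∧ ¬ 4 * Set.ncard {r : ℂ | aeval r f = 0 ∧
    (O p).valuation (aeval r (derivative f)) < 1} ≤ f.natDegree)

theorem bad_sum (hB : S_BAD) (f : ℤ[X]) (hm : f.Monic) (hi : Irreducible f) (X : ℕ)
    (O : ℕ → ValuationSubring ℂ) (hO : ∀ p : ℕ, p.Prime → (O p).valuation (p : ℂ) < 1) :
    ∑ p ∈ badset f X O, Real.log p ≤ 16 * (Real.log f.natDegree + Real.log (MM f)) := by
  classical
  obtain ⟨d, hd⟩ : ∃ d : ℕ, d = f.natDegree := ⟨_, rfl⟩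
  have hdpos : 0 < d := by
    rw [hd, Nat.pos_iff_ne_zero]
    intro h
    exact hi.not_isUnit ((hm.natDegree_eq_zero.mp h) ▸ isUnit_one)
  have hdR : (0 : ℝ) < d := by exact_mod_cast hdpos
  obtain ⟨Af, hAf0, hAfb, hAfd⟩ := hB f hm hi
  obtain ⟨β, hβ⟩ : ∃ β : ℕ → ℕ, ∀ p, β p = Set.ncard {r : ℂ | aeval r f = 0 ∧
    (O p).valuation (aeval r (derivative f)) < 1} := ⟨_, fun _ => rfl⟩
  have hB₂p : ∀ p ∈ badset f X O, p.Prime := fun p hp => (Finset.mem_filter.mp hp).2.1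
  have hMM1 := one_le_MM hm
  have h3 := logdvd (badset f X O) β (Af ^ 2) (pow_ne_zero 2 hAf0) hB₂p (fun p hp => by
    rw [hβ]
    exact hAfd p (O p) (hB₂p p hp) (hO p (hB₂p p hp)))
  have h4 : Real.log |((Af ^ 2 : ℤ) : ℝ)| = 2 * Real.log |(Af : ℝ)| := by
    push_cast
    rw [abs_pow, Real.log_pow]
    norm_num
  have hAfpos : (0 : ℝ) < |(Af : ℝ)| := abs_pos.mpr (by exact_mod_cast hAf0)
  have h5 : Real.log |(Af : ℝ)| ≤ 2 * d * Real.log d + 2 * d * Real.log (MM f) := by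
    have h6 := Real.log_le_log hAfpos hAfb
    rw [Real.log_mul (by rw [← hd]; positivity) (by positivity), Real.log_pow, Real.log_pow,
      ← hd] at h6
    push_cast at h6
    exact h6
  rw [h4] at h3
  have h7 : (d : ℝ) / 4 * ∑ p ∈ badset f X O, Real.log p ≤
      ∑ p ∈ badset f X O, (β p : ℝ) * Real.log p := by
    rw [Finset.mul_sum]
    refine Finset.sum_le_sum fun p hp => ?_
    have h8 := (Finset.mem_filter.mp hp).2.2
    rw [← hβ, ← hd] at h8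
    have h9 : (d : ℝ) ≤ 4 * β p := by
      have : d ≤ 4 * β p := by omega
      exact_mod_cast this
    have h10 : 0 ≤ Real.log (p : ℝ) := Real.log_natCast_nonneg p
    exact mul_le_mul_of_nonneg_right (by linarith) h10
  have h11 : (d : ℝ) / 4 * ∑ p ∈ badset f X O, Real.log p ≤
      (d : ℝ) / 4 * (16 * (Real.log d + Real.log (MM f))) := by
    linarith
  rw [← hd]
  exact le_of_mul_le_mul_left h11 (by positivity)

/-- the contradiction -/
theorem core4 (hFr : S_FROB) (hN : S_NEWT) (hRo : S_ROWS) (hF : S_FIB) (hD : S_DET) (hAr : S_ARCH)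
    (hI : S_INTERP) (hSp : S_SPN3) (hG : S_GOOD) (hAu : S_AUT) (hB : S_BAD) (hV : S_VAL)
    {K : Type} [Field K] [NumberField K] (x y : K) (f g : ℤ[X]) (hm : f.Monic)
    (hi : Irreducible f) (hmg : g.Monic) (hig : Irreducible g)
    (hx : aeval x f = 0) (hy : aeval y g = 0)
    (hgen : IntermediateField.adjoin ℚ {x, y} = ⊤) (hMI : MI x y) (a a₀ : ℝ) (haa : a₀ ≤ a)
    (d : ℕ) (hdpos : 0 < d) (hdf : d ≤ f.natDegree) (hdg : d ≤ g.natDegree)
    (hfD : f.natDegree ≤ finrank ℚ K) (hgD : g.natDegree ≤ finrank ℚ K)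
    (hsmall : Real.log (MM f) < (d : ℝ) ^ a₀) (hsmallg : Real.log (MM g) < (d : ℝ) ^ a₀)
    (hcmp : 32 * (Real.log (finrank ℚ K) + (d : ℝ) ^ a₀) ≤ 16 * (Real.log d + (d : ℝ) ^ a)) (U T X : ℕ) (hU : 2 ≤ U) (hT : 1 ≤ T)
    (hX : 1 ≤ X)
    (hlin : ∀ b : ℕ, 1 ≤ b → b ≤ X → U ^ 2 ≤ 2 * finrank ℚ (Submodule.span ℚ (Set.range
      (fun k : Fin U × Fin U => (x ^ b) ^ (k.1 : ℕ) * (y ^ b) ^ (k.2 : ℕ)))))
    (hpar : ∀ B₁ B₂ : Finset ℕ, 2 ^ B₁.card ≤ finrank ℚ K → (∀ p ∈ B₂, p.Prime) →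
      ∑ p ∈ B₂, Real.log p ≤ 16 * (Real.log d + (d : ℝ) ^ a) →
      ∃ P : Finset ℕ, (∀ p ∈ P, p.Prime ∧ p ≤ X ∧ p ∉ B₁ ∧ p ∉ B₂) ∧
      ∀ N : ℕ, N = (4 * finrank ℚ K / U + 2) * (4 * T + 2 * P.card + 1) →
      ((T : ℝ) ^ 2 + P.card) * Real.log (finrank ℚ K * ((T : ℝ) ^ 2 + P.card)) +
          (T : ℝ) ^ 3 * Real.log N +
          2 * (d : ℝ) ^ a * ((N : ℝ) / d) *
            ((T : ℝ) ^ 2 + ∑ p ∈ P, (p : ℝ)) <
        T * ((∑ p ∈ P, Real.log p) / 2)) : False := by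
  classical
  obtain ⟨D, hDD⟩ : ∃ D : ℕ, D = finrank ℚ K := ⟨_, rfl⟩
  have hDpos : 0 < D := by rw [hDD]; exact finrank_pos
  have hDR : (0 : ℝ) < D := by exact_mod_cast hDpos
  have hdR : (0 : ℝ) < d := by exact_mod_cast hdpos
  have hd1R : (1 : ℝ) ≤ d := by exact_mod_cast hdpos
  have hxi : IsIntegral ℤ x := ⟨f, hm, by rw [← Polynomial.aeval_def]; exact hx⟩
  have hyi : IsIntegral ℤ y := ⟨g, hmg, by rw [← Polynomial.aeval_def]; exact hy⟩
  have hxtor : ∀ n : ℕ, 0 < n → x ^ n ≠ 1 := by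
    intro n hn h
    have h1 := (hMI.2.2 n 0 (by simpa using h)).1
    omega
  -- valuation rings
  have hV' : ∀ p : ℕ, ∃ O : ValuationSubring ℂ, p.Prime → O.valuation (p : ℂ) < 1 := by
    intro p
    by_cases hp : p.Prime
    · obtain ⟨O, hO⟩ := hV p hp
      exact ⟨O, fun _ => hO⟩
    · exact ⟨⊤, fun h => absurd h hp⟩
  choose O hO using hV'
  set B₁ : Finset ℕ := (Finset.Icc 1 X).filter
    (fun p => p.Prime ∧ IntermediateField.adjoin ℚ {x ^ p, y ^ p} ≠ ⊤) with hB₁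
  obtain ⟨B₂, hB₂⟩ : ∃ B₂ : Finset ℕ, B₂ = badset f X O ∪ badset g X O := ⟨_, rfl⟩
  have h1 : 2 ^ B₁.card ≤ finrank ℚ K :=
    hG K x y hMI.1 hMI.2.1 hgen B₁ (fun p hp => (Finset.mem_filter.mp hp).2)
  have hB₂p : ∀ p ∈ B₂, p.Prime := by
    intro p hp
    rw [hB₂, Finset.mem_union] at hp
    rcases hp with hp | hp
    · exact (Finset.mem_filter.mp hp).2.1
    · exact (Finset.mem_filter.mp hp).2.1
  have hlM : 0 ≤ Real.log (MM f) := Real.log_nonneg (one_le_MM hm)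
  have hlMg : 0 ≤ Real.log (MM g) := Real.log_nonneg (one_le_MM hmg)
  have hlogf : Real.log f.natDegree ≤ Real.log (finrank ℚ K) := by
    apply Real.log_le_log (by exact_mod_cast lt_of_lt_of_le hdpos hdf)
    exact_mod_cast hfD
  have hlogg : Real.log g.natDegree ≤ Real.log (finrank ℚ K) := by
    apply Real.log_le_log (by exact_mod_cast lt_of_lt_of_le hdpos hdg)
    exact_mod_cast hgD
  have h2 : ∑ p ∈ B₂, Real.log p ≤ 16 * (Real.log d + (d : ℝ) ^ a) := by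
    have h3 := bad_sum hB f hm hi X O hO
    have h4 := bad_sum hB g hmg hig X O hO
    have h5 : ∑ p ∈ B₂, Real.log p ≤ ∑ p ∈ badset f X O, Real.log p +
        ∑ p ∈ badset g X O, Real.log p := by
      rw [hB₂, ← Finset.sum_union_inter]
      have : 0 ≤ ∑ p ∈ badset f X O ∩ badset g X O, Real.log (p : ℝ) :=
        Finset.sum_nonneg fun p _ => Real.log_natCast_nonneg p
      linarith
    linarith
  obtain ⟨P, hP, hineq⟩ := hpar B₁ B₂ h1 hB₂p h2
  have hPp : ∀ p ∈ P, p.Prime := fun p hp => (hP p hp).1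
  obtain ⟨q, hq⟩ : ∃ q : ℕ, q = 4 * finrank ℚ K / U := ⟨_, rfl⟩
  rw [← hq] at hineq
  obtain ⟨L, hL⟩ : ∃ L : ℕ, L = q + 2 := ⟨_, rfl⟩
  rw [← hL] at hineq
  obtain ⟨N, hNdef⟩ : ∃ N : ℕ, N = L * (4 * T + 2 * P.card + 1) := ⟨_, rfl⟩
  have hineq' := hineq N hNdef
  have h1P : 1 ∉ P := fun h => Nat.not_prime_one (hPp 1 h)
  have hb : ∀ b ∈ insert 1 P, 1 ≤ b ∧ b ≤ X ∧
      IntermediateField.adjoin ℚ {x ^ b, y ^ b} = ⊤ := by
    intro b hb
    rw [Finset.mem_insert] at hb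
    rcases hb with rfl | hb
    · exact ⟨le_rfl, hX, by simpa using hgen⟩
    · obtain ⟨hp1, hp2, hp3, hp4⟩ := hP b hb
      refine ⟨hp1.pos, hp2, ?_⟩
      by_contra hne
      exact hp3 (Finset.mem_filter.mpr ⟨Finset.mem_Icc.mpr ⟨hp1.pos, hp2⟩, hp1, hne⟩)
  have hspan := hI K x y L T P (by omega) hT h1P
    (fun b hbm => hSp K (x ^ b) (y ^ b) (hb b hbm).2.2 U L hU (by rw [← hq]; omega)
      (hlin b (hb b hbm).1 (hb b hbm).2.1))
    (fun b hbm b' hbm' hne τ h => hAu K x hMI.1 hxtor b b' (hb b hbm).1 (hb b' hbm').1 hne τ h.1)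
  rw [← hNdef] at hspan
  obtain ⟨M, hM, A, hA0, hA⟩ := hD K x y N T P hxi hyi hspan
  have hdvd : ∀ p ∈ P, (p : ℤ) ^ (T * finrank ℚ K) ∣ A := by
    intro p hp
    obtain ⟨hp1, hp2, hp3, hp4⟩ := hP p hp
    rw [hB₂, Finset.mem_union, not_or] at hp4
    refine padic2 hFr hN hRo hF x y f g hm hi hmg hig hx hy T P M A p (O p) (hPp p hp) hp
      (hO p (hPp p hp)) ?_ ?_ hA
    · by_contra hne
      exact hp4.1 (Finset.mem_filter.mpr ⟨Finset.mem_Icc.mpr ⟨hp1.pos, hp2⟩, hp1, hne⟩)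
    · by_contra hne
      exact hp4.2 (Finset.mem_filter.mpr ⟨Finset.mem_Icc.mpr ⟨hp1.pos, hp2⟩, hp1, hne⟩)
  have h3 := logdvd P (fun _ => T * finrank ℚ K) A hA0 hPp hdvd
  have hAn : |(A : ℝ)| = ‖Dl T P x y M‖ ^ 2 := by
    have h4 := congrArg norm hA
    rw [norm_pow, Complex.norm_intCast] at h4
    exact h4
  have hDl0 : 0 < ‖Dl T P x y M‖ := by
    rw [norm_pos_iff]
    intro h
    rw [h] at hA
    apply hA0
    have : (A : ℂ) = 0 := by rw [hA]; simp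
    exact_mod_cast this
  rw [hAn, Real.log_pow, ← Finset.mul_sum] at h3
  have hNpos : 1 ≤ N := by
    rw [hNdef]
    exact Nat.mul_pos (by omega) (by omega)
  have harch := hAr K x y N T P M hNpos hM
  set Ax := ∏ σ : K →+* ℂ, max 1 ‖σ x‖ with hAx
  set Ay := ∏ σ : K →+* ℂ, max 1 ‖σ y‖ with hAy
  have hAx1 : 0 < Ax := Finset.prod_pos fun σ _ => lt_of_lt_of_le one_pos (le_max_left _ _)
  have hAy1 : 0 < Ay := Finset.prod_pos fun σ _ => lt_of_lt_of_le one_pos (le_max_left _ _)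
  have hone : ∀ z : K, 1 ≤ ∏ σ : K →+* ℂ, max 1 ‖σ z‖ := by
    intro z
    have h5 := Finset.prod_le_prod (s := (Finset.univ : Finset (K →+* ℂ))) (f := fun _ => (1 : ℝ))
      (g := fun σ => max 1 ‖σ z‖) (fun _ _ => zero_le_one) (fun σ _ => le_max_left _ _)
    rwa [Finset.prod_const_one] at h5
  have hlAx0 : 0 ≤ Real.log Ax := Real.log_nonneg (hone x)
  have hlAy0 : 0 ≤ Real.log Ay := Real.log_nonneg (hone y)
  have hlAx : (d : ℝ) * Real.log Ax ≤ D * Real.log (MM f) := by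
    have h4 := congrArg Real.log (hF K x f hm hi hx).2
    rw [Real.log_pow, Real.log_pow, ← hDD] at h4
    rw [← h4]
    exact mul_le_mul_of_nonneg_right (by exact_mod_cast hdf) hlAx0
  have hlAy : (d : ℝ) * Real.log Ay ≤ D * Real.log (MM g) := by
    have h4 := congrArg Real.log (hF K y g hmg hig hy).2
    rw [Real.log_pow, Real.log_pow, ← hDD] at h4
    rw [← h4]
    exact mul_le_mul_of_nonneg_right (by exact_mod_cast hdg) hlAy0
  rw [← hDD] at harch h3 hineq'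
  have hpow : (d : ℝ) ^ a₀ ≤ (d : ℝ) ^ a := Real.rpow_le_rpow_of_exponent_le hd1R haa
  have hT2 : (0 : ℝ) < (T : ℝ) ^ 2 + P.card := by
    have : (1 : ℝ) ≤ T := by exact_mod_cast hT
    have h5 : (0 : ℝ) ≤ P.card := Nat.cast_nonneg _
    nlinarith
  have hfac : Real.log ((Nat.factorial (D * (T ^ 2 + P.card)) : ℕ) : ℝ) ≤
      (D * ((T : ℝ) ^ 2 + P.card)) * Real.log (D * ((T : ℝ) ^ 2 + P.card)) := by
    have h4 : Nat.factorial (D * (T ^ 2 + P.card)) ≤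
        (D * (T ^ 2 + P.card)) ^ (D * (T ^ 2 + P.card)) := Nat.factorial_le_pow _
    have h5 : ((Nat.factorial (D * (T ^ 2 + P.card)) : ℕ) : ℝ) ≤
        (D * ((T : ℝ) ^ 2 + P.card)) ^ (D * (T ^ 2 + P.card)) := by
      exact_mod_cast h4
    have h6 := Real.log_le_log (by exact_mod_cast Nat.factorial_pos _) h5
    rw [Real.log_pow] at h6
    push_cast at h6
    exact h6
  have hNR : (0 : ℝ) < N := by exact_mod_cast hNpos
  have hlog := Real.log_le_log hDl0 harch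
  rw [Real.log_mul (by positivity) (by positivity), Real.log_mul (by positivity) (by positivity),
    Real.log_pow, Real.log_pow, Real.log_mul hAx1.ne' hAy1.ne'] at hlog
  have c1 : ((D * T ^ 3 : ℕ) : ℝ) = D * (T : ℝ) ^ 3 := by push_cast; ring
  have c2 : ((N * (T ^ 2 + ∑ p ∈ P, p) : ℕ) : ℝ) = (N : ℝ) * ((T : ℝ) ^ 2 + ∑ p ∈ P, (p : ℝ)) := by
    rw [Nat.cast_mul, Nat.cast_add, Nat.cast_pow, Nat.cast_sum]
  have c3 : ((T * D : ℕ) : ℝ) = (T : ℝ) * D := Nat.cast_mul _ _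
  have c4 : ((2 : ℕ) : ℝ) = 2 := Nat.cast_ofNat
  rw [c1, c2] at hlog
  rw [c3, c4] at h3
  -- the final computation
  have hE : (Real.log Ax + Real.log Ay) ≤ 2 * (D : ℝ) / d * (d : ℝ) ^ a := by
    have h4 : (d : ℝ) * (Real.log Ax + Real.log Ay) ≤ 2 * D * (d : ℝ) ^ a := by
      have h5 : (D : ℝ) * Real.log (MM f) ≤ D * (d : ℝ) ^ a :=
        mul_le_mul_of_nonneg_left (hsmall.le.trans hpow) hDR.le
      have h6 : (D : ℝ) * Real.log (MM g) ≤ D * (d : ℝ) ^ a :=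
        mul_le_mul_of_nonneg_left (hsmallg.le.trans hpow) hDR.le
      linarith
    rw [div_mul_eq_mul_div, le_div_iff₀ hdR]
    linarith
  have hS0 : (0 : ℝ) ≤ (N : ℝ) * ((T : ℝ) ^ 2 + ∑ p ∈ P, (p : ℝ)) := by positivity
  have hE2 := mul_le_mul_of_nonneg_left hE hS0
  have h20 := mul_lt_mul_of_pos_left hineq' (show (0:ℝ) < 2 * D by positivity)
  have e1 : (2 * (D : ℝ)) * (((T : ℝ) ^ 2 + P.card) * Real.log (D * ((T : ℝ) ^ 2 + P.card)) +
          (T : ℝ) ^ 3 * Real.log N +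
          2 * (d : ℝ) ^ a * ((N : ℝ) / d) * ((T : ℝ) ^ 2 + ∑ p ∈ P, (p : ℝ))) =
      2 * ((D * ((T : ℝ) ^ 2 + P.card)) * Real.log (D * ((T : ℝ) ^ 2 + P.card)) +
        (D * (T : ℝ) ^ 3 * Real.log N + (N : ℝ) * ((T : ℝ) ^ 2 + ∑ p ∈ P, (p : ℝ)) *
          (2 * (D : ℝ) / d * (d : ℝ) ^ a))) := by
    ring
  rw [e1] at h20
  linarith



end Pool.Agent.D0H56.MD
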