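import Pool.Agent.D0H56.MD.Defs
import Pool.Agent.Y642.ND.Gro
import Pool.Agent.Y220.ND.Ols

/-! # SPN -/

set_option autoImplicit false

open Module Polynomial

namespace Pool.Agent.D0H56.MD

theorem t_SPN : S_SPN := by
  intro K _ _ x y hxy U L hU hL hli
  have h1 : Algebra.adjoin ℚ (Set.range ![x, y]) = ⊤ := by
    have h2 := congrArg IntermediateField.toSubalgebra hxy
    rw [IntermediateField.adjoin_toSubalgebra_of_isAlgebraic
      (fun z _ => Algebra.IsAlgebraic.isAlgebraic z), IntermediateField.top_toSubalgebra] at h2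
    rw [← h2]
    congr 1
    simp [Matrix.range_cons, Matrix.range_empty, Set.pair_comm]
  have hli2 : LinearIndependent ℚ (fun k : Fin 2 → Fin U => ∏ j, ![x, y] j ^ (k j : ℕ)) := by
    have h3 := hli.comp (fun k : Fin 2 → Fin U => (k 0, k 1)) (by
      intro k l hkl
      simp only [Prod.mk.injEq] at hkl
      funext i
      fin_cases i
      · exact hkl.1
      · exact hkl.2)
    convert h3 using 2 with k
    simp [Fin.prod_univ_two]
  obtain ⟨M, hM, hspan⟩ := Pool.Agent.Y642.ND.span Pool.Agent.Y220.ND.t (by norm_num) h1 hU hli2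
  rw [eq_top_iff, ← hspan]
  refine Submodule.span_mono ?_
  rintro z ⟨k, hk, rfl⟩
  have hML : M < L := by
    refine lt_of_le_of_lt ?_ hL
    rw [Nat.le_div_iff_mul_le (by omega)]
    simpa using hM
  exact ⟨k 0, k 1, lt_of_le_of_lt (hk 0) hML, lt_of_le_of_lt (hk 1) hML, by
    simp [Fin.prod_univ_two]⟩

end Pool.Agent.D0H56.MD
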